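import Mathlib

/-!
# Rational actions of the additive group normalised by the multiplicative group

`K` is a field containing `ℂ`, `F c` (`c : ℂ`) is an additive one-parameter group of endomorphisms
of `K`, `D t` (`t ∈ ℂˣ`) a multiplicative one, with `D t ∘ F c = F (t * c) ∘ D t`, and both depend
rationally on the parameter.
-/

set_option autoImplicit false
set_option linter.unusedSectionVars false

open Polynomial

namespace Pool.Agent.Lib.MP_956d6c_ag

/-- An action of `ℂ ⋊ ℂˣ` on a field, depending rationally on the parameters. -/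
structure FlowData (K : Type) [Field K] [Algebra ℂ K] where
  F : ℂ → K →ₐ[ℂ] K
  D : ℂˣ → K →ₐ[ℂ] K
  F_zero : F 0 = AlgHom.id ℂ K
  F_add : ∀ a b, F (a + b) = (F a).comp (F b)
  D_one : D 1 = AlgHom.id ℂ K
  D_mul : ∀ a b, D (a * b) = (D a).comp (D b)
  comm : ∀ (t : ℂˣ) (c : ℂ), (D t).comp (F c) = (F (t * c)).comp (D t)
  ratF : ∀ f : K, ∃ A B : K[X], ∀ c : ℂ, B.eval (algebraMap ℂ K c) ≠ 0 ∧
    F c f * B.eval (algebraMap ℂ K c) = A.eval (algebraMap ℂ K c)
  ratD : ∀ f : K, ∃ A B : K[X], ∀ c : ℂˣ, B.eval (algebraMap ℂ K c) ≠ 0 ∧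
    D c f * B.eval (algebraMap ℂ K c) = A.eval (algebraMap ℂ K c)

section Poly

variable {K : Type} [Field K] [Algebra ℂ K]

lemma algebraMap_infinite : (Set.range (algebraMap ℂ K)).Infinite :=
  Set.infinite_range_of_injective (algebraMap ℂ K).injective

lemma units_infinite : (Set.range (fun c : ℂˣ => algebraMap ℂ K (c : ℂ))).Infinite := by
  refine Set.infinite_of_injective_forall_mem (f := fun n : ℕ => algebraMap ℂ K ((n : ℂ) + 1))
    ?_ ?_
  · intro a b h
    have := (algebraMap ℂ K).injective h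
    simpa using this
  · intro n
    exact ⟨Units.mk0 ((n : ℂ) + 1) (by exact_mod_cast Nat.succ_ne_zero n), rfl⟩

/-- polynomials agreeing at all nonzero complex numbers are equal -/
lemma poly_eq_of_units {A B : K[X]}
    (h : ∀ c : ℂˣ, A.eval (algebraMap ℂ K c) = B.eval (algebraMap ℂ K c)) : A = B := by
  refine Polynomial.eq_of_infinite_eval_eq A B (Set.Infinite.mono ?_ (units_infinite (K := K)))
  rintro _ ⟨c, rfl⟩
  exact h c

/-- coprime normal forms are unique -/
lemma normal_unique {P Q P' Q' : K[X]} (h1 : IsCoprime P Q) (h2 : IsCoprime P' Q')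
    (m1 : Q.Monic) (m2 : Q'.Monic) (h : P * Q' = P' * Q) : Q = Q' ∧ P = P' := by
  have d1 : Q ∣ Q' := h1.symm.dvd_of_dvd_mul_left (h ▸ Dvd.intro_left P' rfl)
  have d2 : Q' ∣ Q := h2.symm.dvd_of_dvd_mul_left (h ▸ Dvd.intro_left P rfl)
  have e : Q = Q' := eq_of_monic_of_associated m1 m2 (associated_of_dvd_dvd d1 d2)
  refine ⟨e, ?_⟩
  subst e
  exact mul_right_cancel₀ m1.ne_zero h

/-- existence of coprime normal forms -/
lemma exists_normal {ι : Type} (val : ι → K) (g : ι → K) (hne : Nonempty ι)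
    (h : ∃ A B : K[X], ∀ c : ι, B.eval (val c) ≠ 0 ∧ g c * B.eval (val c) = A.eval (val c)) :
    ∃ P Q : K[X], IsCoprime P Q ∧ Q.Monic ∧
      ∀ c : ι, Q.eval (val c) ≠ 0 ∧ g c * Q.eval (val c) = P.eval (val c) := by
  obtain ⟨A, B, hAB⟩ := h
  have hB : B ≠ 0 := by
    obtain ⟨c⟩ := hne
    rintro rfl
    exact (hAB c).1 (by simp)
  set r : RatFunc K := algebraMap _ _ A / algebraMap _ _ B with hr
  have hden : r.denom ∣ B := RatFunc.denom_div_dvd A B
  have hcross : r.num * B = A * r.denom := (RatFunc.num_mul_eq_mul_denom_iff hB).2 hr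
  refine ⟨r.num, r.denom, RatFunc.isCoprime_num_denom r, RatFunc.monic_denom r, ?_⟩
  intro c
  have hQ : r.denom.eval (val c) ≠ 0 := by
    obtain ⟨E, hE⟩ := hden
    intro h0
    apply (hAB c).1
    rw [hE, eval_mul, h0, zero_mul]
  refine ⟨hQ, ?_⟩
  have h1 := congrArg (Polynomial.eval (val c)) hcross
  rw [eval_mul, eval_mul] at h1
  apply mul_right_cancel₀ (hAB c).1
  rw [h1, ← (hAB c).2]
  ring

lemma comp_X_add_C_coeff_succ (P : K[X]) (n : ℕ) (hP : P.natDegree ≤ n + 1) (w : K) :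
    (P.comp (X + C w)).coeff (n + 1) = P.coeff (n + 1) := by
  rw [← taylor_apply, taylor_coeff]
  have : hasseDeriv (n + 1) P = C (P.coeff (n + 1)) := by
    ext i
    rw [hasseDeriv_coeff, coeff_C]
    rcases i with _ | i
    · simp
    · rw [if_neg (by omega), coeff_eq_zero_of_natDegree_lt (by omega), mul_zero]
  rw [this, eval_C]

lemma comp_X_add_C_coeff (P : K[X]) (n : ℕ) (hP : P.natDegree ≤ n + 1) (w : K) :
    (P.comp (X + C w)).coeff n = P.coeff n + (n + 1 : K) * w * P.coeff (n + 1) := by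
  rw [← taylor_apply, taylor_coeff]
  have : hasseDeriv n P = C (P.coeff n) + C ((n + 1 : K) * P.coeff (n + 1)) * X := by
    ext i
    rw [hasseDeriv_coeff, coeff_add, coeff_C, coeff_C_mul, coeff_X]
    rcases i with _ | _ | i
    · simp
    · rw [if_neg (by omega), if_pos rfl, zero_add, zero_add, add_comm 1 n,
        Nat.choose_succ_self_right]
      push_cast; ring
    · rw [if_neg (by omega), if_neg (by omega), coeff_eq_zero_of_natDegree_lt (by omega)]
      simp
  rw [this, eval_add, eval_C, eval_mul, eval_C, eval_X]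
  ring

end Poly

namespace FlowData

variable {K : Type} [Field K] [Algebra ℂ K] (Φ : FlowData K)

/-- `f` is homogeneous of degree `d` -/
def IsHomog (d : ℤ) (f : K) : Prop := ∀ t : ℂˣ, Φ.D t f = algebraMap ℂ K t ^ d * f

/-- `f` is invariant under the additive group -/
def IsInv (f : K) : Prop := ∀ c : ℂ, Φ.F c f = f

lemma algebraMap_unit_ne_zero (t : ℂˣ) : algebraMap ℂ K t ≠ 0 := by
  rw [Ne, map_eq_zero]
  exact t.ne_zero

lemma comm_apply (t : ℂˣ) (c : ℂ) (f : K) : Φ.D t (Φ.F c f) = Φ.F (t * c) (Φ.D t f) := by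
  have := congrArg (fun g => g f) (Φ.comm t c)
  simpa using this

lemma F_add_apply (a b : ℂ) (f : K) : Φ.F (a + b) f = Φ.F a (Φ.F b f) := by
  rw [Φ.F_add]; rfl

lemma D_mul_apply (a b : ℂˣ) (f : K) : Φ.D (a * b) f = Φ.D a (Φ.D b f) := by
  rw [Φ.D_mul]; rfl

/-- normal form for the additive group -/
lemma exists_normalF (f : K) : ∃ P Q : K[X], IsCoprime P Q ∧ Q.Monic ∧
    ∀ c : ℂ, Q.eval (algebraMap ℂ K c) ≠ 0 ∧
      Φ.F c f * Q.eval (algebraMap ℂ K c) = P.eval (algebraMap ℂ K c) :=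
  exists_normal (fun c : ℂ => algebraMap ℂ K c) (fun c => Φ.F c f) inferInstance (Φ.ratF f)

/-- normal form for the multiplicative group -/
lemma exists_normalD (f : K) : ∃ P Q : K[X], IsCoprime P Q ∧ Q.Monic ∧
    ∀ c : ℂˣ, Q.eval (algebraMap ℂ K c) ≠ 0 ∧
      Φ.D c f * Q.eval (algebraMap ℂ K c) = P.eval (algebraMap ℂ K c) :=
  exists_normal (fun c : ℂˣ => algebraMap ℂ K c) (fun c => Φ.D c f) inferInstance (Φ.ratD f)

lemma eval_map_alg (g : K →ₐ[ℂ] K) (P : K[X]) (c : ℂ) :
    (P.map (g : K →+* K)).eval (algebraMap ℂ K c) = g (P.eval (algebraMap ℂ K c)) := by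
  have : algebraMap ℂ K c = (g : K →+* K) (algebraMap ℂ K c) := by simp
  conv_lhs => rw [this]
  rw [eval_map, eval₂_hom]
  rfl

lemma coprime_map (g : K →ₐ[ℂ] K) {P Q : K[X]} (h : IsCoprime P Q) :
    IsCoprime (P.map (g : K →+* K)) (Q.map (g : K →+* K)) :=
  h.map (mapRingHom (g : K →+* K))

lemma coprime_comp (R : K[X]) {P Q : K[X]} (h : IsCoprime P Q) :
    IsCoprime (P.comp R) (Q.comp R) :=
  h.map (compRingHom R)

/-- the additive group acts on normal forms by translation -/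
lemma shiftF {f : K} {P Q : K[X]} (hc : IsCoprime P Q) (hm : Q.Monic)
    (h : ∀ c : ℂ, Q.eval (algebraMap ℂ K c) ≠ 0 ∧
      Φ.F c f * Q.eval (algebraMap ℂ K c) = P.eval (algebraMap ℂ K c)) (w : ℂ) :
    Q.map (Φ.F w : K →+* K) = Q.comp (X + C (algebraMap ℂ K w)) ∧
      P.map (Φ.F w : K →+* K) = P.comp (X + C (algebraMap ℂ K w)) := by
  apply normal_unique (coprime_map _ hc) (coprime_comp _ hc) (hm.map _) (hm.comp_X_add_C _)
  apply poly_eq_of_units
  intro c
  rw [eval_mul, eval_mul, eval_map_alg, eval_map_alg, eval_comp, eval_comp]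
  have e : (X + C (algebraMap ℂ K w)).eval (algebraMap ℂ K c) = algebraMap ℂ K (w + c) := by
    rw [eval_add, eval_X, eval_C, map_add, add_comm]
  rw [e, ← (h (w + c)).2, ← (h c).2, map_mul, F_add_apply]
  ring

/-- the multiplicative group acts on normal forms of equivariant functions -/
lemma scale_gen {g : ℂˣ → K} {d : ℤ}
    (hg : ∀ t c : ℂˣ, Φ.D t (g c) = algebraMap ℂ K t ^ d * g (t * c)) {P Q : K[X]}
    (hc : IsCoprime P Q)
    (hm : Q.Monic) (h : ∀ c : ℂˣ, Q.eval (algebraMap ℂ K c) ≠ 0 ∧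
      g c * Q.eval (algebraMap ℂ K c) = P.eval (algebraMap ℂ K c)) (t : ℂˣ) (j : ℕ) :
    Φ.D t (Q.coeff j) = algebraMap ℂ K t ^ ((j : ℤ) - Q.natDegree) * Q.coeff j ∧
      Φ.D t (P.coeff j) = algebraMap ℂ K t ^ (d + (j : ℤ) - Q.natDegree) * P.coeff j := by
  have ht := algebraMap_unit_ne_zero (K := K) t
  set τ : K := algebraMap ℂ K t with hτ
  set m := Q.natDegree with hmdef
  have key := normal_unique (P := P.map (Φ.D t : K →+* K)) (Q := Q.map (Φ.D t : K →+* K))
    (P' := C (τ ^ (d - (m : ℤ))) * P.comp (C τ * X))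
    (Q' := C (τ ^ (-(m : ℤ))) * Q.comp (C τ * X))
    (coprime_map _ hc) ?_ (hm.map _) ?_ ?_
  · constructor
    · have := congrArg (fun R => R.coeff j) key.1
      simp only [coeff_map, coeff_C_mul, comp_C_mul_X_coeff] at this
      rw [show (Φ.D t : K →+* K) (Q.coeff j) = Φ.D t (Q.coeff j) from rfl] at this
      rw [this, sub_eq_add_neg, zpow_add₀ ht, zpow_natCast]
      ring
    · have := congrArg (fun R => R.coeff j) key.2
      simp only [coeff_map, coeff_C_mul, comp_C_mul_X_coeff] at this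
      rw [show (Φ.D t : K →+* K) (P.coeff j) = Φ.D t (P.coeff j) from rfl] at this
      rw [this, show d + (j : ℤ) - m = (d - m) + j by ring, zpow_add₀ ht, zpow_natCast]
      ring
  · have u1 : IsUnit (C (τ ^ (d - (m : ℤ))) : K[X]) := isUnit_C.2 (IsUnit.mk0 _ (zpow_ne_zero _ ht))
    have u2 : IsUnit (C (τ ^ (-(m : ℤ))) : K[X]) := isUnit_C.2 (IsUnit.mk0 _ (zpow_ne_zero _ ht))
    rw [isCoprime_mul_unit_left_left u1, isCoprime_mul_unit_left_right u2]
    exact coprime_comp _ hc
  · have hdeg : (C τ * X : K[X]).natDegree = 1 := natDegree_C_mul_X τ ht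
    have hlead : (Q.comp (C τ * X)).leadingCoeff = τ ^ m := by
      rw [leadingCoeff_comp (by rw [hdeg]; exact one_ne_zero), hm.leadingCoeff, one_mul,
        leadingCoeff_C_mul_X]
    unfold Monic
    rw [leadingCoeff_mul, leadingCoeff_C, hlead, ← zpow_natCast, ← zpow_add₀ ht, neg_add_cancel,
      zpow_zero]
  · apply poly_eq_of_units
    intro c
    simp only [eval_mul, eval_map_alg, eval_C, eval_comp, eval_X]
    have e : τ * algebraMap ℂ K c = algebraMap ℂ K ((t * c : ℂˣ) : ℂ) := by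
      rw [Units.val_mul, map_mul, hτ]
    rw [e, ← (h (t * c)).2, ← (h c).2, map_mul, hg t c, sub_eq_add_neg, zpow_add₀ ht]
    ring

/-- the multiplicative group acts on normal forms of homogeneous elements -/
lemma scaleF {f : K} {d : ℤ} (hf : Φ.IsHomog d f) {P Q : K[X]} (hc : IsCoprime P Q)
    (hm : Q.Monic) (h : ∀ c : ℂ, Q.eval (algebraMap ℂ K c) ≠ 0 ∧
      Φ.F c f * Q.eval (algebraMap ℂ K c) = P.eval (algebraMap ℂ K c)) (t : ℂˣ) (j : ℕ) :
    Φ.D t (Q.coeff j) = algebraMap ℂ K t ^ ((j : ℤ) - Q.natDegree) * Q.coeff j ∧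
      Φ.D t (P.coeff j) = algebraMap ℂ K t ^ (d + (j : ℤ) - Q.natDegree) * P.coeff j :=
  Φ.scale_gen (g := fun c => Φ.F c f) (d := d) (fun t c => by
    rw [comm_apply, hf t, map_mul, map_zpow₀, AlgHom.commutes, Units.val_mul]) hc hm
    (fun c => h c) t j

/-- existence of a homogeneous slice -/
theorem exists_slice {f : K} {d : ℤ} (hf : Φ.IsHomog d f) (hne : ¬ Φ.IsInv f) :
    ∃ s : K, (∀ c, Φ.F c s = s + algebraMap ℂ K c) ∧ Φ.IsHomog (-1) s := by
  obtain ⟨P, Q, hc, hm, h⟩ := Φ.exists_normalF f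
  have hs := Φ.shiftF hc hm h
  have hd := Φ.scaleF hf hc hm h
  rcases hQ : Q.natDegree with _ | n
  · -- `Q = 1`
    have hQ1 : Q = 1 := hm.natDegree_eq_zero.1 hQ
    rcases hP : P.natDegree with _ | n
    · exfalso
      apply hne
      intro c
      have hPc : P = C (P.coeff 0) := eq_C_of_natDegree_eq_zero hP
      have h0 := (h 0).2
      have hcc := (h c).2
      rw [hQ1, eval_one, mul_one, hPc, eval_C] at h0 hcc
      rw [hcc, ← h0, Φ.F_zero]; rfl
    · have hlead : P.coeff (n + 1) ≠ 0 := by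
        rw [← hP]
        have : P ≠ 0 := by rintro rfl; simp at hP
        exact leadingCoeff_ne_zero.2 this
      have hn : ((n : K) + 1) ≠ 0 := by
        have : CharZero K := charZero_of_injective_algebraMap (algebraMap ℂ K).injective
        exact_mod_cast Nat.succ_ne_zero n
      have h1 : ∀ w, Φ.F w (P.coeff (n + 1)) = P.coeff (n + 1) := by
        intro w
        have := congrArg (fun R => R.coeff (n + 1)) (hs w).2
        rw [comp_X_add_C_coeff_succ P n hP.le] at this
        simpa using this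
      have h2 : ∀ w, Φ.F w (P.coeff n) =
          P.coeff n + (n + 1 : K) * algebraMap ℂ K w * P.coeff (n + 1) := by
        intro w
        have := congrArg (fun R => R.coeff n) (hs w).2
        rw [comp_X_add_C_coeff P n hP.le] at this
        simpa using this
      refine ⟨P.coeff n / ((n + 1 : K) * P.coeff (n + 1)), ?_, ?_⟩
      · intro c
        rw [map_div₀, map_mul, h1, h2, map_add, map_natCast, map_one]
        field_simp
      · intro t
        have ht := algebraMap_unit_ne_zero (K := K) t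
        rw [map_div₀, map_mul, (hd t n).2, (hd t (n + 1)).2, map_add, map_natCast, map_one, hQ,
          show d + ((n + 1 : ℕ) : ℤ) - ((0 : ℕ) : ℤ) = (d + (n : ℤ) - ((0 : ℕ) : ℤ)) + 1 by
            push_cast; ring, zpow_add₀ ht, zpow_one, zpow_neg, zpow_one]
        have := zpow_ne_zero (d + (n : ℤ) - ((0 : ℕ) : ℤ)) ht
        field_simp
  · have hlead : Q.coeff (n + 1) = 1 := by rw [← hQ]; exact hm
    have hn : ((n : K) + 1) ≠ 0 := by
      have : CharZero K := charZero_of_injective_algebraMap (algebraMap ℂ K).injective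
      exact_mod_cast Nat.succ_ne_zero n
    have h2 : ∀ w, Φ.F w (Q.coeff n) =
        Q.coeff n + (n + 1 : K) * algebraMap ℂ K w := by
      intro w
      have := congrArg (fun R => R.coeff n) (hs w).1
      rw [comp_X_add_C_coeff Q n hQ.le, hlead, mul_one] at this
      simpa using this
    refine ⟨Q.coeff n / (n + 1 : K), ?_, ?_⟩
    · intro c
      rw [map_div₀, h2, map_add, map_natCast, map_one]
      field_simp
    · intro t
      have ht := algebraMap_unit_ne_zero (K := K) t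
      rw [map_div₀, (hd t n).1, map_add, map_natCast, map_one, hQ,
        show (n : ℤ) - ((n + 1 : ℕ) : ℤ) = -1 by push_cast; ring]
      field_simp

/-- the field of invariants of the additive group -/
def inv : IntermediateField ℂ K where
  carrier := {f | Φ.IsInv f}
  mul_mem' ha hb c := by rw [map_mul, ha c, hb c]
  one_mem' c := map_one _
  add_mem' ha hb c := by rw [map_add, ha c, hb c]
  zero_mem' c := map_zero _
  algebraMap_mem' r c := AlgHom.commutes _ _
  inv_mem' x hx c := by rw [map_inv₀, hx c]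

/-- the field of elements of degree zero -/
def deg0 : IntermediateField ℂ K where
  carrier := {f | ∀ t, Φ.D t f = f}
  mul_mem' ha hb c := by rw [map_mul, ha c, hb c]
  one_mem' c := map_one _
  add_mem' ha hb c := by rw [map_add, ha c, hb c]
  zero_mem' c := map_zero _
  algebraMap_mem' r c := AlgHom.commutes _ _
  inv_mem' x hx c := by rw [map_inv₀, hx c]

lemma mem_inv {f : K} : f ∈ Φ.inv ↔ ∀ c, Φ.F c f = f := Iff.rfl
lemma mem_deg0 {f : K} : f ∈ Φ.deg0 ↔ ∀ t, Φ.D t f = f := Iff.rfl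

lemma isHomog_zero_iff {f : K} : Φ.IsHomog 0 f ↔ f ∈ Φ.deg0 := by
  rw [mem_deg0]
  unfold IsHomog
  simp

lemma IsHomog.mul {Φ : FlowData K} {d e : ℤ} {f g : K} (hf : Φ.IsHomog d f)
    (hg : Φ.IsHomog e g) : Φ.IsHomog (d + e) (f * g) := by
  intro t
  rw [map_mul, hf t, hg t, zpow_add₀ (algebraMap_unit_ne_zero t)]
  ring

lemma IsHomog.inv {Φ : FlowData K} {d : ℤ} {f : K} (hf : Φ.IsHomog d f) :
    Φ.IsHomog (-d) f⁻¹ := by
  intro t
  rw [map_inv₀, hf t, zpow_neg, mul_inv]

lemma IsHomog.zpow {Φ : FlowData K} {d : ℤ} {f : K} (hf : Φ.IsHomog d f) (n : ℤ) :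
    Φ.IsHomog (d * n) (f ^ n) := by
  intro t
  rw [map_zpow₀, hf t, mul_zpow, ← zpow_mul]

lemma IsHomog.npow {Φ : FlowData K} {d : ℤ} {f : K} (hf : Φ.IsHomog d f) (n : ℕ) :
    Φ.IsHomog (d * n) (f ^ n) := by
  have := hf.zpow (n : ℤ)
  rwa [zpow_natCast] at this

/-- the field of invariants of both groups -/
noncomputable def L0 : IntermediateField ℂ K := Φ.inv ⊓ Φ.deg0

/-- every element is a rational function of the slice with invariant coefficients -/
lemma exists_inv_coeffs {s : K} (hs : ∀ c, Φ.F c s = s + algebraMap ℂ K c) (f : K) :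
    ∃ A B : K[X], (∀ i, A.coeff i ∈ Φ.inv) ∧ (∀ i, B.coeff i ∈ Φ.inv) ∧ B.eval s ≠ 0 ∧
      f * B.eval s = A.eval s := by
  obtain ⟨P, Q, hc, hm, h⟩ := Φ.exists_normalF f
  have hsh := Φ.shiftF hc hm h
  have key : ∀ R : K[X], (∀ w, R.map (Φ.F w : K →+* K) = R.comp (X + C (algebraMap ℂ K w))) →
      ∀ i, (R.comp (X - C s)).coeff i ∈ Φ.inv := by
    intro R hR i
    rw [mem_inv]
    intro c
    have e : (R.comp (X - C s)).map (Φ.F c : K →+* K) = R.comp (X - C s) := by
      rw [map_comp, hR c, comp_assoc]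
      congr 1
      simp only [add_comp, X_comp, C_comp, Polynomial.map_sub, map_X, map_C]
      rw [show (Φ.F c : K →+* K) s = Φ.F c s from rfl, hs c, map_add]
      ring
    have := congrArg (fun R => R.coeff i) e
    simpa using this
  refine ⟨P.comp (X - C s), Q.comp (X - C s), key P (fun w => (hsh w).2),
    key Q (fun w => (hsh w).1), ?_, ?_⟩
  · rw [eval_comp, eval_sub, eval_X, eval_C, sub_self]
    have := (h 0).1
    rwa [map_zero] at this
  · rw [eval_comp, eval_sub, eval_X, eval_C, sub_self, eval_comp, eval_sub, eval_X, eval_C,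
      sub_self]
    have := (h 0).2
    rw [map_zero, Φ.F_zero] at this
    exact this

/-- every invariant is a quotient of sums of homogeneous invariants -/
lemma exists_homog_coeffs {f : K} (hf : f ∈ Φ.inv) :
    ∃ P Q : K[X], (∀ i, P.coeff i ∈ Φ.inv ∧ ∃ d, Φ.IsHomog d (P.coeff i)) ∧
      (∀ i, Q.coeff i ∈ Φ.inv ∧ ∃ d, Φ.IsHomog d (Q.coeff i)) ∧ Q.eval 1 ≠ 0 ∧
      f * Q.eval 1 = P.eval 1 := by
  obtain ⟨P, Q, hc, hm, h⟩ := Φ.exists_normalD f
  have hsc := Φ.scale_gen (g := fun c => Φ.D c f) (d := 0) (fun t c => by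
    rw [zpow_zero, one_mul, D_mul_apply]) hc hm h
  have hFD : ∀ (w : ℂ) (c : ℂˣ), Φ.F w (Φ.D c f) = Φ.D c f := by
    intro w c
    have := Φ.comm_apply c (w / c) f
    rw [Φ.mem_inv.1 hf, mul_div_cancel₀ w c.ne_zero] at this
    exact this.symm
  have hinv : ∀ w, Q.map (Φ.F w : K →+* K) = Q ∧ P.map (Φ.F w : K →+* K) = P := by
    intro w
    apply normal_unique (coprime_map _ hc) hc (hm.map _) hm
    apply poly_eq_of_units
    intro c
    simp only [eval_mul, eval_map_alg]
    rw [← (h c).2, map_mul, hFD]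
    ring
  refine ⟨P, Q, ?_, ?_, ?_, ?_⟩
  · intro i
    refine ⟨?_, _, fun t => (hsc t i).2⟩
    rw [mem_inv]
    intro w
    have := congrArg (fun R => R.coeff i) (hinv w).2
    simpa using this
  · intro i
    refine ⟨?_, _, fun t => (hsc t i).1⟩
    rw [mem_inv]
    intro w
    have := congrArg (fun R => R.coeff i) (hinv w).1
    simpa using this
  · have := (h 1).1
    simpa using this
  · have := (h 1).2
    simp only [Units.val_one, map_one, Φ.D_one] at this
    exact this

lemma slice_ne_zero {s : K} (hs : ∀ c, Φ.F c s = s + algebraMap ℂ K c) : s ≠ 0 := by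
  rintro rfl
  have := hs 1
  rw [map_zero, zero_add, map_one] at this
  exact zero_ne_one this

/-- a nonzero element of degree `-1` is transcendental over the elements of degree zero -/
lemma poly_eq_zero_of_deg0 {s : K} (hs0 : s ≠ 0) (hsd : Φ.IsHomog (-1) s) {p : K[X]}
    (hp : ∀ i, p.coeff i ∈ Φ.deg0) (h : p.eval s = 0) : p = 0 := by
  apply Polynomial.eq_zero_of_infinite_isRoot
  have hinf := (units_infinite (K := K))
  have : Set.Infinite ((fun x => x⁻¹ * s) '' (Set.range (fun c : ℂˣ => algebraMap ℂ K (c : ℂ)))) := by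
    apply hinf.image
    intro a _ b _ hab
    have := mul_right_cancel₀ hs0 hab
    exact inv_injective this
  refine this.mono ?_
  rintro _ ⟨_, ⟨t, rfl⟩, rfl⟩
  change p.eval _ = 0
  have h1 : Φ.D t (p.eval s) = p.eval ((algebraMap ℂ K t)⁻¹ * s) := by
    have h2 : (Φ.D t) (p.eval s) = (p.map (Φ.D t : K →+* K)).eval (Φ.D t s) := by
      rw [eval_map, show Φ.D t s = (Φ.D t : K →+* K) s from rfl, eval₂_hom]
      rfl
    have h3 : p.map (Φ.D t : K →+* K) = p := by
      ext i
      rw [coeff_map]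
      exact hp i t
    rw [h2, h3, hsd t, zpow_neg, zpow_one]
  rw [← h1, h, map_zero]

/-- `w * s ^ N` is transcendental over the invariants of the additive group -/
lemma poly_eq_zero_of_inv {s w : K} (hs : ∀ c, Φ.F c s = s + algebraMap ℂ K c) (hw0 : w ≠ 0)
    (hw : w ∈ Φ.inv) {N : ℕ} (hN : N ≠ 0) {p : K[X]} (hp : ∀ i, p.coeff i ∈ Φ.inv)
    (h : p.eval (w * s ^ N) = 0) : p = 0 := by
  have hcomp : p.comp (C w * (X + C s) ^ N) = 0 := by
    apply Polynomial.eq_zero_of_infinite_isRoot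
    refine (algebraMap_infinite (K := K)).mono ?_
    rintro _ ⟨c, rfl⟩
    change (p.comp _).eval _ = 0
    have h1 : Φ.F c (p.eval (w * s ^ N)) = p.eval (w * (algebraMap ℂ K c + s) ^ N) := by
      have h2 : (Φ.F c) (p.eval (w * s ^ N)) =
          (p.map (Φ.F c : K →+* K)).eval (Φ.F c (w * s ^ N)) := by
        rw [eval_map, show Φ.F c (w * s ^ N) = (Φ.F c : K →+* K) (w * s ^ N) from rfl, eval₂_hom]
        rfl
      have h3 : p.map (Φ.F c : K →+* K) = p := by
        ext i
        rw [coeff_map]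
        exact hp i c
      rw [h2, h3, map_mul, map_pow, hs c, Φ.mem_inv.1 hw c, add_comm s]
    rw [eval_comp, eval_mul, eval_C, eval_pow, eval_add, eval_X, eval_C, ← h1, h, map_zero]
  rw [comp_eq_zero_iff] at hcomp
  rcases hcomp with h0 | ⟨_, h1⟩
  · exact h0
  · exfalso
    have : (C w * (X + C s) ^ N : K[X]).natDegree = N := by
      rw [natDegree_C_mul hw0, natDegree_pow, natDegree_X_add_C, mul_one]
    rw [h1, natDegree_C] at this
    exact hN this.symm

/-- The structure theorem. -/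
theorem structure_thm {s : K} (hs : ∀ c, Φ.F c s = s + algebraMap ℂ K c)
    (hsd : Φ.IsHomog (-1) s) :
    ∃ (N : ℕ) (w : K), w ≠ 0 ∧ w ∈ Φ.inv ∧ Φ.IsHomog N w ∧ (N = 0 → w = 1) ∧
      ∀ f ∈ Φ.deg0, f ∈ IntermediateField.adjoin ℂ ((Φ.L0 : Set K) ∪ {w * s ^ N}) := by
  have hs0 := Φ.slice_ne_zero hs
  -- the group of degrees of homogeneous invariants
  let S : AddSubgroup ℤ :=
    { carrier := {d | ∃ g : K, g ≠ 0 ∧ g ∈ Φ.inv ∧ Φ.IsHomog d g}
      zero_mem' := ⟨1, one_ne_zero, Φ.inv.one_mem, fun t => by simp⟩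
      add_mem' := by
        rintro a b ⟨g, hg, hgi, hgh⟩ ⟨g', hg', hgi', hgh'⟩
        exact ⟨g * g', mul_ne_zero hg hg', Φ.inv.mul_mem hgi hgi', hgh.mul hgh'⟩
      neg_mem' := by
        rintro a ⟨g, hg, hgi, hgh⟩
        exact ⟨g⁻¹, inv_ne_zero hg, Φ.inv.inv_mem hgi, hgh.inv⟩ }
  obtain ⟨a, ha⟩ := Int.subgroup_cyclic S
  have hmem : ∀ d, d ∈ S → (a.natAbs : ℤ) ∣ d := by
    intro d hd
    rw [ha, AddSubgroup.mem_closure_singleton] at hd
    obtain ⟨n, rfl⟩ := hd
    rw [Int.natAbs_dvd, smul_eq_mul]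
    exact Dvd.intro_left n rfl
  have hN : (a.natAbs : ℤ) ∈ S := by
    have haS : a ∈ S := by rw [ha]; exact AddSubgroup.subset_closure rfl
    rcases Int.natAbs_eq a with h | h
    · rw [← h]; exact haS
    · rw [show (a.natAbs : ℤ) = -a by omega]; exact S.neg_mem haS
  set N := a.natAbs with hNdef
  obtain ⟨w, hw0, hwi, hwh, hw1⟩ : ∃ w : K, w ≠ 0 ∧ w ∈ Φ.inv ∧ Φ.IsHomog N w ∧ (N = 0 → w = 1) := by
    by_cases hN0 : N = 0
    · exact ⟨1, one_ne_zero, Φ.inv.one_mem, fun t => by simp [hN0], fun _ => rfl⟩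
    · obtain ⟨w, hw0, hwi, hwh⟩ := hN
      exact ⟨w, hw0, hwi, hwh, fun h => absurd h hN0⟩
  refine ⟨N, w, hw0, hwi, hwh, hw1, ?_⟩
  set M : IntermediateField ℂ K := IntermediateField.adjoin ℂ ((Φ.L0 : Set K) ∪ {w * s ^ N})
    with hM
  have hL0M : Φ.L0 ≤ M := fun x hx => IntermediateField.subset_adjoin _ _ (Or.inl hx)
  have hvM : w * s ^ N ∈ M := IntermediateField.subset_adjoin _ _ (Or.inr rfl)
  have hMdeg : M ≤ Φ.deg0 := by
    rw [hM, IntermediateField.adjoin_le_iff]
    rintro x (hx | hx)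
    · exact hx.2
    · rw [Set.mem_singleton_iff.1 hx]
      change _ ∈ Φ.deg0
      rw [← isHomog_zero_iff]
      have := hwh.mul (hsd.npow N)
      rwa [show (N : ℤ) + -1 * N = 0 by ring] at this
  let T : IntermediateField ℂ K := (IntermediateField.adjoin M {s}).restrictScalars ℂ
  have hMT : M ≤ T := by
    intro x hx
    exact (IntermediateField.adjoin M {s}).algebraMap_mem ⟨x, hx⟩
  have hsT : s ∈ T := IntermediateField.mem_adjoin_simple_self M s
  have hwT : w ∈ T := by
    have : w = (w * s ^ N) * (s ^ N)⁻¹ := by field_simp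
    rw [this]
    exact T.mul_mem (hMT hvM) (T.inv_mem (pow_mem hsT N))
  have hhom : ∀ g ∈ Φ.inv, (∃ d, Φ.IsHomog d g) → g ∈ T := by
    rintro g hg ⟨d, hd⟩
    by_cases hg0 : g = 0
    · rw [hg0]; exact T.zero_mem
    obtain ⟨e, he⟩ := hmem d ⟨g, hg0, hg, hd⟩
    have h1 : g * (w ^ e)⁻¹ ∈ Φ.L0 := by
      refine ⟨Φ.inv.mul_mem hg (Φ.inv.inv_mem (zpow_mem hwi e)), ?_⟩
      change _ ∈ Φ.deg0
      rw [← isHomog_zero_iff]
      have := hd.mul ((hwh.zpow e).inv)
      rwa [he, add_neg_cancel] at this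
    have h2 : g = (g * (w ^ e)⁻¹) * w ^ e := by
      have := zpow_ne_zero e hw0
      field_simp
    rw [h2]
    exact T.mul_mem (hMT (hL0M h1)) (zpow_mem hwT e)
  have heval : ∀ (R : K[X]) (x : K), (∀ i, R.coeff i ∈ T) → x ∈ T → R.eval x ∈ T := by
    intro R x hR hx
    rw [eval_eq_sum_range]
    exact T.sum_mem (fun i _ => T.mul_mem (hR i) (pow_mem hx i))
  have hinvT : Φ.inv ≤ T := by
    intro g hg
    obtain ⟨P, Q, hP, hQ, hQ1, h⟩ := Φ.exists_homog_coeffs hg
    have : g = P.eval 1 / Q.eval 1 := by rw [← h]; field_simp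
    rw [this]
    exact T.div_mem (heval P 1 (fun i => hhom _ (hP i).1 (hP i).2) T.one_mem)
      (heval Q 1 (fun i => hhom _ (hQ i).1 (hQ i).2) T.one_mem)
  have hallT : ∀ f : K, f ∈ T := by
    intro f
    obtain ⟨A, B, hA, hB, hB0, h⟩ := Φ.exists_inv_coeffs hs f
    have : f = A.eval s / B.eval s := by rw [← h]; field_simp
    rw [this]
    exact T.div_mem (heval A s (fun i => hinvT (hA i)) hsT)
      (heval B s (fun i => hinvT (hB i)) hsT)
  -- elements of degree zero lie in `M`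
  intro f hf
  obtain ⟨a', b', hab⟩ := IntermediateField.mem_adjoin_simple_iff M f |>.1 (hallT f)
  by_cases hb : aeval s b' = 0
  · rw [hab, hb, div_zero]; exact M.zero_mem
  have hb' : b' ≠ 0 := by rintro rfl; simp at hb
  have hrel : (C f * b'.map (algebraMap M K) - a'.map (algebraMap M K)) = 0 := by
    apply Φ.poly_eq_zero_of_deg0 hs0 hsd
    · intro i
      rw [coeff_sub, coeff_C_mul, coeff_map, coeff_map]
      exact Φ.deg0.sub_mem (Φ.deg0.mul_mem hf (hMdeg (b'.coeff i).2)) (hMdeg (a'.coeff i).2)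
    · rw [eval_sub, eval_mul, eval_C, eval_map_algebraMap, eval_map_algebraMap, hab]
      field_simp
      ring
  obtain ⟨i, hi⟩ : ∃ i, b'.coeff i ≠ 0 := by
    by_contra hcon
    push Not at hcon
    exact hb' (Polynomial.ext (by simpa using hcon))
  have h1 := congrArg (fun R => R.coeff i) hrel
  simp only [coeff_sub, coeff_C_mul, coeff_map, coeff_zero] at h1
  have hi' : (b'.coeff i : K) ≠ 0 := by
    intro h0
    exact hi (Subtype.ext h0)
  have h2 : f = (a'.coeff i : K) / (b'.coeff i : K) := by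
    rw [eq_div_iff hi']
    exact sub_eq_zero.1 h1
  rw [h2]
  exact M.div_mem (a'.coeff i).2 (b'.coeff i).2

end FlowData

end Pool.Agent.Lib.MP_956d6c_ag
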