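import Mathlib

/-!
# Rational projective flows: definitions
-/

set_option autoImplicit false

open MvPolynomial

namespace Pool.Agent.Lib.MP_956d6c_ag

/-- The field `ℂ(x_1, …, x_k)` of rational functions in `k` variables. -/
abbrev RF (k : ℕ) : Type := FractionRing (MvPolynomial (Fin k) ℂ)

/-- The coordinate function `x_i` as an element of `ℂ(x_1, …, x_k)`. -/
noncomputable def crd {k : ℕ} (i : Fin k) : RF k :=
  algebraMap (MvPolynomial (Fin k) ℂ) (RF k) (X i)

/-- `EvalsTo η f e`: the rational function `f ∈ ℂ(x_1, …, x_k)` is defined at the point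
`η = (η_1, …, η_k)` with coordinates in the field `E ⊇ ℂ`, and `f(η) = e`. That is, `f = p / q` for
polynomials `p`, `q` with `q(η) ≠ 0`, and `e = p(η) / q(η)`. -/
def EvalsTo {k : ℕ} {E : Type} [Field E] [Algebra ℂ E] (η : Fin k → E) (f : RF k) (e : E) :
    Prop :=
  ∃ p q : MvPolynomial (Fin k) ℂ, aeval η q ≠ 0 ∧
    f = algebraMap _ (RF k) p / algebraMap _ (RF k) q ∧ e = aeval η p / aeval η q

/-- The point `x z = (x_1 z, …, x_k z)` with coordinates in `ℂ(x_1, …, x_k)(z)`. -/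
noncomputable def xz (k : ℕ) : Fin k → RatFunc (RF k) :=
  fun i => RatFunc.C (crd i) * RatFunc.X

/-- The rational function `e` of `z` with coefficients in the field `K` is regular at `z = c`, and
its value there is `a`. -/
def HasValueAt {K : Type} [Field K] (e : RatFunc K) (c a : K) : Prop :=
  ∃ A B : Polynomial K, B.eval c ≠ 0 ∧
    e = algebraMap _ (RatFunc K) A / algebraMap _ (RatFunc K) B ∧ a = A.eval c / B.eval c

/-- A rational projective flow in dimension `k`: a `k`-tuple `φ` of rational functions in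
`x = (x_1, …, x_k)` such that
`(1 - z) φ(x) = φ(φ(x z) (1 - z) / z)` as an identity of rational functions in `(x, z)`
(the projective translation equation), and `lim_{z → 0} φ(x z) / z = x`. Here `u` is `φ(x z)`. -/
def IsProjectiveFlow {k : ℕ} (φ : Fin k → RF k) : Prop :=
  ∃ u : Fin k → RatFunc (RF k),
    (∀ i, EvalsTo (xz k) (φ i) (u i)) ∧
    (∀ i, EvalsTo (fun j => u j * ((1 - RatFunc.X) / RatFunc.X)) (φ i)
      ((1 - RatFunc.X) * RatFunc.C (φ i))) ∧
    (∀ i, HasValueAt (u i / RatFunc.X) 0 (crd i))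

/-- The identity flow in dimension `k`. -/
noncomputable def idFlow (k : ℕ) : Fin k → RF k := fun i => crd i

/-- `f` is homogeneous of degree one: `f(t x) = t f(x)`. -/
def IsOneHomogeneous {k : ℕ} (f : RF k) : Prop :=
  EvalsTo (xz k) f (RatFunc.X * RatFunc.C f)

/-- `φ` and `ψ` are conjugate by a 1-homogenic birational transformation `ℓ` of `ℂ^k`:
`ψ = ℓ⁻¹ ∘ φ ∘ ℓ`. Here `m` is `ℓ⁻¹` and `v` is `φ ∘ ℓ`. -/
def IsConjugate {k : ℕ} (φ ψ : Fin k → RF k) : Prop :=
  ∃ l m v : Fin k → RF k,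
    (∀ i, IsOneHomogeneous (l i)) ∧
    (∀ i, EvalsTo l (m i) (crd i)) ∧ (∀ i, EvalsTo m (l i) (crd i)) ∧
    (∀ i, EvalsTo l (φ i) (v i)) ∧ (∀ i, EvalsTo v (m i) (ψ i))

/-- The affine coordinates `t_i = x_i / x_n` (`0 ≤ i < n`) in `ℂ(x_0, …, x_n)`. -/
noncomputable def tt (n : ℕ) : Fin n → RF (n + 1) :=
  fun i => crd i.castSucc / crd (Fin.last n)

/-- Let `F` be a field extension of `ℂ` and `θ : F(v) ≃ ℂ(t_0, …, t_{n-1})` an isomorphism over
`ℂ`, where `v` is an indeterminate over `F`. Regard the elements of `F` and `v` as rational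
functions of `x = (x_0, …, x_n)`, homogeneous of degree zero, by means of `θ` and
`t_i = x_i / x_n`. The map `φ` is attached to `(N, F, θ)` if
`φ_n = x_n / (1 + x_n)`, `f(φ(x)) = f(x)` for all `f ∈ F`, and `v(φ(x)) = v(x) (1 + x_n)^N`. -/
def IsAttached {n : ℕ} (N : ℕ) {F : Type} [Field F] [Algebra ℂ F]
    (θ : RatFunc F ≃ₐ[ℂ] RF n) (φ : Fin (n + 1) → RF (n + 1)) : Prop :=
  φ (Fin.last n) = crd (Fin.last n) / (1 + crd (Fin.last n)) ∧
  (∀ a : F, ∃ f, EvalsTo (tt n) (θ (RatFunc.C a)) f ∧ EvalsTo φ f f) ∧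
  ∃ v, EvalsTo (tt n) (θ RatFunc.X) v ∧ EvalsTo φ v (v * (1 + crd (Fin.last n)) ^ N)

/-- A field `F ⊇ ℂ` together with an isomorphism `θ : F(v) ≃ ℂ(t_0, …, t_{n-1})` over `ℂ`. -/
structure RatDatum (n : ℕ) : Type 1 where
  F : Type
  [instField : Field F]
  [instAlgebra : Algebra ℂ F]
  θ : RatFunc F ≃ₐ[ℂ] RF n

attribute [instance] RatDatum.instField RatDatum.instAlgebra

/-- The map `φ_N` in dimension `m + 2`:
`φ_N(x) = (x_0 (1 + y)^{N - 1}, x_1 / (1 + y), …, x_m / (1 + y), y / (1 + y))` with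
`x = (x_0, x_1, …, x_m, y)`. -/
noncomputable def stdFlow (m N : ℕ) : Fin (m + 2) → RF (m + 2) := fun i =>
  if i = 0 then crd 0 * (1 + crd (Fin.last (m + 1))) ^ ((N : ℤ) - 1)
  else crd i / (1 + crd (Fin.last (m + 1)))

end Pool.Agent.Lib.MP_956d6c_ag
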