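import Mathlib
import Pool.Agent.Lib.MP_956d6c_ag.Defs

/-!
# Closure properties of `EvalsTo` and `HasValueAt`
-/

set_option autoImplicit false
set_option linter.unusedSectionVars false

open MvPolynomial

namespace Pool.Agent.Lib.MP_956d6c_ag

section Gen

/-- the coordinates generate `RF k` -/
lemma RF_top {k : ℕ} (M : IntermediateField ℂ (RF k)) (h : ∀ i, crd i ∈ M) (f : RF k) :
    f ∈ M := by
  have hp : ∀ p : MvPolynomial (Fin k) ℂ, algebraMap _ (RF k) p ∈ M := by
    intro p
    induction p using MvPolynomial.induction_on with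
    | C a =>
      have : algebraMap (MvPolynomial (Fin k) ℂ) (RF k) (C a) = algebraMap ℂ (RF k) a := by
        rw [IsScalarTower.algebraMap_apply ℂ (MvPolynomial (Fin k) ℂ) (RF k)]; rfl
      rw [this]
      exact M.algebraMap_mem a
    | add p q hp hq => rw [map_add]; exact M.add_mem hp hq
    | mul_X p i hp => rw [map_mul]; exact M.mul_mem hp (h i)
  obtain ⟨p, q, -, rfl⟩ := IsFractionRing.div_surjective (MvPolynomial (Fin k) ℂ) f
  exact M.div_mem (hp p) (hp q)

/-- the constants and `X` generate `RatFunc L` -/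
lemma ratFunc_top {L : Type} [Field L] [Algebra ℂ L] (M : IntermediateField ℂ (RatFunc L))
    (h : ∀ x, RatFunc.C x ∈ M) (hX : RatFunc.X ∈ M) (f : RatFunc L) : f ∈ M := by
  have hp : ∀ p : Polynomial L, algebraMap _ (RatFunc L) p ∈ M := by
    intro p
    induction p using Polynomial.induction_on with
    | C a => rw [RatFunc.algebraMap_C]; exact h a
    | add p q hp hq => rw [map_add]; exact M.add_mem hp hq
    | monomial n a hn =>
      rw [map_mul, map_pow, RatFunc.algebraMap_C, RatFunc.algebraMap_X]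
      exact M.mul_mem (h a) (pow_mem hX _)
  rw [← RatFunc.num_div_denom f]
  exact M.div_mem (hp _) (hp _)

/-- the equalizer of two homomorphisms of fields -/
def eqField {L E : Type} [Field L] [Algebra ℂ L] [Field E] [Algebra ℂ E] (α β : L →ₐ[ℂ] E) :
    IntermediateField ℂ L where
  carrier := {x | α x = β x}
  mul_mem' ha hb := by
    change α _ = β _
    rw [map_mul, map_mul, ha, hb]
  one_mem' := by
    change α _ = β _
    rw [map_one, map_one]
  add_mem' ha hb := by
    change α _ = β _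
    rw [map_add, map_add, ha, hb]
  zero_mem' := by
    change α _ = β _
    rw [map_zero, map_zero]
  algebraMap_mem' r := by
    change α _ = β _
    rw [AlgHom.commutes, AlgHom.commutes]
  inv_mem' x hx := by
    change α _ = β _
    rw [map_inv₀, map_inv₀, hx]

lemma RF_hom_ext {k : ℕ} {E : Type} [Field E] [Algebra ℂ E] {α β : RF k →ₐ[ℂ] E}
    (h : ∀ i, α (crd i) = β (crd i)) : α = β := by
  apply AlgHom.ext
  intro f
  exact RF_top (eqField α β) h f

lemma ratFunc_hom_ext {L E : Type} [Field L] [Algebra ℂ L] [Field E] [Algebra ℂ E]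
    {α β : RatFunc L →ₐ[ℂ] E}
    (h : ∀ x, α (RatFunc.C x) = β (RatFunc.C x)) (hX : α RatFunc.X = β RatFunc.X) : α = β := by
  apply AlgHom.ext
  intro f
  exact ratFunc_top (eqField α β) h hX f

end Gen

section EvalsTo

variable {k : ℕ} {E : Type} [Field E] [Algebra ℂ E] {η : Fin k → E}

lemma algebraMap_C_RF (a : ℂ) : algebraMap (MvPolynomial (Fin k) ℂ) (RF k) (C a) =
    algebraMap ℂ (RF k) a := by
  rw [IsScalarTower.algebraMap_apply ℂ (MvPolynomial (Fin k) ℂ) (RF k)]; rfl

lemma RF_inj : Function.Injective (algebraMap (MvPolynomial (Fin k) ℂ) (RF k)) :=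
  IsFractionRing.injective _ _

lemma EvalsTo.ne_den {q : MvPolynomial (Fin k) ℂ} (h : aeval η q ≠ 0) :
    algebraMap _ (RF k) q ≠ 0 := by
  intro h0
  rw [map_eq_zero_iff _ RF_inj] at h0
  rw [h0, map_zero] at h
  exact h rfl

lemma EvalsTo.unique {f : RF k} {e e' : E} (h : EvalsTo η f e) (h' : EvalsTo η f e') :
    e = e' := by
  obtain ⟨p, q, hq, hf, rfl⟩ := h
  obtain ⟨p', q', hq', hf', rfl⟩ := h'
  rw [hf, div_eq_div_iff (EvalsTo.ne_den hq) (EvalsTo.ne_den hq'), ← map_mul, ← map_mul] at hf'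
  have := congrArg (aeval η) (RF_inj hf')
  rw [map_mul, map_mul] at this
  rw [div_eq_div_iff hq hq', this]

lemma EvalsTo.poly (η : Fin k → E) (p : MvPolynomial (Fin k) ℂ) :
    EvalsTo η (algebraMap _ (RF k) p) (aeval η p) :=
  ⟨p, 1, by rw [map_one]; exact one_ne_zero, by rw [map_one, div_one], by rw [map_one, div_one]⟩

lemma EvalsTo.crd (η : Fin k → E) (i : Fin k) : EvalsTo η (crd i) (η i) := by
  have := EvalsTo.poly η (X i)
  rwa [aeval_X] at this

lemma EvalsTo.const (η : Fin k → E) (a : ℂ) :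
    EvalsTo η (algebraMap ℂ (RF k) a) (algebraMap ℂ E a) := by
  have := EvalsTo.poly η (C a)
  rwa [algebraMap_C_RF, aeval_C] at this

lemma EvalsTo.one (η : Fin k → E) : EvalsTo η (1 : RF k) 1 := by
  have := EvalsTo.const η 1
  rwa [map_one, map_one] at this

lemma EvalsTo.zero (η : Fin k → E) : EvalsTo η (0 : RF k) 0 := by
  have := EvalsTo.const η 0
  rwa [map_zero, map_zero] at this

lemma EvalsTo.add {f g : RF k} {a b : E} (h : EvalsTo η f a) (h' : EvalsTo η g b) :
    EvalsTo η (f + g) (a + b) := by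
  obtain ⟨p, q, hq, rfl, rfl⟩ := h
  obtain ⟨p', q', hq', rfl, rfl⟩ := h'
  refine ⟨p * q' + q * p', q * q', ?_, ?_, ?_⟩
  · rw [map_mul]; exact mul_ne_zero hq hq'
  · rw [div_add_div _ _ (EvalsTo.ne_den hq) (EvalsTo.ne_den hq')]
    simp only [map_add, map_mul]
  · rw [div_add_div _ _ hq hq']
    simp only [map_add, map_mul]

lemma EvalsTo.mul {f g : RF k} {a b : E} (h : EvalsTo η f a) (h' : EvalsTo η g b) :
    EvalsTo η (f * g) (a * b) := by
  obtain ⟨p, q, hq, rfl, rfl⟩ := h
  obtain ⟨p', q', hq', rfl, rfl⟩ := h'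
  refine ⟨p * p', q * q', ?_, ?_, ?_⟩
  · rw [map_mul]; exact mul_ne_zero hq hq'
  · rw [div_mul_div_comm, map_mul, map_mul]
  · rw [div_mul_div_comm, map_mul, map_mul]

lemma EvalsTo.inv {f : RF k} {a : E} (h : EvalsTo η f a) (ha : a ≠ 0) :
    EvalsTo η f⁻¹ a⁻¹ := by
  obtain ⟨p, q, hq, rfl, rfl⟩ := h
  refine ⟨q, p, ?_, by rw [inv_div], by rw [inv_div]⟩
  intro h0
  rw [h0, zero_div] at ha
  exact ha rfl

lemma EvalsTo.div {f g : RF k} {a b : E} (h : EvalsTo η f a) (h' : EvalsTo η g b)
    (hb : b ≠ 0) : EvalsTo η (f / g) (a / b) := by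
  rw [div_eq_mul_inv, div_eq_mul_inv]
  exact h.mul (h'.inv hb)

lemma EvalsTo.pow {f : RF k} {a : E} (h : EvalsTo η f a) (n : ℕ) :
    EvalsTo η (f ^ n) (a ^ n) := by
  induction n with
  | zero => rw [pow_zero, pow_zero]; exact EvalsTo.one η
  | succ n ih => rw [pow_succ, pow_succ]; exact ih.mul h

/-- composition with a polynomial -/
lemma EvalsTo.aeval {m : ℕ} {f : Fin m → RF k} {a : Fin m → E} (h : ∀ i, EvalsTo η (f i) (a i))
    (p : MvPolynomial (Fin m) ℂ) : EvalsTo η (aeval f p) (aeval a p) := by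
  induction p using MvPolynomial.induction_on with
  | C a => rw [aeval_C, aeval_C]; exact EvalsTo.const η a
  | add p q hp hq => rw [map_add, map_add]; exact hp.add hq
  | mul_X p i hp => rw [map_mul, map_mul, aeval_X, aeval_X]; exact hp.mul (h i)

/-- the elements whose image under `α` evaluates to the image under `β` -/
def evalField {L : Type} [Field L] [Algebra ℂ L] (η : Fin k → E) (α : L →ₐ[ℂ] RF k)
    (β : L →ₐ[ℂ] E) : IntermediateField ℂ L where
  carrier := {x | EvalsTo η (α x) (β x)}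
  mul_mem' ha hb := by
    change EvalsTo η (α _) (β _)
    rw [map_mul, map_mul]
    exact EvalsTo.mul ha hb
  one_mem' := by
    change EvalsTo η (α _) (β _)
    rw [map_one, map_one]
    exact EvalsTo.one η
  add_mem' ha hb := by
    change EvalsTo η (α _) (β _)
    rw [map_add, map_add]
    exact EvalsTo.add ha hb
  zero_mem' := by
    change EvalsTo η (α _) (β _)
    rw [map_zero, map_zero]
    exact EvalsTo.zero η
  algebraMap_mem' r := by
    change EvalsTo η (α _) (β _)
    rw [AlgHom.commutes, AlgHom.commutes]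
    exact EvalsTo.const η r
  inv_mem' x hx := by
    change EvalsTo η (α _) (β _)
    rw [map_inv₀, map_inv₀]
    by_cases h0 : x = 0
    · rw [h0, map_zero, map_zero, inv_zero, inv_zero]
      exact EvalsTo.zero η
    · exact EvalsTo.inv hx (by rwa [Ne, map_eq_zero])

lemma evalsTo_RF {m : ℕ} {α : RF m →ₐ[ℂ] RF k} {β : RF m →ₐ[ℂ] E}
    (h : ∀ i, EvalsTo η (α (MP_956d6c_ag.crd i)) (β (MP_956d6c_ag.crd i))) (f : RF m) :
    EvalsTo η (α f) (β f) :=
  RF_top (evalField η α β) h f

lemma evalsTo_ratFunc {L : Type} [Field L] [Algebra ℂ L] {α : RatFunc L →ₐ[ℂ] RF k}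
    {β : RatFunc L →ₐ[ℂ] E} (h : ∀ x, EvalsTo η (α (RatFunc.C x)) (β (RatFunc.C x)))
    (hX : EvalsTo η (α RatFunc.X) (β RatFunc.X)) (f : RatFunc L) :
    EvalsTo η (α f) (β f) :=
  ratFunc_top (evalField η α β) h hX f

/-- evaluation at the point given by a homomorphism -/
lemma EvalsTo.of_hom {g : RF k →ₐ[ℂ] E} (h : ∀ i, g (MP_956d6c_ag.crd i) = η i) (f : RF k) :
    EvalsTo η f (g f) := by
  have := evalsTo_RF (η := η) (α := AlgHom.id ℂ (RF k)) (β := g) (fun i => by
    rw [h i]; exact EvalsTo.crd η i) f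
  exact this

lemma EvalsTo.eq_of_hom {g : RF k →ₐ[ℂ] E} (h : ∀ i, g (MP_956d6c_ag.crd i) = η i) {f : RF k}
    {e : E} (he : EvalsTo η f e) : g f = e :=
  (EvalsTo.of_hom h f).unique he

/-- the homomorphism given by algebraically independent elements -/
lemma exists_hom_of_inj (η : Fin k → E)
    (h : ∀ p : MvPolynomial (Fin k) ℂ, MvPolynomial.aeval η p = 0 → p = 0) :
    ∃ g : RF k →ₐ[ℂ] E, ∀ i, g (MP_956d6c_ag.crd i) = η i := by
  have hinj : Function.Injective (MvPolynomial.aeval η : MvPolynomial (Fin k) ℂ →ₐ[ℂ] E) :=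
    (injective_iff_map_eq_zero _).2 h
  refine ⟨IsFractionRing.liftAlgHom hinj, ?_⟩
  intro i
  rw [IsFractionRing.liftAlgHom_apply]
  unfold MP_956d6c_ag.crd
  rw [IsFractionRing.lift_algebraMap]
  simp

/-- elements with a left inverse in the sense of substitution are algebraically independent -/
lemma exists_hom_of_inverse {m : ℕ} (η : Fin k → RF m) (ξ : Fin m → RF k)
    (h : ∀ i, EvalsTo ξ (η i) (MP_956d6c_ag.crd i)) :
    ∃ g : RF k →ₐ[ℂ] RF m, ∀ i, g (MP_956d6c_ag.crd i) = η i := by
  apply exists_hom_of_inj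
  intro p hp
  have h1 := EvalsTo.aeval h p
  rw [hp] at h1
  have h2 := (EvalsTo.zero ξ).unique h1
  have h3 : MvPolynomial.aeval (fun i => MP_956d6c_ag.crd i) p = algebraMap _ (RF k) p := by
    have : (MvPolynomial.aeval (fun i => MP_956d6c_ag.crd i) : MvPolynomial (Fin k) ℂ →ₐ[ℂ] RF k)
        = IsScalarTower.toAlgHom ℂ (MvPolynomial (Fin k) ℂ) (RF k) := by
      apply MvPolynomial.algHom_ext
      intro i
      rw [aeval_X]
      rfl
    rw [this]
    rfl
  rw [h3] at h2
  exact (map_eq_zero_iff _ RF_inj).1 h2.symm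

end EvalsTo

section HasValueAt

variable {K : Type} [Field K] {c : K}

lemma HasValueAt.ne_den {B : Polynomial K} (h : B.eval c ≠ 0) :
    algebraMap _ (RatFunc K) B ≠ 0 := by
  apply RatFunc.algebraMap_ne_zero
  rintro rfl
  simp at h

lemma HasValueAt.unique {e : RatFunc K} {a a' : K} (h : HasValueAt e c a)
    (h' : HasValueAt e c a') : a = a' := by
  obtain ⟨A, B, hB, he, rfl⟩ := h
  obtain ⟨A', B', hB', he', rfl⟩ := h'
  rw [he, div_eq_div_iff (HasValueAt.ne_den hB) (HasValueAt.ne_den hB'), ← map_mul,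
    ← map_mul] at he'
  have := congrArg (Polynomial.eval c) (RatFunc.algebraMap_injective K he')
  rw [Polynomial.eval_mul, Polynomial.eval_mul] at this
  rw [div_eq_div_iff hB hB', this]

lemma HasValueAt.poly (c : K) (A : Polynomial K) :
    HasValueAt (algebraMap _ (RatFunc K) A) c (A.eval c) :=
  ⟨A, 1, by simp, by simp, by simp⟩

lemma HasValueAt.C (c a : K) : HasValueAt (RatFunc.C a) c a := by
  have := HasValueAt.poly c (Polynomial.C a)
  rwa [Polynomial.eval_C, RatFunc.algebraMap_C] at this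

lemma HasValueAt.X (c : K) : HasValueAt RatFunc.X c c := by
  have := HasValueAt.poly c Polynomial.X
  rwa [Polynomial.eval_X, RatFunc.algebraMap_X] at this

lemma HasValueAt.one (c : K) : HasValueAt (1 : RatFunc K) c 1 := by
  have := HasValueAt.C c 1
  rwa [map_one] at this

lemma HasValueAt.zero (c : K) : HasValueAt (0 : RatFunc K) c 0 := by
  have := HasValueAt.C c 0
  rwa [map_zero] at this

lemma HasValueAt.add {e f : RatFunc K} {a b : K} (h : HasValueAt e c a)
    (h' : HasValueAt f c b) : HasValueAt (e + f) c (a + b) := by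
  obtain ⟨A, B, hB, rfl, rfl⟩ := h
  obtain ⟨A', B', hB', rfl, rfl⟩ := h'
  refine ⟨A * B' + B * A', B * B', ?_, ?_, ?_⟩
  · rw [Polynomial.eval_mul]; exact mul_ne_zero hB hB'
  · rw [div_add_div _ _ (HasValueAt.ne_den hB) (HasValueAt.ne_den hB')]
    simp only [map_add, map_mul]
  · rw [div_add_div _ _ hB hB']
    simp only [Polynomial.eval_add, Polynomial.eval_mul]

lemma HasValueAt.mul {e f : RatFunc K} {a b : K} (h : HasValueAt e c a)
    (h' : HasValueAt f c b) : HasValueAt (e * f) c (a * b) := by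
  obtain ⟨A, B, hB, rfl, rfl⟩ := h
  obtain ⟨A', B', hB', rfl, rfl⟩ := h'
  refine ⟨A * A', B * B', ?_, ?_, ?_⟩
  · rw [Polynomial.eval_mul]; exact mul_ne_zero hB hB'
  · rw [div_mul_div_comm, map_mul, map_mul]
  · rw [div_mul_div_comm, Polynomial.eval_mul, Polynomial.eval_mul]

lemma HasValueAt.inv {e : RatFunc K} {a : K} (h : HasValueAt e c a) (ha : a ≠ 0) :
    HasValueAt e⁻¹ c a⁻¹ := by
  obtain ⟨A, B, hB, rfl, rfl⟩ := h
  refine ⟨B, A, ?_, by rw [inv_div], by rw [inv_div]⟩
  intro h0
  rw [h0, zero_div] at ha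
  exact ha rfl

lemma HasValueAt.div {e f : RatFunc K} {a b : K} (h : HasValueAt e c a)
    (h' : HasValueAt f c b) (hb : b ≠ 0) : HasValueAt (e / f) c (a / b) := by
  rw [div_eq_mul_inv, div_eq_mul_inv]
  exact h.mul (h'.inv hb)

lemma HasValueAt.pow {e : RatFunc K} {a : K} (h : HasValueAt e c a) (n : ℕ) :
    HasValueAt (e ^ n) c (a ^ n) := by
  induction n with
  | zero => rw [pow_zero, pow_zero]; exact HasValueAt.one c
  | succ n ih => rw [pow_succ, pow_succ]; exact ih.mul h

lemma HasValueAt.neg {e : RatFunc K} {a : K} (h : HasValueAt e c a) :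
    HasValueAt (-e) c (-a) := by
  have := (HasValueAt.C c (-1)).mul h
  rwa [map_neg, map_one, neg_one_mul, neg_one_mul] at this

lemma HasValueAt.sub {e f : RatFunc K} {a b : K} (h : HasValueAt e c a)
    (h' : HasValueAt f c b) : HasValueAt (e - f) c (a - b) := by
  rw [sub_eq_add_neg, sub_eq_add_neg]
  exact h.add h'.neg

variable [Algebra ℂ K]

lemma ratFunc_algebraMap (a : ℂ) :
    algebraMap ℂ (RatFunc K) a = RatFunc.C (algebraMap ℂ K a) := by
  rw [RatFunc.algebraMap_apply]
  simp [RatFunc.algebraMap_C]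

lemma HasValueAt.const (c : K) (a : ℂ) :
    HasValueAt (algebraMap ℂ (RatFunc K) a) c (algebraMap ℂ K a) := by
  rw [ratFunc_algebraMap]
  exact HasValueAt.C c _

lemma HasValueAt.aeval {m : ℕ} {f : Fin m → RatFunc K} {a : Fin m → K}
    (h : ∀ i, HasValueAt (f i) c (a i)) (p : MvPolynomial (Fin m) ℂ) :
    HasValueAt (MvPolynomial.aeval f p) c (MvPolynomial.aeval a p) := by
  induction p using MvPolynomial.induction_on with
  | C a => rw [aeval_C, aeval_C]; exact HasValueAt.const c a
  | add p q hp hq => rw [map_add, map_add]; exact hp.add hq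
  | mul_X p i hp => rw [map_mul, map_mul, aeval_X, aeval_X]; exact hp.mul (h i)

/-- a rational function vanishing at infinitely many points is zero -/
lemma eq_zero_of_values {e : RatFunc K} {S : Set K} (hS : S.Infinite)
    (h : ∀ c ∈ S, HasValueAt e c 0) : e = 0 := by
  by_contra hne
  have hnum : e.num ≠ 0 := RatFunc.num_ne_zero hne
  apply hnum
  apply Polynomial.eq_zero_of_infinite_isRoot
  refine hS.mono ?_
  intro c hc
  obtain ⟨A, B, hB, he, hv⟩ := h c hc
  have hB0 : B ≠ 0 := by rintro rfl; simp at hB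
  have hA : A.eval c = 0 := by
    rcases div_eq_zero_iff.1 hv.symm with h | h
    · exact h
    · exact absurd h hB
  have hcross : e.num * B = A * e.denom := (RatFunc.num_mul_eq_mul_denom_iff hB0).2 he
  have := congrArg (Polynomial.eval c) hcross
  rw [Polynomial.eval_mul, Polynomial.eval_mul, hA, zero_mul] at this
  rcases mul_eq_zero.1 this with h | h
  · exact h
  · exact absurd h hB

/-- the elements on which `T` has value `G` at `c` -/
def valueField {L : Type} [Field L] [Algebra ℂ L] (T : L →ₐ[ℂ] RatFunc K) (c : K)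
    (G : L →ₐ[ℂ] K) : IntermediateField ℂ L where
  carrier := {x | HasValueAt (T x) c (G x)}
  mul_mem' ha hb := by
    change HasValueAt (T _) c (G _)
    rw [map_mul, map_mul]
    exact HasValueAt.mul ha hb
  one_mem' := by
    change HasValueAt (T _) c (G _)
    rw [map_one, map_one]
    exact HasValueAt.one c
  add_mem' ha hb := by
    change HasValueAt (T _) c (G _)
    rw [map_add, map_add]
    exact HasValueAt.add ha hb
  zero_mem' := by
    change HasValueAt (T _) c (G _)
    rw [map_zero, map_zero]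
    exact HasValueAt.zero c
  algebraMap_mem' r := by
    change HasValueAt (T _) c (G _)
    rw [AlgHom.commutes, AlgHom.commutes]
    exact HasValueAt.const c r
  inv_mem' x hx := by
    change HasValueAt (T _) c (G _)
    rw [map_inv₀, map_inv₀]
    by_cases h0 : x = 0
    · rw [h0, map_zero, map_zero, inv_zero, inv_zero]
      exact HasValueAt.zero c
    · exact HasValueAt.inv hx (by rwa [Ne, map_eq_zero])

lemma hasValueAt_RF {m : ℕ} {T : RF m →ₐ[ℂ] RatFunc K} {G : RF m →ₐ[ℂ] K}
    (h : ∀ i, HasValueAt (T (crd i)) c (G (crd i))) (f : RF m) :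
    HasValueAt (T f) c (G f) :=
  RF_top (valueField T c G) h f

lemma hasValueAt_ratFunc {L : Type} [Field L] [Algebra ℂ L] {T : RatFunc L →ₐ[ℂ] RatFunc K}
    {G : RatFunc L →ₐ[ℂ] K} (h : ∀ x, HasValueAt (T (RatFunc.C x)) c (G (RatFunc.C x)))
    (hX : HasValueAt (T RatFunc.X) c (G RatFunc.X)) (f : RatFunc L) :
    HasValueAt (T f) c (G f) :=
  ratFunc_top (valueField T c G) h hX f

/-- elements of `K(z)` which specialise to algebraically independent elements are algebraically
independent -/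
lemma exists_hom_of_value {m : ℕ} {η : Fin m → RatFunc K} {G : RF m →ₐ[ℂ] K}
    (h : ∀ i, HasValueAt (η i) c (G (crd i))) :
    ∃ T : RF m →ₐ[ℂ] RatFunc K, ∀ i, T (crd i) = η i := by
  apply exists_hom_of_inj
  intro p hp
  have h1 := HasValueAt.aeval h p
  rw [hp] at h1
  have h2 := (HasValueAt.zero c).unique h1
  have h3 : MvPolynomial.aeval (fun i => G (crd i)) p = G (algebraMap _ (RF m) p) := by
    have : (MvPolynomial.aeval (fun i => G (crd i)) : MvPolynomial (Fin m) ℂ →ₐ[ℂ] K)
        = G.comp (IsScalarTower.toAlgHom ℂ (MvPolynomial (Fin m) ℂ) (RF m)) := by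
      apply MvPolynomial.algHom_ext
      intro i
      rw [aeval_X]
      rfl
    rw [this]
    rfl
  rw [h3] at h2
  have h4 := (map_eq_zero G).1 h2.symm
  exact (map_eq_zero_iff _ RF_inj).1 h4

end HasValueAt

end Pool.Agent.Lib.MP_956d6c_ag
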