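import Mathlib
import Pool.Agent.Lib.MP_956d6c_ag.Eval
import Pool.Agent.Lib.MP_956d6c_ag.Abstract

/-!
# Scalings, and the group action attached to a projective flow
-/

set_option autoImplicit false
set_option linter.unusedSectionVars false

open MvPolynomial

namespace Pool.Agent.Lib.MP_956d6c_ag

section Scale

lemma exists_scaleZ (k : ℕ) : ∃ T : RF k →ₐ[ℂ] RatFunc (RF k), ∀ i, T (crd i) = xz k i := by
  apply exists_hom_of_value (c := 1) (G := AlgHom.id ℂ (RF k))
  intro i
  have := (HasValueAt.C (1 : RF k) (crd i)).mul (HasValueAt.X (1 : RF k))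
  rw [mul_one] at this
  exact this

/-- `f(x) ↦ f(x z)` -/
noncomputable def scaleZ (k : ℕ) : RF k →ₐ[ℂ] RatFunc (RF k) := (exists_scaleZ k).choose

lemma scaleZ_crd {k : ℕ} (i : Fin k) : scaleZ k (crd i) = xz k i := (exists_scaleZ k).choose_spec i

lemma exists_scaleC (k : ℕ) (t : ℂˣ) :
    ∃ T : RF k →ₐ[ℂ] RF k, ∀ i, T (crd i) = algebraMap ℂ (RF k) t * crd i := by
  apply exists_hom_of_inverse _ (fun i => algebraMap ℂ (RF k) (t⁻¹ : ℂˣ) * crd i)
  intro i
  have h1 := (EvalsTo.const (fun i => algebraMap ℂ (RF k) (t⁻¹ : ℂˣ) * crd i) (t : ℂ)).mul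
    (EvalsTo.crd (fun i => algebraMap ℂ (RF k) (t⁻¹ : ℂˣ) * crd i) i)
  rwa [← mul_assoc, ← map_mul, ← Units.val_mul, mul_inv_cancel, Units.val_one, map_one,
    one_mul] at h1

/-- `f(x) ↦ f(t x)` -/
noncomputable def scaleC {k : ℕ} (t : ℂˣ) : RF k →ₐ[ℂ] RF k := (exists_scaleC k t).choose

lemma scaleC_crd {k : ℕ} (t : ℂˣ) (i : Fin k) :
    scaleC t (crd i) = algebraMap ℂ (RF k) t * crd i := (exists_scaleC k t).choose_spec i

lemma scaleC_one {k : ℕ} : (scaleC 1 : RF k →ₐ[ℂ] RF k) = AlgHom.id ℂ (RF k) := by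
  apply RF_hom_ext
  intro i
  rw [scaleC_crd, Units.val_one, map_one, one_mul]; rfl

lemma scaleC_mul {k : ℕ} (a b : ℂˣ) :
    (scaleC (a * b) : RF k →ₐ[ℂ] RF k) = (scaleC a).comp (scaleC b) := by
  apply RF_hom_ext
  intro i
  rw [AlgHom.comp_apply, scaleC_crd, scaleC_crd, map_mul, AlgHom.commutes, scaleC_crd,
    Units.val_mul, map_mul]
  ring

lemma scaleC_mul_apply {k : ℕ} (a b : ℂˣ) (f : RF k) :
    scaleC (a * b) f = scaleC a (scaleC b f) := by
  rw [scaleC_mul]; rfl

lemma value_scaleZ {k : ℕ} (t : ℂˣ) (f : RF k) :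
    HasValueAt (scaleZ k f) (algebraMap ℂ (RF k) t) (scaleC t f) := by
  apply hasValueAt_RF
  intro i
  rw [scaleZ_crd, scaleC_crd, mul_comm]
  exact (HasValueAt.C _ _).mul (HasValueAt.X _)

lemma eq_of_unit_values {K : Type} [Field K] [Algebra ℂ K] {e f : RatFunc K} {a : ℂˣ → K}
    (he : ∀ t : ℂˣ, HasValueAt e (algebraMap ℂ K t) (a t))
    (hf : ∀ t : ℂˣ, HasValueAt f (algebraMap ℂ K t) (a t)) : e = f := by
  rw [← sub_eq_zero]
  apply eq_zero_of_values (units_infinite (K := K))
  rintro _ ⟨t, rfl⟩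
  have := (he t).sub (hf t)
  rwa [sub_self] at this

lemma scaleZ_of_deg0 {k : ℕ} {f : RF k} (h : ∀ t, scaleC t f = f) :
    scaleZ k f = RatFunc.C f := by
  apply eq_of_unit_values (a := fun _ => f)
  · intro t
    have := value_scaleZ t f
    rwa [h t] at this
  · intro t
    exact HasValueAt.C _ _

lemma isOneHomogeneous_iff {k : ℕ} {f : RF k} :
    IsOneHomogeneous f ↔ ∀ t : ℂˣ, scaleC t f = algebraMap ℂ (RF k) t * f := by
  constructor
  · intro h t
    have h1 : scaleZ k f = RatFunc.X * RatFunc.C f := EvalsTo.eq_of_hom scaleZ_crd h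
    have h2 := value_scaleZ t f
    rw [h1] at h2
    exact h2.unique ((HasValueAt.X _).mul (HasValueAt.C _ _))
  · intro h
    have h1 : scaleZ k f = RatFunc.X * RatFunc.C f := by
      apply eq_of_unit_values (a := fun t => algebraMap ℂ (RF k) t * f)
      · intro t
        rw [← h t]
        exact value_scaleZ t f
      · intro t
        exact (HasValueAt.X _).mul (HasValueAt.C _ _)
    have h2 := EvalsTo.of_hom (η := xz k) scaleZ_crd f
    rw [h1] at h2
    exact h2

/-- specialisation of an evaluation -/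
lemma EvalsTo.value {k : ℕ} {K : Type} [Field K] [Algebra ℂ K] {η : Fin k → RatFunc K}
    {f : RF k} {e : RatFunc K} (he : EvalsTo η f e) {c : K} {G : RF k →ₐ[ℂ] K}
    (h : ∀ i, HasValueAt (η i) c (G (MP_956d6c_ag.crd i))) : HasValueAt e c (G f) := by
  obtain ⟨T, hT⟩ := exists_hom_of_value h
  rw [← EvalsTo.eq_of_hom hT he]
  apply hasValueAt_RF
  intro i
  rw [hT i]
  exact h i

end Scale

section Transc

variable {K : Type} [Field K] [Algebra ℂ K]

lemma value_eval₂ {T : K →+* RatFunc K} (hT : ∀ f, HasValueAt (T f) 0 f) (P : Polynomial K) :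
    HasValueAt (P.eval₂ T RatFunc.X) 0 (P.coeff 0) := by
  induction P using Polynomial.induction_on with
  | C a => rw [Polynomial.eval₂_C, Polynomial.coeff_C_zero]; exact hT a
  | add p q hp hq =>
    rw [Polynomial.eval₂_add, Polynomial.coeff_add]
    exact hp.add hq
  | monomial n a hn =>
    rw [Polynomial.eval₂_mul, Polynomial.eval₂_C, Polynomial.eval₂_pow, Polynomial.eval₂_X,
      Polynomial.coeff_C_mul, Polynomial.coeff_X_pow, if_neg (by omega), mul_zero]
    have := (hT a).mul ((HasValueAt.X (0 : K)).pow (n + 1))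
    rwa [zero_pow (by omega), mul_zero] at this

lemma eq_zero_of_eval₂ {T : K →+* RatFunc K} (hT : ∀ f, HasValueAt (T f) 0 f) (n : ℕ) :
    ∀ P : Polynomial K, P.natDegree ≤ n → P.eval₂ T RatFunc.X = 0 → P = 0 := by
  induction n with
  | zero =>
    intro P hP h
    rw [Polynomial.eq_C_of_natDegree_le_zero hP, Polynomial.eval₂_C, map_eq_zero] at h
    rw [Polynomial.eq_C_of_natDegree_le_zero hP, h, Polynomial.C_0]
  | succ n ih =>
    intro P hP h
    have h0 : P.coeff 0 = 0 := by
      have := value_eval₂ hT P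
      rw [h] at this
      exact ((HasValueAt.zero (0 : K)).unique this).symm
    have h1 := Polynomial.divX_mul_X_add P
    rw [h0, Polynomial.C_0, add_zero] at h1
    have h2 : P.divX = 0 := by
      apply ih
      · rw [Polynomial.natDegree_divX_eq_natDegree_tsub_one]; omega
      · rw [← h1, Polynomial.eval₂_mul, Polynomial.eval₂_X] at h
        exact (mul_eq_zero.1 h).resolve_right RatFunc.X_ne_zero
    rw [← h1, h2, zero_mul]

end Transc

section FlowToData

variable {k : ℕ} {φ : Fin k → RF k}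

/-- the homomorphism `f ↦ f(t⁻¹ φ(t x))`, given the homomorphism `f ↦ f(φ)` -/
noncomputable def GG (Φ : RF k →ₐ[ℂ] RF k) (t : ℂˣ) : RF k →ₐ[ℂ] RF k :=
  (scaleC t).comp (Φ.comp (scaleC t⁻¹))

lemma GG_one (Φ : RF k →ₐ[ℂ] RF k) : GG Φ 1 = Φ := by
  unfold GG
  rw [inv_one, scaleC_one, AlgHom.comp_id, AlgHom.id_comp]

lemma GG_conj (Φ : RF k →ₐ[ℂ] RF k) (r t : ℂˣ) (f : RF k) :
    scaleC r (GG Φ t f) = GG Φ (r * t) (scaleC r f) := by
  unfold GG
  simp only [AlgHom.comp_apply]
  rw [scaleC_mul_apply, ← scaleC_mul_apply _ r f]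
  congr 4
  rw [mul_inv]
  congr 1
  rw [mul_comm r⁻¹, mul_assoc, inv_mul_cancel, mul_one]

/-- the homomorphism attached to a flow -/
lemma exists_pullback (h : IsProjectiveFlow φ) :
    ∃ Φ : RF k →ₐ[ℂ] RF k, ∃ T : RF k →ₐ[ℂ] RatFunc (RF k), (∀ i, Φ (crd i) = φ i) ∧
      (∀ f, HasValueAt (T f) 0 f) ∧
      (∀ (t : ℂˣ) f, HasValueAt (T f) (algebraMap ℂ (RF k) t) (GG Φ t f)) ∧
      ∀ t s : ℂˣ, (t : ℂ) + s = 1 → ∀ f, GG Φ t (GG Φ s f) = Φ f := by
  obtain ⟨u, hu, he, h0⟩ := h
  have hu' : ∀ i, u i = scaleZ k (φ i) := fun i =>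
    (hu i).unique (EvalsTo.of_hom (η := xz k) scaleZ_crd (φ i))
  obtain ⟨T, hT⟩ := exists_hom_of_value (G := AlgHom.id ℂ (RF k)) h0
  have hT0 : ∀ f, HasValueAt (T f) 0 f := by
    intro f
    have := hasValueAt_RF (T := T) (G := AlgHom.id ℂ (RF k)) (c := 0)
      (fun i => by rw [hT i]; exact h0 i) f
    exact this
  obtain ⟨Φ, hΦ⟩ : ∃ Φ : RF k →ₐ[ℂ] RF k, ∀ i, Φ (crd i) = φ i := by
    apply exists_hom_of_inj
    intro p hp
    -- `p(u) = 0`
    have h1 : MvPolynomial.aeval u p = 0 := by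
      have := EvalsTo.aeval hu p
      rw [hp] at this
      exact ((EvalsTo.zero _).unique this).symm
    -- the polynomial `p(x z)`
    set P : Polynomial (RF k) := MvPolynomial.aeval (fun i => Polynomial.C (crd i) * Polynomial.X) p
      with hP
    have h2 : P.eval₂ (T : RF k →+* RatFunc (RF k)) RatFunc.X = 0 := by
      have : P.eval₂ (T : RF k →+* RatFunc (RF k)) RatFunc.X = MvPolynomial.aeval u p := by
        rw [hP]
        have e : ∀ q : MvPolynomial (Fin k) ℂ,
            (MvPolynomial.aeval (fun i => Polynomial.C (crd i) * Polynomial.X) q :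
              Polynomial (RF k)).eval₂ (T : RF k →+* RatFunc (RF k)) RatFunc.X
              = MvPolynomial.aeval u q := by
          intro q
          induction q using MvPolynomial.induction_on with
          | C a =>
            rw [aeval_C, aeval_C]
            have : algebraMap ℂ (Polynomial (RF k)) a = Polynomial.C (algebraMap ℂ (RF k) a) := rfl
            rw [this, Polynomial.eval₂_C]
            exact AlgHom.commutes T a
          | add p q hp hq => rw [map_add, map_add, Polynomial.eval₂_add, hp, hq]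
          | mul_X p i hp =>
            rw [map_mul, map_mul, Polynomial.eval₂_mul, hp, aeval_X, aeval_X,
              Polynomial.eval₂_mul, Polynomial.eval₂_C, Polynomial.eval₂_X]
            congr 1
            change T (crd i) * RatFunc.X = u i
            rw [hT i, div_mul_cancel₀ _ RatFunc.X_ne_zero]
        exact e p
      rw [this, h1]
    have h3 : P = 0 := eq_zero_of_eval₂ (T := (T : RF k →+* RatFunc (RF k))) hT0 _ P le_rfl h2
    have h4 : P.eval 1 = algebraMap _ (RF k) p := by
      have e : ∀ q : MvPolynomial (Fin k) ℂ,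
          (MvPolynomial.aeval (fun i => Polynomial.C (crd i) * Polynomial.X) q :
            Polynomial (RF k)).eval 1 = algebraMap _ (RF k) q := by
        intro q
        induction q using MvPolynomial.induction_on with
        | C a =>
          rw [aeval_C, algebraMap_C_RF]
          have : algebraMap ℂ (Polynomial (RF k)) a = Polynomial.C (algebraMap ℂ (RF k) a) := rfl
          rw [this, Polynomial.eval_C]
        | add p q hp hq => rw [map_add, map_add, Polynomial.eval_add, hp, hq]
        | mul_X p i hp =>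
          rw [map_mul, map_mul, Polynomial.eval_mul, hp, aeval_X, Polynomial.eval_mul,
            Polynomial.eval_C, Polynomial.eval_X, mul_one]
          rfl
      exact e p
    rw [h3, Polynomial.eval_zero] at h4
    exact (map_eq_zero_iff _ RF_inj).1 h4.symm
  have hGG : ∀ (t : ℂˣ) (i : Fin k), GG Φ t (crd i) =
      algebraMap ℂ (RF k) (t⁻¹ : ℂˣ) * scaleC t (φ i) := by
    intro t i
    unfold GG
    rw [AlgHom.comp_apply, AlgHom.comp_apply, scaleC_crd, map_mul, map_mul, AlgHom.commutes,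
      AlgHom.commutes, hΦ i]
  have hval : ∀ (t : ℂˣ) (i : Fin k), HasValueAt (u i) (algebraMap ℂ (RF k) t) (scaleC t (φ i)) := by
    intro t i
    rw [hu' i]
    exact value_scaleZ t (φ i)
  have hTt : ∀ (t : ℂˣ) f, HasValueAt (T f) (algebraMap ℂ (RF k) t) (GG Φ t f) := by
    intro t
    apply hasValueAt_RF
    intro i
    rw [hT i, hGG]
    have ht : algebraMap ℂ (RF k) t ≠ 0 := FlowData.algebraMap_unit_ne_zero t
    have := (hval t i).div (HasValueAt.X _) ht
    rwa [div_eq_inv_mul (scaleC t (φ i)), ← map_inv₀, ← Units.val_inv_eq_inv_val] at this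
  refine ⟨Φ, T, hΦ, hT0, hTt, ?_⟩
  intro t s hts f
  have ht : algebraMap ℂ (RF k) t ≠ 0 := FlowData.algebraMap_unit_ne_zero t
  have hs : algebraMap ℂ (RF k) s ≠ 0 := FlowData.algebraMap_unit_ne_zero s
  have hs1 : (1 : RF k) - algebraMap ℂ (RF k) t = algebraMap ℂ (RF k) s := by
    rw [← map_one (algebraMap ℂ (RF k)), ← hts, map_add]; ring
  have key : ∀ i, GG Φ t (scaleC s (φ i)) = algebraMap ℂ (RF k) s * φ i := by
    intro i
    have h1 := (he i).value (c := algebraMap ℂ (RF k) t) (G := (GG Φ t).comp (scaleC s)) (by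
      intro j
      have h2 := (hval t j).mul ((((HasValueAt.one (algebraMap ℂ (RF k) t)).sub
        (HasValueAt.X (algebraMap ℂ (RF k) t)))).div (HasValueAt.X (algebraMap ℂ (RF k) t)) ht)
      have h3 : (GG Φ t).comp (scaleC s) (crd j) = scaleC t (φ j) *
          ((1 - algebraMap ℂ (RF k) t) / algebraMap ℂ (RF k) t) := by
        rw [AlgHom.comp_apply, scaleC_crd, map_mul, AlgHom.commutes, hGG, hs1,
          Units.val_inv_eq_inv_val, map_inv₀]
        field_simp
      rw [h3]
      exact h2)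
    have h2 := ((HasValueAt.one (algebraMap ℂ (RF k) t)).sub
        (HasValueAt.X (algebraMap ℂ (RF k) t))).mul (HasValueAt.C (algebraMap ℂ (RF k) t) (φ i))
    have h3 := h1.unique h2
    rw [hs1] at h3
    exact h3
  have : (GG Φ t).comp (GG Φ s) = Φ := by
    apply RF_hom_ext
    intro i
    rw [AlgHom.comp_apply, hGG s i, map_mul, AlgHom.commutes, key, hΦ i, ← mul_assoc, ← map_mul,
      ← Units.val_mul, inv_mul_cancel, Units.val_one, map_one, one_mul]
  exact DFunLike.congr_fun this f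

/-- numerator and denominator of a rational function with prescribed values -/
lemma num_den_of_value {K ι : Type} [Field K] {e : RatFunc K} {val g : ι → K}
    (h : ∀ c, HasValueAt e (val c) (g c)) (c : ι) :
    e.denom.eval (val c) ≠ 0 ∧ g c * e.denom.eval (val c) = e.num.eval (val c) := by
  obtain ⟨A, B, hB, he, hv⟩ := h c
  have hB0 : B ≠ 0 := by rintro rfl; simp at hB
  have hden : e.denom ∣ B := by rw [he]; exact RatFunc.denom_div_dvd A B
  have hQ : e.denom.eval (val c) ≠ 0 := by
    obtain ⟨E, hE⟩ := hden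
    intro h0
    apply hB
    rw [hE, Polynomial.eval_mul, h0, zero_mul]
  refine ⟨hQ, ?_⟩
  have hcross : e.num * B = A * e.denom := (RatFunc.num_mul_eq_mul_denom_iff hB0).2 he
  have := congrArg (Polynomial.eval (val c)) hcross
  rw [Polynomial.eval_mul, Polynomial.eval_mul] at this
  rw [hv]
  field_simp
  linear_combination -this

open Classical in
/-- the additive one-parameter group -/
noncomputable def FF (Φ : RF k →ₐ[ℂ] RF k) (c : ℂ) : RF k →ₐ[ℂ] RF k :=
  if h : c = 0 then AlgHom.id ℂ (RF k) else GG Φ (Units.mk0 c h)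

lemma FF_zero (Φ : RF k →ₐ[ℂ] RF k) : FF Φ 0 = AlgHom.id ℂ (RF k) := by
  unfold FF
  rw [dif_pos rfl]

lemma FF_unit (Φ : RF k →ₐ[ℂ] RF k) (t : ℂˣ) : FF Φ t = GG Φ t := by
  unfold FF
  rw [dif_neg t.ne_zero]
  congr 1
  ext
  rfl

/-- the group action attached to a flow -/
theorem exists_flowData (h : IsProjectiveFlow φ) :
    ∃ Θ : FlowData (RF k), (∀ t, Θ.D t = scaleC t) ∧ (∀ i, Θ.F 1 (crd i) = φ i) ∧
      Θ.F = FF (Θ.F 1) := by
  obtain ⟨Φ, T, hΦ, hT0, hTt, hadd⟩ := exists_pullback h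
  have hval : ∀ (f : RF k) (c : ℂ), HasValueAt (T f) (algebraMap ℂ (RF k) c) (FF Φ c f) := by
    intro f c
    by_cases hc : c = 0
    · rw [hc, FF_zero, map_zero]; exact hT0 f
    · have := hTt (Units.mk0 c hc) f
      rw [← FF_unit] at this
      exact this
  have hcomm : ∀ (t : ℂˣ) (c : ℂ), (scaleC t).comp (FF Φ c) = (FF Φ (t * c)).comp (scaleC t) := by
    intro t c
    apply AlgHom.ext
    intro f
    by_cases hc : c = 0
    · rw [hc, mul_zero, FF_zero]; rfl
    · have e1 : FF Φ c = GG Φ (Units.mk0 c hc) := FF_unit Φ (Units.mk0 c hc)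
      have e2 : FF Φ (t * c) = GG Φ (t * Units.mk0 c hc) := FF_unit Φ (t * Units.mk0 c hc)
      rw [e1, e2]
      exact GG_conj Φ t _ f
  have hone : FF Φ 1 = Φ := by
    have := FF_unit Φ 1
    rw [Units.val_one] at this
    rw [this, GG_one]
  -- the group law away from zero
  have hadd1 : ∀ a b : ℂˣ, (a : ℂ) + b ≠ 0 → ∀ f, FF Φ (a + b) f = FF Φ a (FF Φ b f) := by
    intro a b hab f
    set r : ℂˣ := Units.mk0 ((a : ℂ) + b) hab with hr
    have hr' : (r : ℂ) = a + b := rfl
    have e1 : FF Φ (a + b) = GG Φ r := FF_unit Φ r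
    have e2 := hadd (a * r⁻¹) (b * r⁻¹) (by
      rw [Units.val_mul, Units.val_mul, ← add_mul, ← hr', ← Units.val_mul, mul_inv_cancel,
        Units.val_one]) (scaleC r⁻¹ f)
    have e3 := congrArg (scaleC r) e2
    rw [GG_conj, GG_conj, ← scaleC_mul_apply, mul_inv_cancel, scaleC_one, mul_comm a, mul_comm b,
      mul_inv_cancel_left, mul_inv_cancel_left] at e3
    rw [e1, FF_unit, FF_unit]
    change _ = GG Φ a (GG Φ b ((AlgHom.id ℂ (RF k)) f))
    rw [e3]
    rfl
  -- the group law in general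
  have hadd2 : ∀ (a : ℂˣ) (f : RF k), f = FF Φ a (FF Φ (-a) f) := by
    intro a f
    set P := (T f).num with hP
    set Q := (T f).denom with hQ
    have hPQ : ∀ c : ℂ, Q.eval (algebraMap ℂ (RF k) c) ≠ 0 ∧
        FF Φ c f * Q.eval (algebraMap ℂ (RF k) c) = P.eval (algebraMap ℂ (RF k) c) :=
      num_den_of_value (hval f)
    have hid : Polynomial.map (FF Φ a : RF k →+* RF k) P *
        Q.comp (Polynomial.X + Polynomial.C (algebraMap ℂ (RF k) a)) =
        P.comp (Polynomial.X + Polynomial.C (algebraMap ℂ (RF k) a)) *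
          Polynomial.map (FF Φ a : RF k →+* RF k) Q := by
      apply Polynomial.eq_of_infinite_eval_eq
      have hinf : (algebraMap ℂ (RF k) '' ({0, -(a : ℂ)}ᶜ)).Infinite := by
        apply Set.Infinite.image
        · exact (algebraMap ℂ (RF k)).injective.injOn
        · exact (Set.toFinite _).infinite_compl
      refine hinf.mono ?_
      rintro _ ⟨b, hb, rfl⟩
      simp only [Set.mem_compl_iff, Set.mem_insert_iff, Set.mem_singleton_iff, not_or] at hb
      obtain ⟨hb0, hb1⟩ := hb
      have hab : (a : ℂ) + (Units.mk0 b hb0 : ℂˣ) ≠ 0 := by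
        rw [Units.val_mk0]
        intro h0
        exact hb1 (by linear_combination h0)
      have e1 := hadd1 a (Units.mk0 b hb0) hab f
      rw [Units.val_mk0] at e1
      have e2 : (Polynomial.X + Polynomial.C (algebraMap ℂ (RF k) a)).eval
          (algebraMap ℂ (RF k) b) = algebraMap ℂ (RF k) (a + b) := by
        rw [Polynomial.eval_add, Polynomial.eval_X, Polynomial.eval_C, map_add, add_comm]
      change Polynomial.eval _ _ = Polynomial.eval _ _
      rw [Polynomial.eval_mul, Polynomial.eval_mul, FlowData.eval_map_alg, FlowData.eval_map_alg,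
        Polynomial.eval_comp, Polynomial.eval_comp, e2, ← (hPQ b).2, ← (hPQ (a + b)).2, map_mul,
        e1]
      ring
    have h1 := congrArg (Polynomial.eval (algebraMap ℂ (RF k) (-(a : ℂ)))) hid
    have e2 : (Polynomial.X + Polynomial.C (algebraMap ℂ (RF k) a)).eval
        (algebraMap ℂ (RF k) (-(a : ℂ))) = algebraMap ℂ (RF k) 0 := by
      rw [Polynomial.eval_add, Polynomial.eval_X, Polynomial.eval_C, ← map_add, neg_add_cancel]
    rw [Polynomial.eval_mul, Polynomial.eval_mul, FlowData.eval_map_alg, FlowData.eval_map_alg,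
      Polynomial.eval_comp, Polynomial.eval_comp, e2, ← (hPQ (-(a : ℂ))).2, ← (hPQ 0).2, map_mul,
      FF_zero] at h1
    have n1 := (hPQ 0).1
    have n2 : FF Φ a (Q.eval (algebraMap ℂ (RF k) (-(a : ℂ)))) ≠ 0 := by
      rw [Ne, map_eq_zero]
      exact (hPQ _).1
    have h2 : (FF Φ a (FF Φ (-(a : ℂ)) f) - f) *
        (FF Φ a (Q.eval (algebraMap ℂ (RF k) (-(a : ℂ)))) * Q.eval (algebraMap ℂ (RF k) 0)) = 0 := by
      have h1' : FF Φ a (FF Φ (-(a : ℂ)) f) * FF Φ a (Q.eval (algebraMap ℂ (RF k) (-(a : ℂ)))) *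
        Q.eval (algebraMap ℂ (RF k) 0) = f * Q.eval (algebraMap ℂ (RF k) 0) *
          FF Φ a (Q.eval (algebraMap ℂ (RF k) (-(a : ℂ)))) := h1
      linear_combination h1'
    rcases mul_eq_zero.1 h2 with h3 | h3
    · exact (sub_eq_zero.1 h3).symm
    · exact absurd h3 (mul_ne_zero n2 n1)
  refine ⟨
    { F := FF Φ
      D := scaleC
      F_zero := FF_zero Φ
      F_add := ?_
      D_one := scaleC_one
      D_mul := scaleC_mul
      comm := hcomm
      ratF := fun f => ⟨(T f).num, (T f).denom, num_den_of_value (hval f)⟩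
      ratD := fun f => ⟨(scaleZ k f).num, (scaleZ k f).denom,
        num_den_of_value (fun t => value_scaleZ t f)⟩ }, fun t => rfl, ?_, ?_⟩
  · intro a b
    apply AlgHom.ext
    intro f
    rw [AlgHom.comp_apply]
    by_cases ha : a = 0
    · rw [ha, zero_add, FF_zero]; rfl
    by_cases hb : b = 0
    · rw [hb, add_zero, FF_zero]; rfl
    by_cases hab : a + b = 0
    · have hb' : b = -a := by linear_combination hab
      rw [hb', add_neg_cancel, FF_zero]
      exact hadd2 (Units.mk0 a ha) f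
    · exact hadd1 (Units.mk0 a ha) (Units.mk0 b hb) hab f
  · intro i
    change FF Φ 1 (crd i) = φ i
    rw [hone, hΦ i]
  · change FF Φ = FF (FF Φ 1)
    rw [hone]

end FlowToData

end Pool.Agent.Lib.MP_956d6c_ag
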