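import Mathlib
import Pool.Agent.Lib.MP_956d6c_ag.Scale

/-!
# The degree zero subfield of `ℂ(x_0, …, x_n)` and 1-homogenic automorphisms
-/

set_option autoImplicit false
set_option linter.unusedSectionVars false

namespace Pool.Agent.Lib.MP_956d6c_ag

section General

/-- fields with the same image are isomorphic -/
lemma exists_equiv_of_range {A B K : Type} [Field A] [Field B] [Field K] [Algebra ℂ A]
    [Algebra ℂ B] [Algebra ℂ K] (α : A →ₐ[ℂ] K) (β : B →ₐ[ℂ] K)
    (h1 : ∀ a, ∃ b, β b = α a) (h2 : ∀ b, ∃ a, α a = β b) :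
    ∃ e : A ≃ₐ[ℂ] B, ∀ a, β (e a) = α a := by
  choose f hf using h1
  have hβ : Function.Injective β := β.injective
  have hα : Function.Injective α := α.injective
  let g : A →ₐ[ℂ] B :=
    { toFun := f
      map_one' := hβ (by rw [hf, map_one, map_one])
      map_mul' := fun x y => hβ (by rw [hf, map_mul, map_mul, hf, hf])
      map_zero' := hβ (by rw [hf, map_zero, map_zero])
      map_add' := fun x y => hβ (by rw [hf, map_add, map_add, hf, hf])
      commutes' := fun r => hβ (by rw [hf, AlgHom.commutes, AlgHom.commutes]) }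
  have hg : Function.Bijective g := by
    refine ⟨g.injective, ?_⟩
    intro b
    obtain ⟨a, ha⟩ := h2 b
    exact ⟨a, hβ (by rw [← ha]; exact hf a)⟩
  exact ⟨AlgEquiv.ofBijective g hg, fun a => hf a⟩

/-- homomorphisms from `F(X)` -/
lemma exists_ratFunc_hom {F E : Type} [Field F] [Algebra ℂ F] [Field E] [Algebra ℂ E]
    (α : F →ₐ[ℂ] E) (e : E) (h : ∀ p : Polynomial F, p.eval₂ (α : F →+* E) e = 0 → p = 0) :
    ∃ β : RatFunc F →ₐ[ℂ] E, (∀ a, β (RatFunc.C a) = α a) ∧ β RatFunc.X = e := by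
  let g : Polynomial F →ₐ[ℂ] E :=
    { Polynomial.eval₂RingHom (α : F →+* E) e with
      commutes' := fun r => by
        have : algebraMap ℂ (Polynomial F) r = Polynomial.C (algebraMap ℂ F r) := rfl
        rw [this]
        change Polynomial.eval₂ (α : F →+* E) e (Polynomial.C (algebraMap ℂ F r)) = _
        rw [Polynomial.eval₂_C]
        exact AlgHom.commutes α r }
  have hg : Function.Injective g := by
    rw [injective_iff_map_eq_zero]
    exact h
  have hlift : ∀ p, (IsFractionRing.liftAlgHom hg : RatFunc F →ₐ[ℂ] E)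
      (algebraMap (Polynomial F) (RatFunc F) p) = p.eval₂ (α : F →+* E) e := by
    intro p
    rw [IsFractionRing.liftAlgHom_apply, IsFractionRing.lift_algebraMap]
    rfl
  refine ⟨IsFractionRing.liftAlgHom hg, ?_, ?_⟩
  · intro a
    rw [← RatFunc.algebraMap_C, hlift, Polynomial.eval₂_C]; rfl
  · rw [← RatFunc.algebraMap_X, hlift, Polynomial.eval₂_X]

/-- `RatFunc.C` as an algebra homomorphism -/
noncomputable def CC (K : Type) [Field K] [Algebra ℂ K] : K →ₐ[ℂ] RatFunc K :=
  { (RatFunc.C : K →+* RatFunc K) with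
    commutes' := fun r => (ratFunc_algebraMap r).symm }

lemma CC_apply {K : Type} [Field K] [Algebra ℂ K] (a : K) : CC K a = RatFunc.C a := rfl

end General

namespace FlowData

open Polynomial

variable {K : Type} [Field K] [Algebra ℂ K] (Φ : FlowData K)

/-- elements of degree zero of `M(s)` lie in `M` -/
lemma mem_of_deg0 {s : K} (hs0 : s ≠ 0) (hsd : Φ.IsHomog (-1) s) (M : IntermediateField ℂ K)
    (hMdeg : M ≤ Φ.deg0) (hall : ∀ f : K, f ∈ IntermediateField.adjoin M {s}) {f : K}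
    (hf : f ∈ Φ.deg0) : f ∈ M := by
  obtain ⟨a', b', hab⟩ := IntermediateField.mem_adjoin_simple_iff M f |>.1 (hall f)
  by_cases hb : aeval s b' = 0
  · rw [hab, hb, div_zero]; exact M.zero_mem
  have hb' : b' ≠ 0 := by rintro rfl; simp at hb
  have hrel : (C f * b'.map (algebraMap M K) - a'.map (algebraMap M K)) = 0 := by
    apply Φ.poly_eq_zero_of_deg0 hs0 hsd
    · intro i
      rw [coeff_sub, coeff_C_mul, coeff_map, coeff_map]
      exact Φ.deg0.sub_mem (Φ.deg0.mul_mem hf (hMdeg (b'.coeff i).2)) (hMdeg (a'.coeff i).2)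
    · rw [eval_sub, eval_mul, eval_C, eval_map_algebraMap, eval_map_algebraMap, hab]
      field_simp
      ring
  obtain ⟨i, hi⟩ : ∃ i, b'.coeff i ≠ 0 := by
    by_contra hcon
    push Not at hcon
    exact hb' (Polynomial.ext (by simpa using hcon))
  have h1 := congrArg (fun R => R.coeff i) hrel
  simp only [coeff_sub, coeff_C_mul, coeff_map, coeff_zero] at h1
  have hi' : (b'.coeff i : K) ≠ 0 := by
    intro h0
    exact hi (Subtype.ext h0)
  have h2 : f = (a'.coeff i : K) / (b'.coeff i : K) := by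
    rw [eq_div_iff hi']
    exact sub_eq_zero.1 h1
  rw [h2]
  exact M.div_mem (a'.coeff i).2 (b'.coeff i).2

/-- a nonzero element of degree `1` is transcendental over the elements of degree zero -/
lemma poly_eq_zero_of_deg0' {s : K} (hs0 : s ≠ 0) (hsd : Φ.IsHomog 1 s) {p : K[X]}
    (hp : ∀ i, p.coeff i ∈ Φ.deg0) (h : p.eval s = 0) : p = 0 := by
  apply Polynomial.eq_zero_of_infinite_isRoot
  have hinf := (units_infinite (K := K))
  have : Set.Infinite ((fun x => x * s) '' (Set.range (fun c : ℂˣ => algebraMap ℂ K (c : ℂ)))) := by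
    apply hinf.image
    intro a _ b _ hab
    exact mul_right_cancel₀ hs0 hab
  refine this.mono ?_
  rintro _ ⟨_, ⟨t, rfl⟩, rfl⟩
  change p.eval _ = 0
  have h1 : Φ.D t (p.eval s) = p.eval ((algebraMap ℂ K t) * s) := by
    have h2 : (Φ.D t) (p.eval s) = (p.map (Φ.D t : K →+* K)).eval (Φ.D t s) := by
      rw [eval_map, show Φ.D t s = (Φ.D t : K →+* K) s from rfl, eval₂_hom]
      rfl
    have h3 : p.map (Φ.D t : K →+* K) = p := by
      ext i
      rw [coeff_map]
      exact hp i t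
    rw [h2, h3, hsd t, zpow_one]
  rw [← h1, h, map_zero]

end FlowData

/-- the trivial action -/
noncomputable def trivData (k : ℕ) : FlowData (RF k) where
  F := fun _ => AlgHom.id ℂ (RF k)
  D := scaleC
  F_zero := rfl
  F_add := fun _ _ => rfl
  D_one := scaleC_one
  D_mul := scaleC_mul
  comm := fun _ _ => rfl
  ratF := fun f => ⟨Polynomial.C f, 1, fun c => by simp⟩
  ratD := fun f => ⟨(scaleZ k f).num, (scaleZ k f).denom,
    num_den_of_value (fun t => value_scaleZ t f)⟩

section Chart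

open MvPolynomial

variable {n : ℕ}

lemma crd_ne_zero {k : ℕ} (i : Fin k) : (crd i : RF k) ≠ 0 := by
  unfold crd
  rw [Ne, map_eq_zero_iff _ RF_inj]
  exact X_ne_zero i

/-- the last coordinate -/
noncomputable def yy (n : ℕ) : RF (n + 1) := crd (Fin.last n)

lemma yy_ne_zero : yy n ≠ 0 := crd_ne_zero _

lemma exists_iota (n : ℕ) : ∃ g : RF n →ₐ[ℂ] RF (n + 1), ∀ i, g (crd i) = tt n i := by
  set ξ : Fin (n + 1) → RF n := Fin.lastCases 1 (fun i => crd i) with hξ
  have hξl : ξ (Fin.last n) = 1 := by simp [hξ]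
  have hξc : ∀ i : Fin n, ξ i.castSucc = crd i := fun i => by simp [hξ]
  apply exists_hom_of_inverse (tt n) ξ
  intro i
  have h1 : EvalsTo ξ (crd i.castSucc) (crd i) := by
    have := EvalsTo.crd ξ i.castSucc
    rwa [hξc] at this
  have h2 : EvalsTo ξ (crd (Fin.last n)) (1 : RF n) := by
    have := EvalsTo.crd ξ (Fin.last n)
    rwa [hξl] at this
  have := h1.div h2 one_ne_zero
  rwa [div_one] at this

/-- `f(t_0, …, t_{n-1}) ↦ f(x_0 / x_n, …, x_{n-1} / x_n)` -/
noncomputable def iota (n : ℕ) : RF n →ₐ[ℂ] RF (n + 1) := (exists_iota n).choose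

lemma iota_crd (i : Fin n) : iota n (crd i) = crd i.castSucc / yy n :=
  (exists_iota n).choose_spec i

lemma evalsTo_tt (f : RF n) : EvalsTo (tt n) f (iota n f) :=
  EvalsTo.of_hom (exists_iota n).choose_spec f

lemma evalsTo_tt_iff {f : RF n} {e : RF (n + 1)} : EvalsTo (tt n) f e ↔ e = iota n f := by
  constructor
  · intro h
    exact h.unique (evalsTo_tt f)
  · rintro rfl
    exact evalsTo_tt f

lemma crd_castSucc (i : Fin n) : (crd i.castSucc : RF (n + 1)) = iota n (crd i) * yy n := by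
  rw [iota_crd, div_mul_cancel₀ _ yy_ne_zero]

lemma scaleC_yy (t : ℂˣ) : scaleC t (yy n) = algebraMap ℂ (RF (n + 1)) t * yy n :=
  scaleC_crd t _

lemma scaleC_iota (t : ℂˣ) (f : RF n) : scaleC t (iota n f) = iota n f := by
  have : ((scaleC t).comp (iota n)) = iota n := by
    apply RF_hom_ext
    intro i
    rw [AlgHom.comp_apply, iota_crd, map_div₀, scaleC_crd, scaleC_yy]
    have := FlowData.algebraMap_unit_ne_zero (K := RF (n + 1)) t
    rw [mul_div_mul_left _ _ this]
  exact DFunLike.congr_fun this f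

lemma iota_mem_deg0 (f : RF n) : iota n f ∈ (trivData (n + 1)).deg0 :=
  fun t => scaleC_iota t f

/-- the elements of degree zero are the functions of the `x_i / x_n` -/
lemma exists_iota_of_deg0 {f : RF (n + 1)} (h : ∀ t, scaleC t f = f) :
    ∃ g, iota n g = f := by
  have hs : (trivData (n + 1)).IsHomog (-1) (yy n)⁻¹ := by
    intro t
    change scaleC t (yy n)⁻¹ = _
    rw [map_inv₀, scaleC_yy, mul_inv, zpow_neg, zpow_one]
  have hall : ∀ f : RF (n + 1),
      f ∈ IntermediateField.adjoin ((iota n).fieldRange) {(yy n)⁻¹} := by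
    intro f
    apply RF_top ((IntermediateField.adjoin ((iota n).fieldRange)
      {(yy n)⁻¹}).restrictScalars ℂ)
    intro i
    have hy : yy n ∈ IntermediateField.adjoin ((iota n).fieldRange) {(yy n)⁻¹} := by
      have := (IntermediateField.adjoin ((iota n).fieldRange) {(yy n)⁻¹}).inv_mem
        (IntermediateField.mem_adjoin_simple_self _ _)
      rwa [inv_inv] at this
    refine Fin.lastCases ?_ ?_ i
    · exact hy
    · intro i
      rw [crd_castSucc]
      refine (IntermediateField.adjoin ((iota n).fieldRange) {(yy n)⁻¹}).mul_mem ?_ hy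
      exact (IntermediateField.adjoin ((iota n).fieldRange) {(yy n)⁻¹}).algebraMap_mem
        ⟨iota n (crd i), crd i, rfl⟩
  have := (trivData (n + 1)).mem_of_deg0 (inv_ne_zero yy_ne_zero) hs (iota n).fieldRange (by
    rintro _ ⟨g, rfl⟩
    exact iota_mem_deg0 g) hall (f := f) h
  exact this

lemma eq_zero_of_eval_yy {p : Polynomial (RF n)}
    (h : p.eval₂ (iota n : RF n →+* RF (n + 1)) (yy n) = 0) : p = 0 := by
  have hs : (trivData (n + 1)).IsHomog 1 (yy n) := by
    intro t
    change scaleC t (yy n) = _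
    rw [scaleC_yy, zpow_one]
  have := (trivData (n + 1)).poly_eq_zero_of_deg0' yy_ne_zero hs
    (p := p.map (iota n : RF n →+* RF (n + 1))) (by
      intro i
      rw [Polynomial.coeff_map]
      exact iota_mem_deg0 _) (by rwa [Polynomial.eval_map])
  exact (Polynomial.map_eq_zero_iff (iota n).injective).1 this

lemma RF_succ_hom_ext {E : Type} [Field E] [Algebra ℂ E] {α β : RF (n + 1) →ₐ[ℂ] E}
    (h : ∀ f, α (iota n f) = β (iota n f)) (hy : α (yy n) = β (yy n)) : α = β := by
  apply RF_hom_ext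
  intro i
  refine Fin.lastCases hy ?_ i
  intro i
  rw [crd_castSucc, map_mul, map_mul, h, hy]

/-- existence of 1-homogenic maps -/
lemma exists_lam_hom (ρ : RF n ≃ₐ[ℂ] RF n) {γ : RF n} (hγ : γ ≠ 0) :
    ∃ Λ : RF (n + 1) →ₐ[ℂ] RF (n + 1), Λ (yy n) = iota n γ * yy n ∧
      ∀ f, Λ (iota n f) = iota n (ρ f) := by
  set η : Fin (n + 1) → RF (n + 1) := Fin.lastCases (iota n γ * yy n)
    (fun i => iota n (ρ (crd i)) * (iota n γ * yy n)) with hη
  set δ : RF n := ρ.symm γ⁻¹ with hδ
  have hδ0 : δ ≠ 0 := by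
    rw [hδ, Ne, map_eq_zero]
    exact inv_ne_zero hγ
  set ξ : Fin (n + 1) → RF (n + 1) := Fin.lastCases (iota n δ * yy n)
    (fun i => iota n (ρ.symm (crd i)) * (iota n δ * yy n)) with hξ
  have hξl : ξ (Fin.last n) = iota n δ * yy n := by simp [hξ]
  have hξc : ∀ i : Fin n, ξ i.castSucc = iota n (ρ.symm (crd i)) * (iota n δ * yy n) :=
    fun i => by simp [hξ]
  have hηl : η (Fin.last n) = iota n γ * yy n := by simp [hη]
  have hηc : ∀ i : Fin n, η i.castSucc = iota n (ρ (crd i)) * (iota n γ * yy n) :=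
    fun i => by simp [hη]
  have hιδ : iota n δ * yy n ≠ 0 := mul_ne_zero (by rwa [Ne, map_eq_zero]) yy_ne_zero
  have hιγ : iota n γ * yy n ≠ 0 := mul_ne_zero (by rwa [Ne, map_eq_zero]) yy_ne_zero
  have e1 : EvalsTo ξ (yy n) (iota n δ * yy n) := by
    have := EvalsTo.crd ξ (Fin.last n)
    rwa [hξl] at this
  have e2 : ∀ f, EvalsTo ξ (iota n f) (iota n (ρ.symm f)) := by
    apply evalsTo_RF (α := iota n) (β := (iota n).comp (ρ.symm : RF n →ₐ[ℂ] RF n))
    intro i
    rw [iota_crd]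
    have h1 : EvalsTo ξ (crd i.castSucc) (iota n (ρ.symm (crd i)) * (iota n δ * yy n)) := by
      have := EvalsTo.crd ξ i.castSucc
      rwa [hξc] at this
    have := h1.div e1 hιδ
    rwa [mul_div_cancel_right₀ _ hιδ] at this
  have e3 : EvalsTo ξ (iota n γ * yy n) (yy n) := by
    have := (e2 γ).mul e1
    rwa [← mul_assoc, ← map_mul, hδ, ← map_mul, mul_inv_cancel₀ hγ, map_one, map_one,
      one_mul] at this
  obtain ⟨Λ, hΛ⟩ := exists_hom_of_inverse η ξ (by
    intro i
    refine Fin.lastCases ?_ ?_ i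
    · rw [hηl]
      exact e3
    · intro i
      rw [hηc, crd_castSucc]
      have := (e2 (ρ (crd i))).mul e3
      rwa [AlgEquiv.symm_apply_apply] at this)
  have hy : Λ (yy n) = iota n γ * yy n := by
    have := hΛ (Fin.last n)
    rwa [hηl] at this
  refine ⟨Λ, hy, ?_⟩
  intro f
  have : Λ.comp (iota n) = (iota n).comp (ρ : RF n →ₐ[ℂ] RF n) := by
    apply RF_hom_ext
    intro i
    have h1 := hΛ i.castSucc
    rw [hηc] at h1
    rw [AlgHom.comp_apply, iota_crd, map_div₀, h1, hy, mul_div_cancel_right₀ _ hιγ]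
    rfl
  exact DFunLike.congr_fun this f

/-- existence of 1-homogenic automorphisms -/
lemma exists_lam (ρ : RF n ≃ₐ[ℂ] RF n) {γ : RF n} (hγ : γ ≠ 0) :
    ∃ Λ : RF (n + 1) ≃ₐ[ℂ] RF (n + 1), Λ (yy n) = iota n γ * yy n ∧
      ∀ f, Λ (iota n f) = iota n (ρ f) := by
  obtain ⟨Λ, h1, h2⟩ := exists_lam_hom ρ hγ
  have hγ' : ρ.symm γ⁻¹ ≠ 0 := by
    rw [Ne, map_eq_zero]
    exact inv_ne_zero hγ
  obtain ⟨Λ', h1', h2'⟩ := exists_lam_hom ρ.symm hγ'
  refine ⟨AlgEquiv.ofAlgHom Λ Λ' ?_ ?_, h1, h2⟩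
  · apply RF_succ_hom_ext
    · intro f
      rw [AlgHom.comp_apply, h2', h2, AlgEquiv.apply_symm_apply]; rfl
    · rw [AlgHom.comp_apply, h1', map_mul, h2, h1, AlgEquiv.apply_symm_apply, ← mul_assoc,
        ← map_mul, inv_mul_cancel₀ hγ, map_one, one_mul]; rfl
  · apply RF_succ_hom_ext
    · intro f
      rw [AlgHom.comp_apply, h2, h2', AlgEquiv.symm_apply_apply]; rfl
    · rw [AlgHom.comp_apply, h1, map_mul, h2', h1', ← mul_assoc, ← map_mul, ← map_mul,
        mul_inv_cancel₀ hγ, map_one, map_one, one_mul]; rfl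

end Chart

section Conj

variable {k : ℕ}

/-- conjugacy in terms of automorphisms of the function field -/
theorem isConjugate_iff {φ ψ : Fin k → RF k} {Φ Ψ : RF k →ₐ[ℂ] RF k}
    (hΦ : ∀ i, Φ (crd i) = φ i) (hΨ : ∀ i, Ψ (crd i) = ψ i) :
    IsConjugate φ ψ ↔ ∃ Λ : RF k ≃ₐ[ℂ] RF k, (∀ t f, Λ (scaleC t f) = scaleC t (Λ f)) ∧
      ∀ f, Λ (Φ f) = Ψ (Λ f) := by
  constructor
  · rintro ⟨l, m, v, hl, hlm, hml, hv, hψ⟩
    obtain ⟨L, hL⟩ := exists_hom_of_inverse l m hml
    obtain ⟨M, hM⟩ := exists_hom_of_inverse m l hlm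
    have hLM : ∀ i, L (m i) = crd i := fun i => EvalsTo.eq_of_hom hL (hlm i)
    have hML : ∀ i, M (l i) = crd i := fun i => EvalsTo.eq_of_hom hM (hml i)
    have hv' : ∀ i, v i = L (Φ (crd i)) := fun i => by
      rw [hΦ i]
      exact (EvalsTo.eq_of_hom hL (hv i)).symm
    have hψ' : ∀ i, ψ i = L (Φ (m i)) := fun i =>
      (EvalsTo.eq_of_hom (g := L.comp Φ) (fun j => (hv' j).symm) (hψ i)).symm
    let Λ : RF k ≃ₐ[ℂ] RF k := AlgEquiv.ofAlgHom L M
      (by
        apply RF_hom_ext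
        intro i
        rw [AlgHom.comp_apply, hM, hLM]; rfl)
      (by
        apply RF_hom_ext
        intro i
        rw [AlgHom.comp_apply, hL, hML]; rfl)
    have hΛ : ∀ f, Λ f = L f := fun _ => rfl
    refine ⟨Λ, ?_, ?_⟩
    · intro t f
      have : L.comp (scaleC t) = (scaleC t).comp L := by
        apply RF_hom_ext
        intro i
        rw [AlgHom.comp_apply, AlgHom.comp_apply, scaleC_crd, map_mul, AlgHom.commutes, hL,
          isOneHomogeneous_iff.1 (hl i)]
      exact DFunLike.congr_fun this f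
    · intro f
      have h1 : Ψ = (L.comp Φ).comp M := by
        apply RF_hom_ext
        intro i
        rw [hΨ i, hψ' i, AlgHom.comp_apply, hM]; rfl
      rw [h1, hΛ, AlgHom.comp_apply, AlgHom.comp_apply, hΛ]
      have h2 : M (L f) = f := Λ.symm_apply_apply f
      rw [h2]
  · rintro ⟨Λ, h1, h2⟩
    have hL : ∀ i, (Λ : RF k →ₐ[ℂ] RF k) (crd i) = Λ (crd i) := fun _ => rfl
    refine ⟨fun i => Λ (crd i), fun i => Λ.symm (crd i), fun i => Λ (Φ (crd i)), ?_, ?_, ?_, ?_,
      ?_⟩
    · intro i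
      rw [isOneHomogeneous_iff]
      intro t
      rw [← h1, scaleC_crd, map_mul, AlgEquiv.commutes]
    · intro i
      have := EvalsTo.of_hom hL (Λ.symm (crd i))
      have h3 : (Λ : RF k →ₐ[ℂ] RF k) (Λ.symm (crd i)) = crd i := Λ.apply_symm_apply _
      rwa [h3] at this
    · intro i
      have := EvalsTo.of_hom (η := fun i => Λ.symm (crd i)) (g := (Λ.symm : RF k →ₐ[ℂ] RF k))
        (fun _ => rfl) (Λ (crd i))
      have h3 : (Λ.symm : RF k →ₐ[ℂ] RF k) (Λ (crd i)) = crd i := Λ.symm_apply_apply _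
      rwa [h3] at this
    · intro i
      rw [← hΦ i]
      exact EvalsTo.of_hom hL (Φ (crd i))
    · intro i
      have := EvalsTo.of_hom (η := fun i => Λ (Φ (crd i))) (g := (Λ : RF k →ₐ[ℂ] RF k).comp Φ)
        (fun _ => rfl) (Λ.symm (crd i))
      have h3 : ((Λ : RF k →ₐ[ℂ] RF k).comp Φ) (Λ.symm (crd i)) = ψ i := by
        change Λ (Φ _) = _
        rw [h2, AlgEquiv.apply_symm_apply, hΨ i]
      rwa [h3] at this

end Conj

end Pool.Agent.Lib.MP_956d6c_ag
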