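import Mathlib
import Pool.Agent.Lib.MP_956d6c_ag.Chart

/-!
# The flow attached to `(N, F, θ)`
-/

set_option autoImplicit false
set_option linter.unusedSectionVars false

namespace Pool.Agent.Lib.MP_956d6c_ag

variable {n : ℕ} {F : Type} [Field F] [Algebra ℂ F]

/-- `F(v) ≃ ℂ(t) ⊂ ℂ(x)` -/
noncomputable def incl (θ : RatFunc F ≃ₐ[ℂ] RF n) : RatFunc F →ₐ[ℂ] RF (n + 1) :=
  (iota n).comp (θ : RatFunc F →ₐ[ℂ] RF n)

lemma incl_apply (θ : RatFunc F ≃ₐ[ℂ] RF n) (r : RatFunc F) : incl θ r = iota n (θ r) := rfl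

lemma incl_symm (θ : RatFunc F ≃ₐ[ℂ] RF n) (f : RF n) : incl θ (θ.symm f) = iota n f := by
  rw [incl_apply, AlgEquiv.apply_symm_apply]

lemma scaleC_incl (θ : RatFunc F ≃ₐ[ℂ] RF n) (t : ℂˣ) (r : RatFunc F) :
    scaleC t (incl θ r) = incl θ r := scaleC_iota t _

/-- homomorphisms out of `ℂ(x)` agreeing on `F`, `v`, `x_n` are equal -/
lemma incl_hom_ext (θ : RatFunc F ≃ₐ[ℂ] RF n) {E : Type} [Field E] [Algebra ℂ E]
    {α β : RF (n + 1) →ₐ[ℂ] E} (hC : ∀ a, α (incl θ (RatFunc.C a)) = β (incl θ (RatFunc.C a)))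
    (hX : α (incl θ RatFunc.X) = β (incl θ RatFunc.X)) (hy : α (yy n) = β (yy n)) : α = β := by
  apply RF_succ_hom_ext _ hy
  intro f
  have h : α.comp (incl θ) = β.comp (incl θ) := ratFunc_hom_ext hC hX
  have := DFunLike.congr_fun h (θ.symm f)
  rw [AlgHom.comp_apply, AlgHom.comp_apply, incl_symm] at this
  exact this

lemma isAttached_iff {N : ℕ} {θ : RatFunc F ≃ₐ[ℂ] RF n} {φ : Fin (n + 1) → RF (n + 1)} :
    IsAttached N θ φ ↔ φ (Fin.last n) = yy n / (1 + yy n) ∧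
      (∀ a : F, EvalsTo φ (incl θ (RatFunc.C a)) (incl θ (RatFunc.C a))) ∧
      EvalsTo φ (incl θ RatFunc.X) (incl θ RatFunc.X * (1 + yy n) ^ N) := by
  unfold IsAttached
  constructor
  · rintro ⟨h1, h2, v, h3, h4⟩
    refine ⟨h1, ?_, ?_⟩
    · intro a
      obtain ⟨f, hf, hf'⟩ := h2 a
      rw [evalsTo_tt_iff] at hf
      rw [incl_apply, ← hf]
      exact hf'
    · rw [evalsTo_tt_iff] at h3
      rw [incl_apply, ← h3]
      exact h4
  · rintro ⟨h1, h2, h3⟩
    exact ⟨h1, fun a => ⟨_, evalsTo_tt _, h2 a⟩, _, evalsTo_tt _, h3⟩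

lemma one_add_ne_zero (c : ℂ) : 1 + algebraMap ℂ (RF (n + 1)) c * yy n ≠ 0 := by
  intro h
  have h1 : (1 + Polynomial.C (algebraMap ℂ (RF n) c) * Polynomial.X : Polynomial (RF n)) = 0 := by
    apply eq_zero_of_eval_yy
    rw [Polynomial.eval₂_add, Polynomial.eval₂_mul, Polynomial.eval₂_X, Polynomial.eval₂_C,
      Polynomial.eval₂_one]
    have : (iota n : RF n →+* RF (n + 1)) (algebraMap ℂ (RF n) c) = algebraMap ℂ (RF (n + 1)) c :=
      AlgHom.commutes _ _
    rw [this, h]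
  have h2 := congrArg (Polynomial.eval 0) h1
  simp at h2

lemma one_add_yy_ne_zero : 1 + yy n ≠ 0 := by
  have := one_add_ne_zero (n := n) 1
  rwa [map_one, one_mul] at this

lemma exists_beta (N : ℕ) (θ : RatFunc F ≃ₐ[ℂ] RF n) (c : ℂ) :
    ∃ β : RatFunc F →ₐ[ℂ] RF (n + 1), (∀ a, β (RatFunc.C a) = incl θ (RatFunc.C a)) ∧
      β RatFunc.X = incl θ RatFunc.X * (1 + algebraMap ℂ (RF (n + 1)) c * yy n) ^ N := by
  apply exists_ratFunc_hom ((incl θ).comp (CC F))
  intro p hp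
  set α : F →+* RF n := (θ : RatFunc F →+* RF n).comp (RatFunc.C : F →+* RatFunc F) with hα
  set P : Polynomial (RF n) := p.eval₂ (Polynomial.C.comp α)
    (Polynomial.C (θ RatFunc.X) * (1 + Polynomial.C (algebraMap ℂ (RF n) c) * Polynomial.X) ^ N)
    with hP
  have h1 : P.eval₂ (iota n : RF n →+* RF (n + 1)) (yy n) = 0 := by
    rw [hP, ← Polynomial.coe_eval₂RingHom, Polynomial.hom_eval₂]
    have e1 : (Polynomial.eval₂RingHom (iota n : RF n →+* RF (n + 1)) (yy n)).comp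
        (Polynomial.C.comp α) = (((incl θ).comp (CC F) : F →ₐ[ℂ] RF (n + 1)) : F →+* RF (n + 1)) := by
      apply RingHom.ext
      intro a
      simp only [RingHom.comp_apply, Polynomial.coe_eval₂RingHom, Polynomial.eval₂_C]
      rfl
    have e2 : (Polynomial.eval₂RingHom (iota n : RF n →+* RF (n + 1)) (yy n))
        (Polynomial.C (θ RatFunc.X) * (1 + Polynomial.C (algebraMap ℂ (RF n) c) * Polynomial.X) ^ N)
        = incl θ RatFunc.X * (1 + algebraMap ℂ (RF (n + 1)) c * yy n) ^ N := by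
      rw [Polynomial.coe_eval₂RingHom, Polynomial.eval₂_mul, Polynomial.eval₂_pow,
        Polynomial.eval₂_add, Polynomial.eval₂_one, Polynomial.eval₂_mul, Polynomial.eval₂_X,
        Polynomial.eval₂_C, Polynomial.eval₂_C]
      have : (iota n : RF n →+* RF (n + 1)) (algebraMap ℂ (RF n) c) =
          algebraMap ℂ (RF (n + 1)) c := AlgHom.commutes _ _
      rw [this]
      rfl
    rw [e1, e2]
    exact hp
  have h2 := eq_zero_of_eval_yy h1
  have h3 : Polynomial.eval 0 P = θ (algebraMap _ (RatFunc F) p) := by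
    rw [hP, ← Polynomial.coe_evalRingHom, Polynomial.hom_eval₂]
    have e1 : (Polynomial.evalRingHom (0 : RF n)).comp (Polynomial.C.comp α) = α := by
      apply RingHom.ext
      intro a
      simp
    have e2 : (Polynomial.evalRingHom (0 : RF n))
        (Polynomial.C (θ RatFunc.X) * (1 + Polynomial.C (algebraMap ℂ (RF n) c) * Polynomial.X) ^ N)
        = θ RatFunc.X := by
      simp
    rw [e1, e2]
    have e3 : ∀ q : Polynomial F, q.eval₂ α (θ RatFunc.X) = θ (algebraMap _ (RatFunc F) q) := by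
      intro q
      induction q using Polynomial.induction_on with
      | C a => rw [Polynomial.eval₂_C, RatFunc.algebraMap_C]; rfl
      | add p q hp hq => rw [Polynomial.eval₂_add, hp, hq, map_add, map_add]
      | monomial k a hk =>
        rw [Polynomial.eval₂_mul, Polynomial.eval₂_C, Polynomial.eval₂_pow, Polynomial.eval₂_X,
          map_mul, map_mul, map_pow, map_pow, RatFunc.algebraMap_C, RatFunc.algebraMap_X]
        rfl
    exact e3 p
  rw [h2, Polynomial.eval_zero] at h3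
  have h4 := (map_eq_zero θ).1 h3.symm
  exact (map_eq_zero_iff _ (RatFunc.algebraMap_injective F)).1 h4

/-- the homomorphism of the attached flow -/
theorem exists_attached_hom (N : ℕ) (θ : RatFunc F ≃ₐ[ℂ] RF n) :
    ∃ Ψ : RF (n + 1) →ₐ[ℂ] RF (n + 1), Ψ (yy n) = yy n / (1 + yy n) ∧
      (∀ a, Ψ (incl θ (RatFunc.C a)) = incl θ (RatFunc.C a)) ∧
      Ψ (incl θ RatFunc.X) = incl θ RatFunc.X * (1 + yy n) ^ N := by
  obtain ⟨β, hβC, hβX⟩ := exists_beta N θ 1
  obtain ⟨β', hβC', hβX'⟩ := exists_beta N θ (-1)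
  rw [map_one, one_mul] at hβX
  rw [map_neg, map_one, neg_one_mul, ← sub_eq_add_neg] at hβX'
  have n1 : 1 + yy n ≠ 0 := one_add_yy_ne_zero
  have n2 : 1 - yy n ≠ 0 := by
    have := one_add_ne_zero (n := n) (-1)
    rwa [map_neg, map_one, neg_one_mul, ← sub_eq_add_neg] at this
  have n3 : yy n / (1 - yy n) ≠ 0 := div_ne_zero yy_ne_zero n2
  have n4 : yy n / (1 + yy n) ≠ 0 := div_ne_zero yy_ne_zero n1
  set η : Fin (n + 1) → RF (n + 1) := Fin.lastCases (yy n / (1 + yy n))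
    (fun i => β (θ.symm (crd i)) * (yy n / (1 + yy n))) with hη
  set ξ : Fin (n + 1) → RF (n + 1) := Fin.lastCases (yy n / (1 - yy n))
    (fun i => β' (θ.symm (crd i)) * (yy n / (1 - yy n))) with hξ
  have hξl : ξ (Fin.last n) = yy n / (1 - yy n) := by simp [hξ]
  have hξc : ∀ i : Fin n, ξ i.castSucc = β' (θ.symm (crd i)) * (yy n / (1 - yy n)) :=
    fun i => by simp [hξ]
  have hηl : η (Fin.last n) = yy n / (1 + yy n) := by simp [hη]
  have hηc : ∀ i : Fin n, η i.castSucc = β (θ.symm (crd i)) * (yy n / (1 + yy n)) :=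
    fun i => by simp [hη]
  have e1 : EvalsTo ξ (yy n) (yy n / (1 - yy n)) := by
    have := EvalsTo.crd ξ (Fin.last n)
    rwa [hξl] at this
  have e2 : ∀ f : RF n, EvalsTo ξ (iota n f) (β' (θ.symm f)) := by
    apply evalsTo_RF (α := iota n) (β := β'.comp (θ.symm : RF n →ₐ[ℂ] RatFunc F))
    intro i
    rw [iota_crd]
    have h1 : EvalsTo ξ (crd i.castSucc) (β' (θ.symm (crd i)) * (yy n / (1 - yy n))) := by
      have := EvalsTo.crd ξ i.castSucc
      rwa [hξc] at this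
    have := h1.div e1 n3
    rwa [mul_div_cancel_right₀ _ n3] at this
  have e3 : EvalsTo ξ (1 + yy n) (1 / (1 - yy n)) := by
    have := (EvalsTo.one ξ).add e1
    rwa [show 1 + yy n / (1 - yy n) = 1 / (1 - yy n) by field_simp; ring] at this
  have e4 : EvalsTo ξ (yy n / (1 + yy n)) (yy n) := by
    have := e1.div e3 (one_div_ne_zero n2)
    rwa [div_div_div_cancel_right₀ n2, div_one] at this
  have e5 : ∀ r : RatFunc F, EvalsTo ξ (β r) (incl θ r) := by
    apply evalsTo_ratFunc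
    · intro a
      rw [hβC]
      have := e2 (θ (RatFunc.C a))
      rwa [AlgEquiv.symm_apply_apply, hβC'] at this
    · rw [hβX]
      have h1 := e2 (θ RatFunc.X)
      rw [AlgEquiv.symm_apply_apply, hβX'] at h1
      have h2 := h1.mul (e3.pow N)
      rwa [mul_assoc, ← mul_pow, mul_one_div_cancel n2, one_pow, mul_one] at h2
  obtain ⟨Ψ, hΨ⟩ := exists_hom_of_inverse η ξ (by
    intro i
    refine Fin.lastCases ?_ ?_ i
    · rw [hηl]
      exact e4
    · intro i
      rw [hηc, crd_castSucc]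
      have := (e5 (θ.symm (crd i))).mul e4
      rwa [incl_symm] at this)
  have hy : Ψ (yy n) = yy n / (1 + yy n) := by
    have := hΨ (Fin.last n)
    rwa [hηl] at this
  have hι : ∀ f, Ψ (iota n f) = β (θ.symm f) := by
    intro f
    have : Ψ.comp (iota n) = β.comp (θ.symm : RF n →ₐ[ℂ] RatFunc F) := by
      apply RF_hom_ext
      intro i
      have h1 := hΨ i.castSucc
      rw [hηc] at h1
      rw [AlgHom.comp_apply, iota_crd, map_div₀, h1, hy, mul_div_cancel_right₀ _ n4]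
      rfl
    exact DFunLike.congr_fun this f
  refine ⟨Ψ, hy, ?_, ?_⟩
  · intro a
    rw [incl_apply, hι, AlgEquiv.symm_apply_apply, hβC, incl_apply]
  · rw [incl_apply, hι, AlgEquiv.symm_apply_apply, hβX, incl_apply]

/-- the attached map is unique -/
theorem isAttached_unique {N : ℕ} {θ : RatFunc F ≃ₐ[ℂ] RF n} {φ : Fin (n + 1) → RF (n + 1)}
    (h : IsAttached N θ φ) {Ψ : RF (n + 1) →ₐ[ℂ] RF (n + 1)}
    (hy : Ψ (yy n) = yy n / (1 + yy n)) (hC : ∀ a, Ψ (incl θ (RatFunc.C a)) = incl θ (RatFunc.C a))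
    (hX : Ψ (incl θ RatFunc.X) = incl θ RatFunc.X * (1 + yy n) ^ N) (i : Fin (n + 1)) :
    Ψ (crd i) = φ i := by
  rw [isAttached_iff] at h
  obtain ⟨h1, h2, h3⟩ := h
  have e1 : ∀ r : RatFunc F, EvalsTo φ (incl θ r) (Ψ (incl θ r)) := by
    apply evalsTo_ratFunc (α := incl θ) (β := Ψ.comp (incl θ))
    · intro a
      rw [AlgHom.comp_apply, hC]
      exact h2 a
    · rw [AlgHom.comp_apply, hX]
      exact h3
  have e2 : EvalsTo φ (yy n) (Ψ (yy n)) := by
    rw [hy, ← h1]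
    exact EvalsTo.crd φ _
  have e3 : EvalsTo φ (crd i) (Ψ (crd i)) := by
    refine Fin.lastCases e2 ?_ i
    intro i
    rw [crd_castSucc, map_mul]
    have := e1 (θ.symm (crd i))
    rw [incl_symm] at this
    exact this.mul e2
  exact e3.unique (EvalsTo.crd φ i)

theorem isAttached_of_hom {N : ℕ} {θ : RatFunc F ≃ₐ[ℂ] RF n} {φ : Fin (n + 1) → RF (n + 1)}
    {Ψ : RF (n + 1) →ₐ[ℂ] RF (n + 1)} (hφ : ∀ i, Ψ (crd i) = φ i)
    (hy : Ψ (yy n) = yy n / (1 + yy n)) (hC : ∀ a, Ψ (incl θ (RatFunc.C a)) = incl θ (RatFunc.C a))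
    (hX : Ψ (incl θ RatFunc.X) = incl θ RatFunc.X * (1 + yy n) ^ N) : IsAttached N θ φ := by
  rw [isAttached_iff]
  refine ⟨?_, ?_, ?_⟩
  · rw [← hφ, ← hy]; rfl
  · intro a
    have := EvalsTo.of_hom hφ (incl θ (RatFunc.C a))
    rwa [hC] at this
  · have := EvalsTo.of_hom hφ (incl θ RatFunc.X)
    rwa [hX] at this

/-- existence and uniqueness of the attached map -/
theorem existsUnique_isAttached (N : ℕ) (θ : RatFunc F ≃ₐ[ℂ] RF n) :
    ∃! φ, IsAttached N θ φ := by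
  obtain ⟨Ψ, hy, hC, hX⟩ := exists_attached_hom N θ
  refine ⟨fun i => Ψ (crd i), isAttached_of_hom (fun _ => rfl) hy hC hX, ?_⟩
  intro φ hφ
  funext i
  exact (isAttached_unique hφ hy hC hX i).symm

/-- the homomorphism of an attached map -/
theorem IsAttached.exists_hom {N : ℕ} {θ : RatFunc F ≃ₐ[ℂ] RF n}
    {φ : Fin (n + 1) → RF (n + 1)} (h : IsAttached N θ φ) :
    ∃ Ψ : RF (n + 1) →ₐ[ℂ] RF (n + 1), (∀ i, Ψ (crd i) = φ i) ∧ Ψ (yy n) = yy n / (1 + yy n) ∧
      (∀ a, Ψ (incl θ (RatFunc.C a)) = incl θ (RatFunc.C a)) ∧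
      Ψ (incl θ RatFunc.X) = incl θ RatFunc.X * (1 + yy n) ^ N := by
  obtain ⟨Ψ, hy, hC, hX⟩ := exists_attached_hom N θ
  exact ⟨Ψ, isAttached_unique h hy hC hX, hy, hC, hX⟩

end Pool.Agent.Lib.MP_956d6c_ag
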