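import Mathlib
import Pool.Agent.Lib.MP_956d6c_ag.Attached

/-!
# Attached maps are flows
-/

set_option autoImplicit false
set_option linter.unusedSectionVars false

namespace Pool.Agent.Lib.MP_956d6c_ag

variable {n : ℕ} {F : Type} [Field F] [Algebra ℂ F]

section Alg

variable {E : Type} [Field E] [Algebra ℂ E]

/-- the translation equation, algebraically -/
lemma translation_calc {N : ℕ} {θ : RatFunc F ≃ₐ[ℂ] RF n}
    {Ψ : RF (n + 1) →ₐ[ℂ] RF (n + 1)}
    (hy : Ψ (yy n) = yy n / (1 + yy n))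
    (hC : ∀ a, Ψ (incl θ (RatFunc.C a)) = incl θ (RatFunc.C a))
    (hX : Ψ (incl θ RatFunc.X) = incl θ RatFunc.X * (1 + yy n) ^ N)
    {S cc T : RF (n + 1) →ₐ[ℂ] E} {z : E} (hz : z ≠ 0) (hz1 : 1 - z ≠ 0)
    (hSy : S (yy n) = cc (yy n) * z) (hS : ∀ f, S (iota n f) = cc (iota n f))
    (hT : ∀ i, T (crd i) = S (Ψ (crd i)) * ((1 - z) / z)) (i : Fin (n + 1)) :
    T (Ψ (crd i)) = (1 - z) * cc (Ψ (crd i)) := by
  have d1 : 1 + cc (yy n) * z ≠ 0 := by
    have h := (map_ne_zero S).2 (one_add_yy_ne_zero (n := n))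
    rwa [map_add, map_one, hSy] at h
  have d2 : 1 + cc (yy n) ≠ 0 := by
    have h := (map_ne_zero cc).2 (one_add_yy_ne_zero (n := n))
    rwa [map_add, map_one] at h
  have hu_y : S (Ψ (yy n)) = cc (yy n) * z / (1 + cc (yy n) * z) := by
    rw [hy, map_div₀, map_add, map_one, hSy]
  have hu_C : ∀ a, S (Ψ (incl θ (RatFunc.C a))) = cc (incl θ (RatFunc.C a)) := by
    intro a
    rw [hC]
    exact hS _
  have hu_X : S (Ψ (incl θ RatFunc.X)) =
      cc (incl θ RatFunc.X) * (1 + cc (yy n) * z) ^ N := by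
    rw [hX, map_mul, map_pow, map_add, map_one, hSy]
    congr 1
    exact hS _
  have hTy0 : T (yy n) = S (Ψ (yy n)) * ((1 - z) / z) := hT (Fin.last n)
  have hTy : T (yy n) = cc (yy n) * (1 - z) / (1 + cc (yy n) * z) := by
    rw [hTy0, hu_y]
    field_simp
  have hTy' : 1 + T (yy n) = (1 + cc (yy n)) / (1 + cc (yy n) * z) := by
    rw [hTy]
    field_simp
    ring
  have hTι : ∀ f, T (iota n f) = S (Ψ (iota n f)) := by
    intro f
    have : T.comp (iota n) = (S.comp Ψ).comp (iota n) := by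
      apply RF_hom_ext
      intro i
      have h1 := hT i.castSucc
      have h3 : (1 - z) / z ≠ 0 := div_ne_zero hz1 hz
      rw [AlgHom.comp_apply, AlgHom.comp_apply, AlgHom.comp_apply, iota_crd, map_div₀, h1, hTy0,
        mul_div_mul_right _ _ h3, map_div₀, map_div₀]
    exact DFunLike.congr_fun this f
  have key1 : T (Ψ (yy n)) = (1 - z) * cc (Ψ (yy n)) := by
    rw [hy, map_div₀, map_add, map_one, hTy', hTy, map_div₀, map_add, map_one]
    field_simp
  have key2 : ∀ f, T (Ψ (iota n f)) = cc (Ψ (iota n f)) := by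
    intro f
    have : (T.comp Ψ).comp (incl θ) = (cc.comp Ψ).comp (incl θ) := by
      apply ratFunc_hom_ext
      · intro a
        rw [AlgHom.comp_apply, AlgHom.comp_apply, AlgHom.comp_apply, AlgHom.comp_apply, hC]
        rw [show incl θ (RatFunc.C a) = iota n (θ (RatFunc.C a)) from rfl, hTι]
        exact hu_C a
      · rw [AlgHom.comp_apply, AlgHom.comp_apply, AlgHom.comp_apply, AlgHom.comp_apply, hX,
          map_mul, map_pow, map_add, map_one, hTy']
        have h1 : T (incl θ RatFunc.X) = cc (incl θ RatFunc.X) * (1 + cc (yy n) * z) ^ N := by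
          rw [show incl θ RatFunc.X = iota n (θ RatFunc.X) from rfl, hTι]
          exact hu_X
        rw [h1, mul_assoc, ← mul_pow, mul_div_cancel₀ _ d1, map_mul, map_pow, map_add, map_one]
    have h1 := DFunLike.congr_fun this (θ.symm f)
    rw [AlgHom.comp_apply, AlgHom.comp_apply, AlgHom.comp_apply, AlgHom.comp_apply,
      incl_symm] at h1
    exact h1
  refine Fin.lastCases ?_ ?_ i
  · exact key1
  · intro i
    rw [crd_castSucc, map_mul, map_mul, key1, key2, map_mul]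
    ring

end Alg

section Bdry

variable {K : Type} [Field K] [Algebra ℂ K]

/-- the boundary condition, algebraically -/
lemma boundary_calc {N : ℕ} {θ : RatFunc F ≃ₐ[ℂ] RF n}
    {Ψ : RF (n + 1) →ₐ[ℂ] RF (n + 1)}
    (hy : Ψ (yy n) = yy n / (1 + yy n))
    (hC : ∀ a, Ψ (incl θ (RatFunc.C a)) = incl θ (RatFunc.C a))
    (hX : Ψ (incl θ RatFunc.X) = incl θ RatFunc.X * (1 + yy n) ^ N)
    {S : RF (n + 1) →ₐ[ℂ] RatFunc K} {j : RF (n + 1) →ₐ[ℂ] K}
    (hSy : S (yy n) = RatFunc.C (j (yy n)) * RatFunc.X)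
    (hS : ∀ f, S (iota n f) = RatFunc.C (j (iota n f))) (i : Fin (n + 1)) :
    HasValueAt (S (Ψ (crd i)) / RatFunc.X) 0 (j (crd i)) := by
  have hz : (RatFunc.X : RatFunc K) ≠ 0 := RatFunc.X_ne_zero
  have d1 : 1 + RatFunc.C (j (yy n)) * RatFunc.X ≠ 0 := by
    have h := (map_ne_zero S).2 (one_add_yy_ne_zero (n := n))
    rwa [map_add, map_one, hSy] at h
  have hu_y : S (Ψ (yy n)) = RatFunc.C (j (yy n)) * RatFunc.X /
      (1 + RatFunc.C (j (yy n)) * RatFunc.X) := by
    rw [hy, map_div₀, map_add, map_one, hSy]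
  have hTι : ∀ f, HasValueAt (S (Ψ (iota n f))) 0 (j (iota n f)) := by
    intro f
    have h1 := hasValueAt_ratFunc (c := 0) (T := (S.comp Ψ).comp (incl θ))
      (G := j.comp (incl θ)) (by
        intro a
        change HasValueAt (S (Ψ (incl θ (RatFunc.C a)))) 0 (j (incl θ (RatFunc.C a)))
        rw [hC, incl_apply, hS]
        exact HasValueAt.C _ _) (by
        change HasValueAt (S (Ψ (incl θ RatFunc.X))) 0 (j (incl θ RatFunc.X))
        rw [hX, map_mul, map_pow, map_add, map_one, hSy, incl_apply, hS]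
        have := (HasValueAt.C 0 (j (iota n (θ RatFunc.X)))).mul
          (((HasValueAt.one (0 : K)).add ((HasValueAt.C 0 (j (yy n))).mul
            (HasValueAt.X 0))).pow N)
        rwa [mul_zero, add_zero, one_pow, mul_one] at this) (θ.symm f)
    have h2 : ((S.comp Ψ).comp (incl θ)) (θ.symm f) = S (Ψ (iota n f)) := by
      rw [AlgHom.comp_apply, AlgHom.comp_apply, incl_symm]
    have h3 : (j.comp (incl θ)) (θ.symm f) = j (iota n f) := by
      rw [AlgHom.comp_apply, incl_symm]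
    rw [h2, h3] at h1
    exact h1
  have hTy : HasValueAt (S (Ψ (yy n)) / RatFunc.X) 0 (j (yy n)) := by
    have h1 : S (Ψ (yy n)) / RatFunc.X =
        RatFunc.C (j (yy n)) / (1 + RatFunc.C (j (yy n)) * RatFunc.X) := by
      rw [hu_y]
      field_simp
    rw [h1]
    have := (HasValueAt.C 0 (j (yy n))).div ((HasValueAt.one (0 : K)).add
      ((HasValueAt.C 0 (j (yy n))).mul (HasValueAt.X 0))) (by
        rw [mul_zero, add_zero]; exact one_ne_zero)
    rwa [mul_zero, add_zero, div_one] at this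
  refine Fin.lastCases ?_ ?_ i
  · exact hTy
  · intro i
    rw [crd_castSucc, map_mul, map_mul, mul_div_assoc, map_mul]
    exact (hTι (crd i)).mul hTy

/-- the homomorphism of the point `φ(x z) (1 - z) / z` -/
lemma exists_T {k : ℕ} {Ψ : RF k →ₐ[ℂ] RF k} {S : RF k →ₐ[ℂ] RatFunc K}
    {G : ℂˣ → RF k →ₐ[ℂ] K}
    (hS : ∀ (t : ℂˣ) (f : RF k), HasValueAt (S f) (algebraMap ℂ K t) (G t f)) :
    ∃ T : RF k →ₐ[ℂ] RatFunc K, ∀ i, T (crd i) =
      S (Ψ (crd i)) * ((1 - RatFunc.X) / RatFunc.X) := by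
  set t : ℂˣ := Units.mk0 (1 / 2 : ℂ) (by norm_num) with ht
  have ht2 : algebraMap ℂ K (t : ℂ) ≠ 0 := FlowData.algebraMap_unit_ne_zero t
  apply exists_hom_of_value (c := algebraMap ℂ K t) (G := (G t).comp Ψ)
  intro i
  have h1 := (hS t (Ψ (crd i))).mul ((((HasValueAt.one (algebraMap ℂ K t)).sub
    (HasValueAt.X (algebraMap ℂ K t)))).div (HasValueAt.X (algebraMap ℂ K t)) ht2)
  have h3 : (1 - algebraMap ℂ K (t : ℂ)) / algebraMap ℂ K (t : ℂ) = 1 := by
    rw [div_eq_one_iff_eq ht2, ← map_one (algebraMap ℂ K), ← map_sub, ht, Units.val_mk0]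
    norm_num
  rw [h3, mul_one] at h1
  exact h1

lemma one_sub_X_ne_zero : (1 - RatFunc.X : RatFunc K) ≠ 0 := by
  intro h0
  have := (HasValueAt.one (0 : K)).sub (HasValueAt.X (0 : K))
  rw [h0, sub_zero] at this
  exact zero_ne_one ((HasValueAt.zero (0 : K)).unique this)

end Bdry

lemma scaleZ_yy : scaleZ (n + 1) (yy n) = RatFunc.C (yy n) * RatFunc.X := scaleZ_crd _

/-- attached maps are flows -/
theorem attached_flow {N : ℕ} {θ : RatFunc F ≃ₐ[ℂ] RF n} {φ : Fin (n + 1) → RF (n + 1)}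
    {Ψ : RF (n + 1) →ₐ[ℂ] RF (n + 1)} (hφ : ∀ i, Ψ (crd i) = φ i)
    (hy : Ψ (yy n) = yy n / (1 + yy n))
    (hC : ∀ a, Ψ (incl θ (RatFunc.C a)) = incl θ (RatFunc.C a))
    (hX : Ψ (incl θ RatFunc.X) = incl θ RatFunc.X * (1 + yy n) ^ N) : IsProjectiveFlow φ := by
  obtain rfl : (fun i => Ψ (crd i)) = φ := funext hφ
  refine ⟨fun i => scaleZ (n + 1) (Ψ (crd i)), fun i => EvalsTo.of_hom scaleZ_crd _, ?_, ?_⟩
  · obtain ⟨T, hT⟩ := exists_T (Ψ := Ψ) (S := scaleZ (n + 1)) (G := fun t => scaleC t)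
      (fun t f => value_scaleZ t f)
    intro i
    have h1 := EvalsTo.of_hom hT (Ψ (crd i))
    rw [translation_calc (cc := CC (RF (n + 1))) hy hC hX RatFunc.X_ne_zero one_sub_X_ne_zero
      scaleZ_yy (fun f => scaleZ_of_deg0 (fun t => scaleC_iota t f)) hT i] at h1
    exact h1
  · intro i
    exact boundary_calc (j := AlgHom.id ℂ (RF (n + 1))) hy hC hX scaleZ_yy
      (fun f => scaleZ_of_deg0 (fun t => scaleC_iota t f)) i

theorem IsAttached.isProjectiveFlow {N : ℕ} {θ : RatFunc F ≃ₐ[ℂ] RF n}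
    {φ : Fin (n + 1) → RF (n + 1)} (h : IsAttached N θ φ) : IsProjectiveFlow φ := by
  obtain ⟨Ψ, hΨ, hy, hC, hX⟩ := h.exists_hom
  exact attached_flow hΨ hy hC hX

/-- the identity is a flow -/
theorem isProjectiveFlow_id (k : ℕ) : IsProjectiveFlow (fun i => (crd i : RF k)) := by
  have hz : (RatFunc.X : RatFunc (RF k)) ≠ 0 := RatFunc.X_ne_zero
  refine ⟨xz k, fun i => EvalsTo.crd _ i, ?_, ?_⟩
  · intro i
    have := EvalsTo.crd (fun j => xz k j * ((1 - RatFunc.X) / RatFunc.X)) i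
    have h1 : xz k i * ((1 - RatFunc.X) / RatFunc.X) = (1 - RatFunc.X) * RatFunc.C (crd i) := by
      unfold xz
      field_simp
    rwa [h1] at this
  · intro i
    have h1 : xz k i / RatFunc.X = RatFunc.C (crd i) := by
      unfold xz
      field_simp
    rw [h1]
    exact HasValueAt.C _ _

end Pool.Agent.Lib.MP_956d6c_ag
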