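import Mathlib
import Pool.Agent.Lib.MP_956d6c_ag.AttachedFlow

/-!
# Invariants of attached flows; non-conjugacy
-/

set_option autoImplicit false
set_option linter.unusedSectionVars false

namespace Pool.Agent.Lib.MP_956d6c_ag

variable {n : ℕ} {F : Type} [Field F] [Algebra ℂ F]

/-- `1 + x_n` is transcendental over the elements of degree zero -/
lemma eq_zero_of_eval_one_add {P : Polynomial (RF n)}
    (h : P.eval₂ (iota n : RF n →+* RF (n + 1)) (1 + yy n) = 0) : P = 0 := by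
  have h1 : (P.comp (1 + Polynomial.X)) = 0 := by
    apply eq_zero_of_eval_yy
    rw [Polynomial.eval₂_comp, Polynomial.eval₂_add, Polynomial.eval₂_X, Polynomial.eval₂_one, h]
  have h2 : (P.comp (1 + Polynomial.X)).comp (Polynomial.X - 1) = P := by
    rw [Polynomial.comp_assoc, Polynomial.add_comp, Polynomial.X_comp, Polynomial.one_comp,
      add_sub_cancel, Polynomial.comp_X]
  rw [← h2, h1, Polynomial.zero_comp]

section Poly

/-- the polynomial `p(v Y^N)` -/
noncomputable def twist (N : ℕ) (θ : RatFunc F ≃ₐ[ℂ] RF n) (p : Polynomial F) :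
    Polynomial (RF n) :=
  Polynomial.expand (RF n) N
    ((p.map ((θ : RatFunc F →+* RF n).comp (RatFunc.C : F →+* RatFunc F))).comp
      (Polynomial.C (θ RatFunc.X) * Polynomial.X))

lemma twist_coeff {N : ℕ} (hN : 0 < N) (θ : RatFunc F ≃ₐ[ℂ] RF n) (p : Polynomial F) (k : ℕ) :
    (twist N θ p).coeff k = if N ∣ k then θ (RatFunc.C (p.coeff (k / N))) *
      θ RatFunc.X ^ (k / N) else 0 := by
  unfold twist
  rw [Polynomial.coeff_expand hN]
  split_ifs
  · rw [Polynomial.comp_C_mul_X_coeff, Polynomial.coeff_map]; rfl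
  · rfl

lemma twist_eval (N : ℕ) (θ : RatFunc F ≃ₐ[ℂ] RF n) {Ψ : RF (n + 1) →ₐ[ℂ] RF (n + 1)}
    (hC : ∀ a, Ψ (incl θ (RatFunc.C a)) = incl θ (RatFunc.C a))
    (hX : Ψ (incl θ RatFunc.X) = incl θ RatFunc.X * (1 + yy n) ^ N) (p : Polynomial F) :
    (twist N θ p).eval₂ (iota n : RF n →+* RF (n + 1)) (1 + yy n) =
      Ψ (incl θ (algebraMap _ (RatFunc F) p)) := by
  have h1 : (twist N θ p).eval₂ (iota n : RF n →+* RF (n + 1)) (1 + yy n) =
      p.eval₂ ((iota n : RF n →+* RF (n + 1)).comp ((θ : RatFunc F →+* RF n).comp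
        (RatFunc.C : F →+* RatFunc F))) (incl θ RatFunc.X * (1 + yy n) ^ N) := by
    unfold twist
    rw [Polynomial.expand_eq_comp_X_pow, Polynomial.eval₂_comp, Polynomial.eval₂_comp,
      Polynomial.eval₂_map, Polynomial.eval₂_mul, Polynomial.eval₂_C, Polynomial.eval₂_X,
      Polynomial.eval₂_pow, Polynomial.eval₂_X]
    rfl
  rw [h1]
  induction p using Polynomial.induction_on with
  | C a =>
    rw [Polynomial.eval₂_C, RatFunc.algebraMap_C, hC]; rfl
  | add p q hp hq =>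
    rw [Polynomial.eval₂_add, map_add, map_add, map_add]
    congr 1
    · apply hp
      unfold twist
      rw [Polynomial.expand_eq_comp_X_pow, Polynomial.eval₂_comp, Polynomial.eval₂_comp,
        Polynomial.eval₂_map, Polynomial.eval₂_mul, Polynomial.eval₂_C, Polynomial.eval₂_X,
        Polynomial.eval₂_pow, Polynomial.eval₂_X]
      rfl
    · apply hq
      unfold twist
      rw [Polynomial.expand_eq_comp_X_pow, Polynomial.eval₂_comp, Polynomial.eval₂_comp,
        Polynomial.eval₂_map, Polynomial.eval₂_mul, Polynomial.eval₂_C, Polynomial.eval₂_X,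
        Polynomial.eval₂_pow, Polynomial.eval₂_X]
      rfl
  | monomial k a hk =>
    rw [Polynomial.eval₂_mul, Polynomial.eval₂_C, Polynomial.eval₂_pow, Polynomial.eval₂_X,
      map_mul, map_mul, map_mul, map_pow, map_pow, map_pow, RatFunc.algebraMap_C,
      RatFunc.algebraMap_X, hC, hX]
    rfl

lemma twist_ne_zero (N : ℕ) (θ : RatFunc F ≃ₐ[ℂ] RF n) {Ψ : RF (n + 1) →ₐ[ℂ] RF (n + 1)}
    (hC : ∀ a, Ψ (incl θ (RatFunc.C a)) = incl θ (RatFunc.C a))
    (hX : Ψ (incl θ RatFunc.X) = incl θ RatFunc.X * (1 + yy n) ^ N) {p : Polynomial F}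
    (hp : p ≠ 0) : twist N θ p ≠ 0 := by
  intro h
  have := twist_eval N θ hC hX p
  rw [h, Polynomial.eval₂_zero] at this
  have h1 := (map_eq_zero (Ψ.comp (incl θ))).1 this.symm
  exact hp ((map_eq_zero_iff _ (RatFunc.algebraMap_injective F)).1 h1)

end Poly

/-- an element of degree `d` -/
lemma exists_of_degree {f : RF (n + 1)} {d : ℕ}
    (hd : ∀ t : ℂˣ, scaleC t f = algebraMap ℂ (RF (n + 1)) t ^ d * f) :
    ∃ g : RF n, f = iota n g * yy n ^ d := by
  obtain ⟨g, hg⟩ : ∃ g, iota n g = f / yy n ^ d := by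
    apply exists_iota_of_deg0
    intro t
    rw [map_div₀, map_pow, hd, scaleC_yy, mul_pow]
    have := pow_ne_zero d (FlowData.algebraMap_unit_ne_zero (K := RF (n + 1)) t)
    rw [mul_div_mul_left _ _ this]
  exact ⟨g, by rw [hg, div_mul_cancel₀ _ (pow_ne_zero _ yy_ne_zero)]⟩

/-- homogeneous invariants of an attached flow, nonnegative degree -/
theorem invariants_nat {N : ℕ} (hN : 0 < N) (θ : RatFunc F ≃ₐ[ℂ] RF n)
    {Ψ : RF (n + 1) →ₐ[ℂ] RF (n + 1)}
    (hy : Ψ (yy n) = yy n / (1 + yy n))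
    (hC : ∀ a, Ψ (incl θ (RatFunc.C a)) = incl θ (RatFunc.C a))
    (hX : Ψ (incl θ RatFunc.X) = incl θ RatFunc.X * (1 + yy n) ^ N) {f : RF (n + 1)}
    (hf : f ≠ 0) {d : ℕ} (hd : ∀ t : ℂˣ, scaleC t f = algebraMap ℂ (RF (n + 1)) t ^ d * f)
    (hfix : Ψ f = f) :
    ∃ (a : F) (e : ℕ), d = N * e ∧ f = incl θ (RatFunc.C a) * (incl θ RatFunc.X * yy n ^ N) ^ e := by
  obtain ⟨g, hg⟩ := exists_of_degree hd
  have hg' : iota n g = incl θ (θ.symm g) := (incl_symm θ g).symm
  set r := θ.symm g with hr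
  have hr0 : r ≠ 0 := by
    rintro h0
    rw [hg, hg', h0, map_zero, zero_mul] at hf
    exact hf rfl
  have hnum : r.num ≠ 0 := RatFunc.num_ne_zero hr0
  have hden : r.denom ≠ 0 := RatFunc.denom_ne_zero r
  have hrr : incl θ r = incl θ (algebraMap _ (RatFunc F) r.num) /
      incl θ (algebraMap _ (RatFunc F) r.denom) := by
    rw [← map_div₀, RatFunc.num_div_denom]
  have n1 : incl θ (algebraMap _ (RatFunc F) r.denom) ≠ 0 := by
    rw [Ne, map_eq_zero]
    exact RatFunc.algebraMap_ne_zero hden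
  have n2 : Ψ (incl θ (algebraMap _ (RatFunc F) r.denom)) ≠ 0 := by
    rwa [Ne, map_eq_zero]
  have n3 : yy n ≠ 0 := yy_ne_zero
  have n4 : 1 + yy n ≠ 0 := one_add_yy_ne_zero
  have key : Ψ (incl θ (algebraMap _ (RatFunc F) r.num)) *
      incl θ (algebraMap _ (RatFunc F) r.denom) =
      incl θ (algebraMap _ (RatFunc F) r.num) *
        (Ψ (incl θ (algebraMap _ (RatFunc F) r.denom)) * (1 + yy n) ^ d) := by
    have h1 := hfix
    rw [hg, hg', hrr, map_mul, map_div₀, map_pow, hy, div_pow] at h1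
    field_simp at h1
    linear_combination h1
  set P : Polynomial (RF n) := twist N θ r.num * Polynomial.C (θ (algebraMap _ _ r.denom)) -
    Polynomial.C (θ (algebraMap _ _ r.num)) * (twist N θ r.denom * Polynomial.X ^ d) with hP
  have hP0 : P = 0 := by
    apply eq_zero_of_eval_one_add
    rw [hP, Polynomial.eval₂_sub, Polynomial.eval₂_mul, Polynomial.eval₂_mul, Polynomial.eval₂_mul,
      Polynomial.eval₂_C, Polynomial.eval₂_C, Polynomial.eval₂_pow, Polynomial.eval₂_X,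
      twist_eval N θ hC hX, twist_eval N θ hC hX, sub_eq_zero]
    exact key
  obtain ⟨i, hi⟩ : ∃ i, r.num.coeff i ≠ 0 := by
    by_contra hcon
    push Not at hcon
    exact hnum (Polynomial.ext (by simpa using hcon))
  have hc := congrArg (fun R => R.coeff (N * i)) hP0
  simp only [hP, Polynomial.coeff_sub, Polynomial.coeff_mul_C, Polynomial.coeff_C_mul,
    Polynomial.coeff_mul_X_pow', Polynomial.coeff_zero] at hc
  rw [twist_coeff hN, if_pos (Dvd.intro i rfl), Nat.mul_div_cancel_left i hN] at hc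
  have hv : θ (RatFunc.X : RatFunc F) ≠ 0 := by
    rw [Ne, map_eq_zero]; exact RatFunc.X_ne_zero
  have hCi : ∀ a : F, a ≠ 0 → θ (RatFunc.C a) ≠ 0 := by
    intro a ha
    rw [Ne, map_eq_zero, map_eq_zero]; exact ha
  have hq : θ (algebraMap _ _ r.denom) ≠ 0 := by
    rw [Ne, map_eq_zero]; exact RatFunc.algebraMap_ne_zero hden
  have hlhs : θ (RatFunc.C (r.num.coeff i)) * θ RatFunc.X ^ i * θ (algebraMap _ _ r.denom) ≠ 0 :=
    mul_ne_zero (mul_ne_zero (hCi _ hi) (pow_ne_zero _ hv)) hq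
  by_cases hdi : d ≤ N * i
  · rw [if_pos hdi, twist_coeff hN] at hc
    by_cases hdvd : N ∣ N * i - d
    · rw [if_pos hdvd] at hc
      obtain ⟨j, hj⟩ := hdvd
      rw [hj, Nat.mul_div_cancel_left j hN] at hc
      have hij : j ≤ i := by
        by_contra hcon
        push Not at hcon
        have : N * i < N * j := Nat.mul_lt_mul_of_pos_left hcon hN
        omega
      have hde : d = N * (i - j) := by
        rw [Nat.mul_sub]
        omega
      have hqj : r.denom.coeff j ≠ 0 := by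
        intro h0
        rw [h0, map_zero, map_zero, zero_mul, mul_zero, sub_zero] at hc
        exact hlhs hc
      refine ⟨r.num.coeff i / r.denom.coeff j, i - j, hde, ?_⟩
      -- `r = (p_i / q_j) v ^ (i - j)`
      have hr1 : r = RatFunc.C (r.num.coeff i / r.denom.coeff j) * RatFunc.X ^ (i - j) := by
        apply θ.injective
        rw [← RatFunc.num_div_denom r, map_div₀, RatFunc.num_div_denom r, map_mul, map_pow,
          map_div₀, map_div₀]
        have h3 := hCi _ hqj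
        rw [div_mul_eq_mul_div, div_eq_div_iff hq h3]
        have h4 : θ RatFunc.X ^ i = θ RatFunc.X ^ j * θ (RatFunc.X : RatFunc F) ^ (i - j) := by
          rw [← pow_add]; congr 1; omega
        rw [h4] at hc
        have h5 : θ RatFunc.X ^ j * (θ (algebraMap _ _ r.num) * θ (RatFunc.C (r.denom.coeff j)) -
            θ (RatFunc.C (r.num.coeff i)) * θ (RatFunc.X : RatFunc F) ^ (i - j) *
              θ (algebraMap _ _ r.denom)) = 0 := by
          linear_combination -hc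
        rcases mul_eq_zero.1 h5 with h6 | h6
        · exact absurd h6 (pow_ne_zero _ hv)
        · exact sub_eq_zero.1 h6
      rw [hg, hg']
      conv_lhs => rw [hr1]
      rw [map_mul, map_pow, mul_pow, ← pow_mul, ← hde]
      ring
    · rw [if_neg hdvd, mul_zero, sub_zero] at hc
      exact absurd hc hlhs
  · rw [if_neg hdi, mul_zero, sub_zero] at hc
    exact absurd hc hlhs

/-- homogeneous invariants of an attached flow with `N = 0` have degree zero -/
theorem invariants_zero (θ : RatFunc F ≃ₐ[ℂ] RF n)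
    {Ψ : RF (n + 1) →ₐ[ℂ] RF (n + 1)}
    (hy : Ψ (yy n) = yy n / (1 + yy n))
    (hC : ∀ a, Ψ (incl θ (RatFunc.C a)) = incl θ (RatFunc.C a))
    (hX : Ψ (incl θ RatFunc.X) = incl θ RatFunc.X * (1 + yy n) ^ 0) {f : RF (n + 1)}
    (hf : f ≠ 0) {d : ℕ} (hd : ∀ t : ℂˣ, scaleC t f = algebraMap ℂ (RF (n + 1)) t ^ d * f)
    (hfix : Ψ f = f) : d = 0 := by
  obtain ⟨g, hg⟩ := exists_of_degree hd
  have h1 : Ψ (iota n g) = iota n g := by
    have : Ψ.comp (incl θ) = incl θ := by
      apply ratFunc_hom_ext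
      · exact hC
      · rw [pow_zero, mul_one] at hX
        exact hX
    have h2 := DFunLike.congr_fun this (θ.symm g)
    rwa [AlgHom.comp_apply, incl_symm] at h2
  have hg0 : iota n g ≠ 0 := by
    intro h0
    rw [hg, h0, zero_mul] at hf
    exact hf rfl
  have n3 : yy n ≠ 0 := yy_ne_zero
  have n4 : 1 + yy n ≠ 0 := one_add_yy_ne_zero
  have h2 : (1 + yy n) ^ d = 1 := by
    have h3 := hfix
    rw [hg, map_mul, map_pow, hy, h1, div_pow] at h3
    have h4 := mul_left_cancel₀ hg0 h3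
    rw [div_eq_iff (pow_ne_zero _ n4)] at h4
    have h5 : yy n ^ d * 1 = yy n ^ d * (1 + yy n) ^ d := by rw [mul_one]; exact h4
    exact (mul_left_cancel₀ (pow_ne_zero _ n3) h5).symm
  have h3 : (Polynomial.X ^ d - 1 : Polynomial (RF n)) = 0 := by
    apply eq_zero_of_eval_one_add
    rw [Polynomial.eval₂_sub, Polynomial.eval₂_pow, Polynomial.eval₂_X, Polynomial.eval₂_one, h2,
      sub_self]
  by_contra hd0
  have h4 := Polynomial.X_pow_sub_C_ne_zero (Nat.pos_of_ne_zero hd0) (1 : RF n)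
  rw [Polynomial.C_1] at h4
  exact h4 h3

/-- the basic invariant `v x_n ^ N` -/
lemma basic_invariant {N : ℕ} {θ : RatFunc F ≃ₐ[ℂ] RF n}
    {Ψ : RF (n + 1) →ₐ[ℂ] RF (n + 1)} (hy : Ψ (yy n) = yy n / (1 + yy n))
    (hX : Ψ (incl θ RatFunc.X) = incl θ RatFunc.X * (1 + yy n) ^ N) :
    Ψ (incl θ RatFunc.X * yy n ^ N) = incl θ RatFunc.X * yy n ^ N ∧
      incl θ RatFunc.X * yy n ^ N ≠ 0 ∧
      ∀ t : ℂˣ, scaleC t (incl θ RatFunc.X * yy n ^ N) =
        algebraMap ℂ (RF (n + 1)) t ^ N * (incl θ RatFunc.X * yy n ^ N) := by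
  have n4 : 1 + yy n ≠ 0 := one_add_yy_ne_zero
  refine ⟨?_, ?_, ?_⟩
  · rw [map_mul, map_pow, hX, hy, div_pow]
    field_simp
  · apply mul_ne_zero _ (pow_ne_zero _ yy_ne_zero)
    rw [Ne, map_eq_zero]; exact RatFunc.X_ne_zero
  · intro t
    rw [map_mul, map_pow, scaleC_incl, scaleC_yy]
    ring

section NonConj

variable {F' : Type} [Field F'] [Algebra ℂ F']

/-- half of the comparison -/
lemma compare {N N' : ℕ} (hN' : 0 < N') {θ : RatFunc F ≃ₐ[ℂ] RF n}
    {θ' : RatFunc F' ≃ₐ[ℂ] RF n}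
    {Ψ Ψ' : RF (n + 1) →ₐ[ℂ] RF (n + 1)} (hy : Ψ (yy n) = yy n / (1 + yy n))
    (hC : ∀ a, Ψ (incl θ (RatFunc.C a)) = incl θ (RatFunc.C a))
    (hX : Ψ (incl θ RatFunc.X) = incl θ RatFunc.X * (1 + yy n) ^ N)
    (hy' : Ψ' (yy n) = yy n / (1 + yy n))
    (hC' : ∀ a, Ψ' (incl θ' (RatFunc.C a)) = incl θ' (RatFunc.C a))
    (hX' : Ψ' (incl θ' RatFunc.X) = incl θ' RatFunc.X * (1 + yy n) ^ N')
    {Λ : RF (n + 1) ≃ₐ[ℂ] RF (n + 1)} (h1 : ∀ t f, Λ (scaleC t f) = scaleC t (Λ f))
    (h2 : ∀ f, Λ (Ψ f) = Ψ' (Λ f)) :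
    N' ∣ N ∧ ∀ a : F, ∃ a' : F', incl θ' (RatFunc.C a') = Λ (incl θ (RatFunc.C a)) := by
  obtain ⟨b1, b2, b3⟩ := basic_invariant hy hX
  constructor
  · obtain ⟨a, e, he, -⟩ := invariants_nat hN' θ' hy' hC' hX'
      (f := Λ (incl θ RatFunc.X * yy n ^ N)) (by rwa [Ne, map_eq_zero]) (d := N) (by
        intro t
        rw [← h1, b3, map_mul, map_pow, AlgEquiv.commutes]) (by rw [← h2, b1])
    exact ⟨e, he⟩
  · intro a
    by_cases ha : a = 0
    · exact ⟨0, by rw [ha, map_zero, map_zero, map_zero, map_zero, map_zero]⟩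
    obtain ⟨a', e, he, hea⟩ := invariants_nat hN' θ' hy' hC' hX'
      (f := Λ (incl θ (RatFunc.C a))) (by
        rw [Ne, map_eq_zero, map_eq_zero, map_eq_zero]; exact ha) (d := 0) (by
        intro t
        rw [← h1, scaleC_incl, pow_zero, one_mul]) (by rw [← h2, hC])
    have he0 : e = 0 := by
      rcases Nat.mul_eq_zero.1 he.symm with h | h
      · omega
      · exact h
    refine ⟨a', ?_⟩
    rw [hea, he0, pow_zero, mul_one]

/-- attached flows are conjugate iff their invariants agree -/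
theorem isConjugate_attached_iff {N N' : ℕ} (hN : 0 < N) (hN' : 0 < N')
    {θ : RatFunc F ≃ₐ[ℂ] RF n} {θ' : RatFunc F' ≃ₐ[ℂ] RF n}
    {φ φ' : Fin (n + 1) → RF (n + 1)} (h : IsAttached N θ φ) (h' : IsAttached N' θ' φ') :
    IsConjugate φ φ' ↔ N = N' ∧ Nonempty (F ≃ₐ[ℂ] F') := by
  obtain ⟨Ψ, hΨ, hy, hC, hX⟩ := h.exists_hom
  obtain ⟨Ψ', hΨ', hy', hC', hX'⟩ := h'.exists_hom
  rw [isConjugate_iff hΨ hΨ']
  constructor
  · rintro ⟨Λ, h1, h2⟩
    have h1' : ∀ t f, Λ.symm (scaleC t f) = scaleC t (Λ.symm f) := by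
      intro t f
      rw [AlgEquiv.symm_apply_eq, h1, AlgEquiv.apply_symm_apply]
    have h2' : ∀ f, Λ.symm (Ψ' f) = Ψ (Λ.symm f) := by
      intro f
      rw [AlgEquiv.symm_apply_eq, h2, AlgEquiv.apply_symm_apply]
    obtain ⟨d1, c1⟩ := compare hN' hy hC hX hy' hC' hX' h1 h2
    obtain ⟨d2, c2⟩ := compare hN hy' hC' hX' hy hC hX h1' h2'
    refine ⟨Nat.dvd_antisymm d2 d1, ?_⟩
    obtain ⟨e, -⟩ := exists_equiv_of_range
      (((Λ : RF (n + 1) →ₐ[ℂ] RF (n + 1)).comp (incl θ)).comp (CC F))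
      ((incl θ').comp (CC F')) (fun a => c1 a) (fun b => by
        obtain ⟨a, ha⟩ := c2 b
        refine ⟨a, ?_⟩
        change Λ (incl θ (RatFunc.C a)) = incl θ' (RatFunc.C b)
        rw [ha, AlgEquiv.apply_symm_apply])
    exact ⟨e⟩
  · rintro ⟨rfl, ⟨e⟩⟩
    have hX0 : ∀ (L : Type) [Field L] [Algebra ℂ L] (p : Polynomial L),
        p.eval₂ (CC L : L →+* RatFunc L) RatFunc.X = algebraMap _ (RatFunc L) p := by
      intro L _ _ p
      induction p using Polynomial.induction_on with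
      | C a => rw [Polynomial.eval₂_C, RatFunc.algebraMap_C]; rfl
      | add p q hp hq => rw [Polynomial.eval₂_add, hp, hq, map_add]
      | monomial k a hk =>
        rw [Polynomial.eval₂_mul, Polynomial.eval₂_C, Polynomial.eval₂_pow, Polynomial.eval₂_X,
          map_mul, map_pow, RatFunc.algebraMap_C, RatFunc.algebraMap_X]
        rfl
    have hmap : ∀ (A B : Type) [Field A] [Field B] [Algebra ℂ A] [Algebra ℂ B]
        (g : A ≃ₐ[ℂ] B), ∃ β : RatFunc A →ₐ[ℂ] RatFunc B,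
          (∀ a, β (RatFunc.C a) = RatFunc.C (g a)) ∧ β RatFunc.X = RatFunc.X := by
      intro A B _ _ _ _ g
      apply exists_ratFunc_hom ((CC B).comp (g : A →ₐ[ℂ] B)) RatFunc.X
      intro p hp
      have h3 : p.eval₂ ((((CC B).comp (g : A →ₐ[ℂ] B)) : A →ₐ[ℂ] RatFunc B) : A →+* RatFunc B)
          RatFunc.X = algebraMap _ (RatFunc B) (p.map (g : A →+* B)) := by
        rw [← hX0, Polynomial.eval₂_map]
        rfl
      rw [h3] at hp
      have h4 := (map_eq_zero_iff _ (RatFunc.algebraMap_injective B)).1 hp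
      exact (Polynomial.map_eq_zero _).1 h4
    obtain ⟨β, hβC, hβX⟩ := hmap F F' e
    obtain ⟨β', hβC', hβX'⟩ := hmap F' F e.symm
    let ε : RatFunc F ≃ₐ[ℂ] RatFunc F' := AlgEquiv.ofAlgHom β β'
      (by
        apply ratFunc_hom_ext
        · intro a
          rw [AlgHom.comp_apply, hβC', hβC, AlgEquiv.apply_symm_apply]; rfl
        · rw [AlgHom.comp_apply, hβX', hβX]; rfl)
      (by
        apply ratFunc_hom_ext
        · intro a
          rw [AlgHom.comp_apply, hβC, hβC', AlgEquiv.symm_apply_apply]; rfl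
        · rw [AlgHom.comp_apply, hβX, hβX']; rfl)
    have hεC : ∀ a, ε (RatFunc.C a) = RatFunc.C (e a) := hβC
    have hεX : ε RatFunc.X = RatFunc.X := hβX
    obtain ⟨Λ, hΛy, hΛι⟩ := exists_lam ((θ.symm.trans ε).trans θ') (one_ne_zero (α := RF n))
    rw [map_one, one_mul] at hΛy
    have hΛincl : ∀ r, Λ (incl θ r) = incl θ' (ε r) := by
      intro r
      rw [incl_apply, hΛι, AlgEquiv.trans_apply, AlgEquiv.trans_apply,
        AlgEquiv.symm_apply_apply, incl_apply]
    refine ⟨Λ, ?_, ?_⟩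
    · intro t f
      have : (Λ : RF (n + 1) →ₐ[ℂ] RF (n + 1)).comp (scaleC t) =
          (scaleC t).comp (Λ : RF (n + 1) →ₐ[ℂ] RF (n + 1)) := by
        apply RF_succ_hom_ext
        · intro f
          change Λ (scaleC t (iota n f)) = scaleC t (Λ (iota n f))
          rw [scaleC_iota, hΛι, scaleC_iota]
        · change Λ (scaleC t (yy n)) = scaleC t (Λ (yy n))
          rw [scaleC_yy, map_mul, AlgEquiv.commutes, hΛy, scaleC_yy]
      exact DFunLike.congr_fun this f
    · intro f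
      have : (Λ : RF (n + 1) →ₐ[ℂ] RF (n + 1)).comp Ψ =
          Ψ'.comp (Λ : RF (n + 1) →ₐ[ℂ] RF (n + 1)) := by
        apply incl_hom_ext θ
        · intro a
          change Λ (Ψ (incl θ (RatFunc.C a))) = Ψ' (Λ (incl θ (RatFunc.C a)))
          rw [hC, hΛincl, hεC, hC']
        · change Λ (Ψ (incl θ RatFunc.X)) = Ψ' (Λ (incl θ RatFunc.X))
          rw [hX, map_mul, map_pow, map_add, map_one, hΛy, hΛincl, hεX, hX']
        · change Λ (Ψ (yy n)) = Ψ' (Λ (yy n))
          rw [hy, hΛy, hy', map_div₀, map_add, map_one, hΛy]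
      exact DFunLike.congr_fun this f

/-- the flow with `N = 0` is not conjugate to one with `N > 0` -/
theorem not_isConjugate_zero {N : ℕ} (hN : 0 < N)
    {θ : RatFunc F ≃ₐ[ℂ] RF n} {θ' : RatFunc F' ≃ₐ[ℂ] RF n}
    {φ φ' : Fin (n + 1) → RF (n + 1)} (h : IsAttached 0 θ φ) (h' : IsAttached N θ' φ') :
    ¬ IsConjugate φ φ' ∧ ¬ IsConjugate φ' φ := by
  obtain ⟨Ψ, hΨ, hy, hC, hX⟩ := h.exists_hom
  obtain ⟨Ψ', hΨ', hy', hC', hX'⟩ := h'.exists_hom
  obtain ⟨b1, b2, b3⟩ := basic_invariant hy' hX'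
  constructor
  · rw [isConjugate_iff hΨ hΨ']
    rintro ⟨Λ, h1, h2⟩
    have := invariants_zero θ hy hC hX (f := Λ.symm (incl θ' RatFunc.X * yy n ^ N))
      (by rwa [Ne, map_eq_zero]) (d := N) (by
        intro t
        apply Λ.injective
        rw [h1, AlgEquiv.apply_symm_apply, b3, map_mul Λ, map_pow Λ, AlgEquiv.commutes,
          AlgEquiv.apply_symm_apply]) (by
        apply Λ.injective
        rw [h2, AlgEquiv.apply_symm_apply, b1])
    omega
  · rw [isConjugate_iff hΨ' hΨ]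
    rintro ⟨Λ, h1, h2⟩
    have := invariants_zero θ hy hC hX (f := Λ (incl θ' RatFunc.X * yy n ^ N))
      (by rwa [Ne, map_eq_zero]) (d := N) (by
        intro t
        rw [← h1, b3, map_mul, map_pow, AlgEquiv.commutes]) (by
        rw [← h2, b1])
    omega

/-- attached flows are not conjugate to the identity -/
theorem not_isConjugate_id {N : ℕ} {θ : RatFunc F ≃ₐ[ℂ] RF n}
    {φ : Fin (n + 1) → RF (n + 1)} (h : IsAttached N θ φ) :
    ¬ IsConjugate (fun i => crd i) φ ∧ ¬ IsConjugate φ (fun i => crd i) := by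
  obtain ⟨Ψ, hΨ, hy, hC, hX⟩ := h.exists_hom
  have n3 : yy n ≠ 0 := yy_ne_zero
  have n4 : 1 + yy n ≠ 0 := one_add_yy_ne_zero
  have hne : Ψ (yy n) ≠ yy n := by
    rw [hy]
    intro h0
    rw [div_eq_iff n4] at h0
    have : yy n * yy n = 0 := by linear_combination -h0
    exact n3 (mul_self_eq_zero.1 this)
  have hid : ∀ i, AlgHom.id ℂ (RF (n + 1)) (crd i) = (fun i => crd i : Fin (n + 1) →
    RF (n + 1)) i := fun _ => rfl
  constructor
  · rw [isConjugate_iff hid hΨ]
    rintro ⟨Λ, h1, h2⟩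
    apply hne
    have := h2 (Λ.symm (yy n))
    rw [AlgHom.id_apply, AlgEquiv.apply_symm_apply] at this
    exact this.symm
  · rw [isConjugate_iff hΨ hid]
    rintro ⟨Λ, h1, h2⟩
    apply hne
    have := h2 (yy n)
    rw [AlgHom.id_apply] at this
    exact Λ.injective this

end NonConj

end Pool.Agent.Lib.MP_956d6c_ag
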