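import Mathlib
import Pool.Agent.Lib.MP_956d6c_ag.Invariants

/-!
# The flows `φ_N`
-/

set_option autoImplicit false
set_option linter.unusedSectionVars false

namespace Pool.Agent.Lib.MP_956d6c_ag

/-- the hom `ℂ(t_0, …, t_m) → ℂ(t_1, …, t_m)(t_0)` -/
lemma exists_succ_hom (m : ℕ) : ∃ g : RF (m + 1) →ₐ[ℂ] RatFunc (RF m),
    g (crd 0) = RatFunc.X ∧ ∀ i : Fin m, g (crd i.succ) = RatFunc.C (crd i) := by
  set η : Fin (m + 1) → RatFunc (RF m) := Fin.cases RatFunc.X (fun i => RatFunc.C (crd i)) with hη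
  have hη0 : η 0 = RatFunc.X := by simp [hη]
  have hηs : ∀ i : Fin m, η i.succ = RatFunc.C (crd i) := fun i => by simp [hη]
  obtain ⟨g, hg⟩ := exists_hom_of_inj η (by
    intro p hp
    have h1 : ∀ q : MvPolynomial (Fin (m + 1)) ℂ, MvPolynomial.aeval η q =
        algebraMap (Polynomial (RF m)) (RatFunc (RF m))
          ((MvPolynomial.finSuccEquiv ℂ m q).map (algebraMap (MvPolynomial (Fin m) ℂ) (RF m))) := by
      intro q
      induction q using MvPolynomial.induction_on with
      | C a =>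
        rw [MvPolynomial.aeval_C, MvPolynomial.finSuccEquiv_apply, MvPolynomial.eval₂Hom_C,
          RingHom.comp_apply, Polynomial.map_C, RatFunc.algebraMap_C, algebraMap_C_RF]
        exact ratFunc_algebraMap a
      | add p q hp hq => rw [map_add, map_add, Polynomial.map_add, map_add, hp, hq]
      | mul_X p i hp =>
        rw [map_mul, map_mul, Polynomial.map_mul, map_mul, hp, MvPolynomial.aeval_X]
        congr 1
        refine Fin.cases ?_ ?_ i
        · rw [MvPolynomial.finSuccEquiv_X_zero, Polynomial.map_X, RatFunc.algebraMap_X, hη0]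
        · intro i
          rw [MvPolynomial.finSuccEquiv_X_succ, Polynomial.map_C, RatFunc.algebraMap_C, hηs]
          rfl
    rw [h1 p] at hp
    have h2 := (map_eq_zero_iff _ (RatFunc.algebraMap_injective (RF m))).1 hp
    have h3 := (Polynomial.map_eq_zero_iff (RF_inj (k := m))).1 h2
    exact (map_eq_zero_iff _ (MvPolynomial.finSuccEquiv ℂ m).injective).1 h3)
  exact ⟨g, by rw [hg, hη0], fun i => by rw [hg, hηs]⟩

/-- the standard isomorphism `ℂ(t_1, …, t_m)(v) ≃ ℂ(t_0, …, t_m)`, `v ↦ t_0` -/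
lemma exists_theta (m : ℕ) : ∃ θ : RatFunc (RF m) ≃ₐ[ℂ] RF (m + 1),
    θ RatFunc.X = crd 0 ∧ ∀ i : Fin m, θ (RatFunc.C (crd i)) = crd i.succ := by
  obtain ⟨g, h0, hs⟩ := exists_succ_hom m
  have hsurj : Function.Surjective g := by
    intro r
    have h1 : ∀ x : RF m, RatFunc.C x ∈ g.fieldRange := by
      intro x
      exact RF_top ((g.fieldRange).comap (CC (RF m))) (fun i => ⟨crd i.succ, hs i⟩) x
    exact ratFunc_top g.fieldRange h1 ⟨crd 0, h0⟩ r
  let e : RF (m + 1) ≃ₐ[ℂ] RatFunc (RF m) := AlgEquiv.ofBijective g ⟨g.injective, hsurj⟩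
  refine ⟨e.symm, ?_, ?_⟩
  · rw [AlgEquiv.symm_apply_eq]; exact h0.symm
  · intro i
    rw [AlgEquiv.symm_apply_eq]; exact (hs i).symm

/-- the standard isomorphism -/
noncomputable def thetaStd (m : ℕ) : RatFunc (RF m) ≃ₐ[ℂ] RF (m + 1) := (exists_theta m).choose

lemma thetaStd_X (m : ℕ) : thetaStd m RatFunc.X = crd 0 := (exists_theta m).choose_spec.1
lemma thetaStd_C (m : ℕ) (i : Fin m) : thetaStd m (RatFunc.C (crd i)) = crd i.succ :=
  (exists_theta m).choose_spec.2 i

/-- `φ_N` is attached to `(N, ℂ(t_1, …, t_m), t_0)` -/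
theorem isAttached_stdFlow (m N : ℕ) : IsAttached N (thetaStd m) (stdFlow m N) := by
  have n4 : 1 + yy (m + 1) ≠ 0 := one_add_yy_ne_zero
  have n3 : yy (m + 1) ≠ 0 := yy_ne_zero
  have hlast : stdFlow m N (Fin.last (m + 1)) = yy (m + 1) / (1 + yy (m + 1)) := by
    unfold stdFlow
    rw [if_neg]
    · rfl
    · intro h
      have := congrArg Fin.val h
      simp at this
  have e1 : EvalsTo (stdFlow m N) (yy (m + 1)) (yy (m + 1) / (1 + yy (m + 1))) := by
    rw [← hlast]
    exact EvalsTo.crd _ _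
  have ne : yy (m + 1) / (1 + yy (m + 1)) ≠ 0 := div_ne_zero n3 n4
  rw [isAttached_iff]
  refine ⟨hlast, ?_, ?_⟩
  · intro a
    refine evalsTo_RF (α := (incl (thetaStd m)).comp (CC (RF m)))
      (β := (incl (thetaStd m)).comp (CC (RF m))) ?_ a
    intro i
    change EvalsTo _ (incl (thetaStd m) (RatFunc.C (crd i))) (incl (thetaStd m) (RatFunc.C (crd i)))
    rw [incl_apply, thetaStd_C, iota_crd]
    have h1 : EvalsTo (stdFlow m N) (crd i.succ.castSucc) (crd i.succ.castSucc / (1 + yy (m + 1))) := by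
      have h2 : stdFlow m N i.succ.castSucc = crd i.succ.castSucc / (1 + yy (m + 1)) := by
        unfold stdFlow
        rw [if_neg]
        · rfl
        · intro h
          have := congrArg Fin.val h
          simp at this
      rw [← h2]
      exact EvalsTo.crd _ _
    have := h1.div e1 ne
    rwa [div_div_div_cancel_right₀ n4] at this
  · rw [incl_apply, thetaStd_X, iota_crd]
    have h1 : EvalsTo (stdFlow m N) (crd (0 : Fin (m + 1)).castSucc)
        (crd (0 : Fin (m + 1)).castSucc * (1 + yy (m + 1)) ^ ((N : ℤ) - 1)) := by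
      have h2 : stdFlow m N (0 : Fin (m + 1)).castSucc =
          crd (0 : Fin (m + 1)).castSucc * (1 + yy (m + 1)) ^ ((N : ℤ) - 1) := by
        unfold stdFlow
        rw [if_pos (Fin.castSucc_zero)]
        rfl
      rw [← h2]
      exact EvalsTo.crd _ _
    have := h1.div e1 ne
    rwa [zpow_sub_one₀ n4, zpow_natCast, show crd (0 : Fin (m + 1)).castSucc *
      ((1 + yy (m + 1)) ^ N * (1 + yy (m + 1))⁻¹) / (yy (m + 1) / (1 + yy (m + 1))) =
      crd (0 : Fin (m + 1)).castSucc / yy (m + 1) * (1 + yy (m + 1)) ^ N by field_simp] at this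

end Pool.Agent.Lib.MP_956d6c_ag
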