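import Mathlib
import Pool.Agent.Lib.MP_956d6c_ag.Std

/-!
# Classification of flows
-/

set_option autoImplicit false
set_option linter.unusedSectionVars false

namespace Pool.Agent.Lib.MP_956d6c_ag

variable {n : ℕ}

/-- `Λ` with `Λ y = ι γ y`, `Λ ι = ι` commutes with scalings -/
lemma lam_comm {Λ : RF (n + 1) ≃ₐ[ℂ] RF (n + 1)} {γ : RF n} {ρ : RF n → RF n}
    (h1 : Λ (yy n) = iota n γ * yy n) (h2 : ∀ f, Λ (iota n f) = iota n (ρ f)) (t : ℂˣ)
    (f : RF (n + 1)) : Λ (scaleC t f) = scaleC t (Λ f) := by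
  have : (Λ : RF (n + 1) →ₐ[ℂ] RF (n + 1)).comp (scaleC t) =
      (scaleC t).comp (Λ : RF (n + 1) →ₐ[ℂ] RF (n + 1)) := by
    apply RF_succ_hom_ext
    · intro f
      change Λ (scaleC t (iota n f)) = scaleC t (Λ (iota n f))
      rw [scaleC_iota, h2, scaleC_iota]
    · change Λ (scaleC t (yy n)) = scaleC t (Λ (yy n))
      rw [scaleC_yy, map_mul, AlgEquiv.commutes, h1, map_mul, scaleC_iota, scaleC_yy]
      ring
  exact DFunLike.congr_fun this f

/-- every flow is the identity, or conjugate to `x / (1 + x_n)`, or to an attached flow -/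
theorem classify {φ : Fin (n + 1) → RF (n + 1)} (h : IsProjectiveFlow φ) :
    φ = (fun i => crd i) ∨ IsConjugate φ (fun i => crd i / (1 + yy n)) ∨
      ∃ (N : ℕ) (F : Type) (_ : Field F) (_ : Algebra ℂ F) (θ : RatFunc F ≃ₐ[ℂ] RF n)
        (ψ : Fin (n + 1) → RF (n + 1)), 0 < N ∧ IsAttached N θ ψ ∧ IsConjugate φ ψ := by
  obtain ⟨Θ, hD, hF1, -⟩ := exists_flowData h
  by_cases hinv : ∀ i, Θ.IsInv (crd i)
  · left
    funext i
    rw [← hF1 i]
    exact hinv i 1
  right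
  push Not at hinv
  obtain ⟨i, hi⟩ := hinv
  have hhom : Θ.IsHomog 1 (crd i) := by
    intro t
    rw [hD, scaleC_crd, zpow_one]
  obtain ⟨s, hs, hsd⟩ := Θ.exists_slice hhom hi
  obtain ⟨N, w, hw0, hwi, hwh, hw1, hgen⟩ := Θ.structure_thm hs hsd
  have hs0 := Θ.slice_ne_zero hs
  have n3 : yy n ≠ 0 := yy_ne_zero
  have n4 : 1 + yy n ≠ 0 := one_add_yy_ne_zero
  have hdeg0 : ∀ f, f ∈ Θ.deg0 → ∃ g, iota n g = f := by
    intro f hf
    apply exists_iota_of_deg0
    intro t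
    rw [← hD]
    exact hf t
  have hdeg0' : ∀ g, iota n g ∈ Θ.deg0 := by
    intro g t
    rw [hD, scaleC_iota]
  obtain ⟨γ, hγ⟩ : ∃ γ, iota n γ = s * yy n := by
    apply hdeg0
    rw [← FlowData.isHomog_zero_iff]
    have hyy : Θ.IsHomog 1 (yy n) := by
      intro t
      rw [hD, scaleC_yy, zpow_one]
    have := hsd.mul hyy
    rwa [show (-1 : ℤ) + 1 = 0 by norm_num] at this
  have hγ0 : γ ≠ 0 := by
    rintro rfl
    rw [map_zero] at hγ
    exact mul_ne_zero hs0 n3 hγ.symm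
  obtain ⟨Λ, hΛy, hΛι'⟩ := exists_lam (AlgEquiv.refl : RF n ≃ₐ[ℂ] RF n) hγ0
  have hΛι : ∀ f, Λ (iota n f) = iota n f := hΛι'
  have hΛs : Λ s = (yy n)⁻¹ := by
    have h1 : s = iota n γ / yy n := by rw [hγ]; field_simp
    have h2 : iota n γ ≠ 0 := by rwa [Ne, map_eq_zero]
    rw [h1, map_div₀, hΛι, hΛy]
    field_simp
  have hsymy : Λ.symm (yy n) = s⁻¹ := by
    rw [AlgEquiv.symm_apply_eq, map_inv₀, hΛs, inv_inv]
  have hsymι : ∀ f, Λ.symm (iota n f) = iota n f := by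
    intro f
    rw [AlgEquiv.symm_apply_eq, hΛι]
  set Ψ : RF (n + 1) →ₐ[ℂ] RF (n + 1) :=
    ((Λ : RF (n + 1) →ₐ[ℂ] RF (n + 1)).comp (Θ.F 1)).comp
      (Λ.symm : RF (n + 1) →ₐ[ℂ] RF (n + 1)) with hΨ
  have hΨa : ∀ f, Ψ f = Λ (Θ.F 1 (Λ.symm f)) := fun _ => rfl
  have hs1 : Θ.F 1 s = s + 1 := by
    rw [hs 1, map_one]
  have hΨy : Ψ (yy n) = yy n / (1 + yy n) := by
    rw [hΨa, hsymy, map_inv₀, map_inv₀, hs1, map_add, map_one, hΛs]
    field_simp
  have hconj : IsConjugate φ (fun i => Ψ (crd i)) := by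
    rw [isConjugate_iff hF1 (fun _ => rfl)]
    refine ⟨Λ, lam_comm hΛy hΛι, ?_⟩
    intro f
    rw [hΨa, AlgEquiv.symm_apply_apply]
  have hvdeg : w * s ^ N ∈ Θ.deg0 := by
    rw [← FlowData.isHomog_zero_iff]
    have := hwh.mul (hsd.npow N)
    rwa [show (N : ℤ) + -1 * N = 0 by ring] at this
  obtain ⟨ν, hν⟩ := hdeg0 _ hvdeg
  have hΨv : Ψ (w * s ^ N) = w * s ^ N * (1 + yy n) ^ N := by
    have hw1' : Θ.F 1 w = w := hwi 1
    have hwΛ : Λ (w * s ^ N) = w * s ^ N := by rw [← hν, hΛι]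
    have hΛw : Λ w = w * s ^ N * yy n ^ N := by
      rw [map_mul, map_pow, hΛs, inv_pow] at hwΛ
      rw [← hwΛ]
      field_simp
    rw [hΨa, ← hν, hsymι, hν, map_mul, map_pow, hs1, hw1', map_mul, map_pow, map_add, map_one,
      hΛs, hΛw, mul_assoc, ← mul_pow]
    congr 2
    field_simp
  have hΨL : ∀ x, x ∈ Θ.L0 → Ψ x = x := by
    rintro x ⟨hx1, hx2⟩
    obtain ⟨g, rfl⟩ := hdeg0 x hx2
    have hfix : Θ.F 1 (iota n g) = iota n g := hx1 1
    rw [hΨa, hsymι, hfix, hΛι]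
  by_cases hN : N = 0
  · left
    subst hN
    have hw : w = 1 := hw1 rfl
    have hall : ∀ g, iota n g ∈ Θ.L0 := by
      intro g
      have h1 := hgen (iota n g) (hdeg0' g)
      have h2 : IntermediateField.adjoin ℂ ((Θ.L0 : Set (RF (n + 1))) ∪ {w * s ^ 0}) ≤ Θ.L0 := by
        rw [IntermediateField.adjoin_le_iff]
        rintro x (hx | hx)
        · exact hx
        · rw [Set.mem_singleton_iff.1 hx, hw, pow_zero, mul_one]
          exact Θ.L0.one_mem
      exact h2 h1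
    have hψ : (fun i => Ψ (crd i)) = (fun i => crd i / (1 + yy n)) := by
      funext i
      refine Fin.lastCases hΨy ?_ i
      intro i
      rw [crd_castSucc, map_mul, hΨy, hΨL _ (hall _)]
      field_simp
    rw [← hψ]
    exact hconj
  · right
    have hval : ∀ p : Polynomial Θ.L0,
        p.eval₂ (Θ.L0.val : Θ.L0 →+* RF (n + 1)) (w * s ^ N) = 0 → p = 0 := by
      intro p hp
      have h1 := Θ.poly_eq_zero_of_inv hs hw0 hwi hN (p := p.map (algebraMap Θ.L0 (RF (n + 1))))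
        (by
          intro i
          rw [Polynomial.coeff_map]
          exact (p.coeff i).2.1) (by
          rw [Polynomial.eval_map]
          exact hp)
      exact (Polynomial.map_eq_zero _).1 h1
    obtain ⟨β, hβC, hβX⟩ := exists_ratFunc_hom Θ.L0.val (w * s ^ N) hval
    have hβC' : ∀ a : Θ.L0, β (RatFunc.C a) = (a : RF (n + 1)) := hβC
    have r1 : ∀ r, ∃ g, iota n g = β r := by
      intro r
      have h1 : r ∈ ((iota n).fieldRange).comap β := by
        apply ratFunc_top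
        · intro a
          obtain ⟨g, hg⟩ := hdeg0 a a.2.2
          exact ⟨g, hg.trans (hβC' a).symm⟩
        · exact ⟨ν, hν.trans hβX.symm⟩
      exact h1
    have r2 : ∀ g, ∃ r, β r = iota n g := by
      intro g
      have h1 := hgen (iota n g) (hdeg0' g)
      have h2 : IntermediateField.adjoin ℂ ((Θ.L0 : Set (RF (n + 1))) ∪ {w * s ^ N}) ≤
          β.fieldRange := by
        rw [IntermediateField.adjoin_le_iff]
        rintro x (hx | hx)
        · exact ⟨RatFunc.C ⟨x, hx⟩, hβC' ⟨x, hx⟩⟩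
        · rw [Set.mem_singleton_iff.1 hx]
          exact ⟨RatFunc.X, hβX⟩
      exact h2 h1
    obtain ⟨θ, hθ⟩ := exists_equiv_of_range β (iota n) r1 r2
    refine ⟨N, Θ.L0, inferInstance, inferInstance, θ, fun i => Ψ (crd i), Nat.pos_of_ne_zero hN,
      ?_, hconj⟩
    apply isAttached_of_hom (fun _ => rfl) hΨy
    · intro a
      rw [incl_apply, hθ, hβC']
      exact hΨL _ a.2
    · rw [incl_apply, hθ, hβX, hΨv]

end Pool.Agent.Lib.MP_956d6c_ag
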