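import Mathlib
import Pool.Agent.Lib.MP_956d6c_ag.Classify

/-!
# Fields `L` with `L(v) ≃ ℂ(x, y)`
-/

set_option autoImplicit false
set_option linter.unusedSectionVars false

namespace Pool.Agent.Lib.MP_956d6c_ag

/-- `F ≃ F'` induces `F(X) ≃ F'(X)` -/
lemma ratFunc_congr {A B : Type} [Field A] [Field B] [Algebra ℂ A] [Algebra ℂ B]
    (e : A ≃ₐ[ℂ] B) : Nonempty (RatFunc A ≃ₐ[ℂ] RatFunc B) := by
  have hX0 : ∀ (L : Type) [Field L] [Algebra ℂ L] (p : Polynomial L),
      p.eval₂ (CC L : L →+* RatFunc L) RatFunc.X = algebraMap _ (RatFunc L) p := by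
    intro L _ _ p
    induction p using Polynomial.induction_on with
    | C a => rw [Polynomial.eval₂_C, RatFunc.algebraMap_C]; rfl
    | add p q hp hq => rw [Polynomial.eval₂_add, hp, hq, map_add]
    | monomial k a hk =>
      rw [Polynomial.eval₂_mul, Polynomial.eval₂_C, Polynomial.eval₂_pow, Polynomial.eval₂_X,
        map_mul, map_pow, RatFunc.algebraMap_C, RatFunc.algebraMap_X]
      rfl
  have hmap : ∀ (A B : Type) [Field A] [Field B] [Algebra ℂ A] [Algebra ℂ B]
      (g : A ≃ₐ[ℂ] B), ∃ β : RatFunc A →ₐ[ℂ] RatFunc B,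
        (∀ a, β (RatFunc.C a) = RatFunc.C (g a)) ∧ β RatFunc.X = RatFunc.X := by
    intro A B _ _ _ _ g
    apply exists_ratFunc_hom ((CC B).comp (g : A →ₐ[ℂ] B)) RatFunc.X
    intro p hp
    have h3 : p.eval₂ ((((CC B).comp (g : A →ₐ[ℂ] B)) : A →ₐ[ℂ] RatFunc B) : A →+* RatFunc B)
        RatFunc.X = algebraMap _ (RatFunc B) (p.map (g : A →+* B)) := by
      rw [← hX0, Polynomial.eval₂_map]
      rfl
    rw [h3] at hp
    have h4 := (map_eq_zero_iff _ (RatFunc.algebraMap_injective B)).1 hp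
    exact (Polynomial.map_eq_zero _).1 h4
  obtain ⟨β, hβC, hβX⟩ := hmap A B e
  obtain ⟨β', hβC', hβX'⟩ := hmap B A e.symm
  exact ⟨AlgEquiv.ofAlgHom β β'
    (by
      apply ratFunc_hom_ext
      · intro a
        rw [AlgHom.comp_apply, hβC', hβC, AlgEquiv.apply_symm_apply]; rfl
      · rw [AlgHom.comp_apply, hβX', hβX]; rfl)
    (by
      apply ratFunc_hom_ext
      · intro a
        rw [AlgHom.comp_apply, hβC, hβC', AlgEquiv.symm_apply_apply]; rfl
      · rw [AlgHom.comp_apply, hβX, hβX']; rfl)⟩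

/-- `RF 0 = ℂ` -/
lemma RF_zero_equiv : Nonempty (ℂ ≃ₐ[ℂ] RF 0) := by
  refine ⟨AlgEquiv.ofBijective (Algebra.ofId ℂ (RF 0)) ⟨(Algebra.ofId ℂ (RF 0)).injective, ?_⟩⟩
  intro f
  have := RF_top (⊥ : IntermediateField ℂ (RF 0)) (fun i => i.elim0) f
  rw [IntermediateField.mem_bot] at this
  exact this

/-- `ℂ(t) ≃ RF 1` -/
lemma RF_one_equiv : Nonempty (RatFunc ℂ ≃ₐ[ℂ] RF 1) := by
  obtain ⟨e⟩ := RF_zero_equiv
  obtain ⟨e'⟩ := ratFunc_congr e
  exact ⟨e'.trans (thetaStd 0)⟩

section Trdeg

open Algebra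

lemma trdeg_RF (k : ℕ) : trdeg ℂ (RF k) = k := by
  have h1 := trdeg_add_eq ℂ (MvPolynomial (Fin k) ℂ) (A := RF k)
  have h2 : trdeg (MvPolynomial (Fin k) ℂ) (RF k) = 0 := by
    have : Algebra.IsAlgebraic (MvPolynomial (Fin k) ℂ) (RF k) :=
      IsLocalization.isAlgebraic _ (nonZeroDivisors (MvPolynomial (Fin k) ℂ))
    exact trdeg_eq_zero
  rw [h2, add_zero, MvPolynomial.trdeg_of_isDomain] at h1
  rw [← h1]
  simp

lemma trdeg_ratFunc (L : Type) [Field L] [Algebra ℂ L] :
    trdeg ℂ (RatFunc L) = trdeg ℂ L + 1 := by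
  have h1 := trdeg_add_eq L (Polynomial L) (A := RatFunc L)
  have h2 : trdeg (Polynomial L) (RatFunc L) = 0 := by
    have : Algebra.IsAlgebraic (Polynomial L) (RatFunc L) :=
      IsLocalization.isAlgebraic _ (nonZeroDivisors (Polynomial L))
    exact trdeg_eq_zero
  rw [h2, add_zero, Polynomial.trdeg_of_isDomain] at h1
  have h3 := trdeg_add_eq ℂ L (A := RatFunc L)
  rw [← h1] at h3
  exact h3.symm

end Trdeg

section Line

/-- points separated by a nonconstant rational function -/
lemma exists_points {k : ℕ} {p q : MvPolynomial (Fin k) ℂ} (hq : q ≠ 0)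
    (h : ∀ c : ℂ, p ≠ MvPolynomial.C c * q) :
    ∃ a b : Fin k → ℂ, MvPolynomial.aeval a q ≠ 0 ∧ MvPolynomial.aeval b q ≠ 0 ∧
      MvPolynomial.aeval a p / MvPolynomial.aeval a q ≠
        MvPolynomial.aeval b p / MvPolynomial.aeval b q := by
  by_contra hcon
  push Not at hcon
  obtain ⟨b, hb⟩ : ∃ b : Fin k → ℂ, MvPolynomial.aeval b q ≠ 0 := by
    by_contra hcon'
    push Not at hcon'
    apply hq
    apply MvPolynomial.funext
    intro b
    rw [map_zero]
    exact hcon' b
  have h1 : q * (p - MvPolynomial.C (MvPolynomial.aeval b p / MvPolynomial.aeval b q) * q) = 0 := by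
    apply MvPolynomial.funext
    intro a
    rw [map_zero]
    change MvPolynomial.aeval a _ = (0 : ℂ)
    rw [map_mul, map_sub, map_mul, MvPolynomial.aeval_C]
    by_cases ha : MvPolynomial.aeval a q = 0
    · rw [ha, zero_mul]
    · have h2 := hcon a b ha hb
      rw [← h2]
      simp only [Algebra.algebraMap_self, RingHom.id_apply]
      field_simp
      ring
  rcases mul_eq_zero.1 h1 with h2 | h2
  · exact hq h2
  · exact h _ (sub_eq_zero.1 h2)

/-- a nonconstant rational function is nonconstant on some line -/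
lemma exists_line {k : ℕ} {r : RF k} (hr : ∀ c : ℂ, r ≠ algebraMap ℂ (RF k) c) :
    ∃ (η : Fin k → RatFunc ℂ) (e : RatFunc ℂ), EvalsTo η r e ∧ Transcendental ℂ e := by
  obtain ⟨p, q, hq, rfl⟩ := IsFractionRing.div_surjective (MvPolynomial (Fin k) ℂ) r
  have hq0 : q ≠ 0 := nonZeroDivisors.ne_zero hq
  have hq1 : algebraMap _ (RF k) q ≠ 0 := by
    rwa [Ne, map_eq_zero_iff _ RF_inj]
  obtain ⟨a, b, ha, hb, hab⟩ := exists_points (p := p) hq0 (by
    rintro c rfl
    apply hr c
    rw [map_mul, algebraMap_C_RF, mul_div_cancel_right₀ _ hq1])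
  set η : Fin k → RatFunc ℂ := fun i => RatFunc.C (a i) + RatFunc.X * RatFunc.C (b i - a i) with hη
  have h0 : ∀ i, HasValueAt (η i) 0 (a i) := by
    intro i
    have := (HasValueAt.C (0 : ℂ) (a i)).add ((HasValueAt.X (0 : ℂ)).mul
      (HasValueAt.C (0 : ℂ) (b i - a i)))
    rwa [zero_mul, add_zero] at this
  have h1 : ∀ i, HasValueAt (η i) 1 (b i) := by
    intro i
    have := (HasValueAt.C (1 : ℂ) (a i)).add ((HasValueAt.X (1 : ℂ)).mul
      (HasValueAt.C (1 : ℂ) (b i - a i)))
    rwa [one_mul, add_sub_cancel] at this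
  have hqη : MvPolynomial.aeval η q ≠ 0 := by
    intro h2
    have h3 := HasValueAt.aeval h0 q
    rw [h2] at h3
    exact ha ((HasValueAt.zero (0 : ℂ)).unique h3).symm
  refine ⟨η, MvPolynomial.aeval η p / MvPolynomial.aeval η q, ⟨p, q, hqη, rfl, rfl⟩, ?_⟩
  apply RatFunc.transcendental_of_ne_C
  rintro ⟨c, hc⟩
  have e0 := (HasValueAt.aeval h0 p).div (HasValueAt.aeval h0 q) ha
  have e1 := (HasValueAt.aeval h1 p).div (HasValueAt.aeval h1 q) hb
  rw [hc] at e0 e1
  have f0 := e0.unique (HasValueAt.C _ _)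
  have f1 := e1.unique (HasValueAt.C _ _)
  exact hab (f0.trans f1.symm)

/-- elements algebraic over a ring of functions which are regular at `η` and do not vanish there
are regular at `η` -/
lemma regular_of_algebraic {k : ℕ} {E : Type} [Field E] [Algebra ℂ E] {η : Fin k → E}
    {f : RF k} {m : ℕ} {a : ℕ → RF k} {v : ℕ → E} (ha : ∀ i, EvalsTo η (a i) (v i))
    (hm : v m ≠ 0) (hf : ∑ i ∈ Finset.range (m + 1), a i * f ^ i = 0) :
    ∃ e, EvalsTo η f e := by
  choose p q hq hpq hv using ha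
  set β : MvPolynomial (Fin k) ℂ := ∏ i ∈ Finset.range (m + 1), q i with hβ
  have hβ0 : MvPolynomial.aeval η β ≠ 0 := by
    rw [hβ, map_prod]
    exact Finset.prod_ne_zero_iff.2 (fun i _ => hq i)
  set α : ℕ → MvPolynomial (Fin k) ℂ := fun i =>
    p i * ∏ l ∈ (Finset.range (m + 1)).erase i, q l with hα
  have hαβ : ∀ i ∈ Finset.range (m + 1), algebraMap _ (RF k) (α i) =
      a i * algebraMap _ (RF k) β := by
    intro i hi
    have hqi : algebraMap _ (RF k) (q i) ≠ 0 := EvalsTo.ne_den (hq i)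
    rw [hα, hβ, ← Finset.mul_prod_erase _ _ hi, hpq i]
    simp only [map_mul]
    field_simp
  have hαη : MvPolynomial.aeval η (α m) ≠ 0 := by
    have hmm : m ∈ Finset.range (m + 1) := Finset.self_mem_range_succ m
    rw [hα]
    simp only [map_mul, map_prod]
    apply mul_ne_zero
    · intro h0
      rw [hv m, h0, zero_div] at hm
      exact hm rfl
    · exact Finset.prod_ne_zero_iff.2 (fun i _ => hq i)
  set Q : Polynomial (MvPolynomial (Fin k) ℂ) := ∑ i ∈ Finset.range (m + 1),
    Polynomial.monomial i (α i) with hQ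
  have hcoeff : Q.coeff m = α m := by
    rw [hQ, Polynomial.finsetSum_coeff, Finset.sum_eq_single m]
    · rw [Polynomial.coeff_monomial, if_pos rfl]
    · intro i _ hi
      rw [Polynomial.coeff_monomial, if_neg hi]
    · intro h0
      exact absurd (Finset.self_mem_range_succ m) h0
  have hαm : α m ≠ 0 := by
    intro h0
    rw [h0, map_zero] at hαη
    exact hαη rfl
  have hdeg : Q.natDegree = m := by
    apply le_antisymm
    · rw [hQ]
      apply Polynomial.natDegree_sum_le_of_forall_le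
      intro i hi
      exact (Polynomial.natDegree_monomial_le _).trans (Nat.lt_succ_iff.1 (Finset.mem_range.1 hi))
    · apply Polynomial.le_natDegree_of_ne_zero
      rw [hcoeff]
      exact hαm
  have hlead : Q.leadingCoeff = α m := by
    rw [Polynomial.leadingCoeff, hdeg, hcoeff]
  have hroot : Polynomial.aeval f Q = 0 := by
    rw [hQ, map_sum]
    have : ∀ i ∈ Finset.range (m + 1), Polynomial.aeval f (Polynomial.monomial i (α i)) =
        algebraMap _ (RF k) β * (a i * f ^ i) := by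
      intro i hi
      rw [Polynomial.aeval_monomial, hαβ i hi]
      ring
    rw [Finset.sum_congr rfl this, ← Finset.mul_sum, hf, mul_zero]
  have hdvd := den_dvd_of_is_root hroot
  rw [hlead] at hdvd
  have hden : MvPolynomial.aeval η (IsFractionRing.den (MvPolynomial (Fin k) ℂ) f :
      MvPolynomial (Fin k) ℂ) ≠ 0 := by
    intro h0
    obtain ⟨c, hc⟩ := hdvd
    rw [hc, map_mul, h0, zero_mul] at hαη
    exact hαη rfl
  exact ⟨_, _, _, hden, (IsFractionRing.mk'_num_den' (MvPolynomial (Fin k) ℂ) f).symm, rfl⟩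

end Line

/-- subfields of transcendence degree one of `ℂ(x_1, …, x_k)` embed in `ℂ(t)` -/
theorem embeds {k : ℕ} {L : Type} [Field L] [Algebra ℂ L] (j : L →ₐ[ℂ] RF k) {r : L}
    (hr : Transcendental ℂ r) (halg : Algebra.IsAlgebraic (Algebra.adjoin ℂ {r}) L) :
    ∃ h : L →ₐ[ℂ] RatFunc ℂ, Transcendental ℂ (h r) := by
  have hjr : ∀ c : ℂ, j r ≠ algebraMap ℂ (RF k) c := by
    intro c hc
    rw [← AlgHom.commutes j c] at hc
    have := j.injective hc
    rw [this] at hr
    exact hr (isAlgebraic_algebraMap c)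
  obtain ⟨η, e, he, htr⟩ := exists_line hjr
  -- polynomials in `r`
  have hpoly : ∀ T : Polynomial ℂ, EvalsTo η (j (Polynomial.aeval r T)) (Polynomial.aeval e T) := by
    intro T
    induction T using Polynomial.induction_on with
    | C a =>
      rw [Polynomial.aeval_C, Polynomial.aeval_C, AlgHom.commutes]
      exact EvalsTo.const η a
    | add p q hp hq => rw [map_add, map_add, map_add]; exact hp.add hq
    | monomial n a hn =>
      rw [map_mul, map_mul, map_mul, map_pow, map_pow, map_pow, Polynomial.aeval_X,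
        Polynomial.aeval_X, Polynomial.aeval_C, Polynomial.aeval_C, AlgHom.commutes]
      exact (EvalsTo.const η a).mul (he.pow _)
  have hreg : ∀ x : L, ∃ v, EvalsTo η (j x) v := by
    intro x
    obtain ⟨P, hP, hPx⟩ := halg.isAlgebraic x
    have hT : ∀ i, ∃ T : Polynomial ℂ, Polynomial.aeval r T = (P.coeff i : L) := by
      intro i
      exact (Algebra.adjoin_singleton_eq_range_aeval ℂ r).le (P.coeff i).2
    choose T hT using hT
    apply regular_of_algebraic (m := P.natDegree) (a := fun i => j (P.coeff i : L))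
      (v := fun i => Polynomial.aeval e (T i))
    · intro i
      rw [← hT i]
      exact hpoly _
    · intro h0
      have h1 : T P.natDegree = 0 := by
        by_contra hne
        exact htr ⟨_, hne, h0⟩
      have h2 := hT P.natDegree
      rw [h1, map_zero] at h2
      have h3 : P.leadingCoeff = 0 := Subtype.ext h2.symm
      exact hP (Polynomial.leadingCoeff_eq_zero.1 h3)
    · rw [Polynomial.aeval_eq_sum_range] at hPx
      have := congrArg j hPx
      rw [map_zero, map_sum] at this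
      rw [← this]
      apply Finset.sum_congr rfl
      intro i _
      rw [Algebra.smul_def, map_mul, map_pow]
      rfl
  choose h hh using hreg
  let H : L →ₐ[ℂ] RatFunc ℂ :=
    { toFun := h
      map_one' := (hh 1).unique (by rw [map_one]; exact EvalsTo.one η)
      map_mul' := fun x y => (hh (x * y)).unique (by rw [map_mul]; exact (hh x).mul (hh y))
      map_zero' := (hh 0).unique (by rw [map_zero]; exact EvalsTo.zero η)
      map_add' := fun x y => (hh (x + y)).unique (by rw [map_add]; exact (hh x).add (hh y))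
      commutes' := fun c => (hh _).unique (by rw [AlgHom.commutes]; exact EvalsTo.const η c) }
  refine ⟨H, ?_⟩
  have : H r = e := (hh r).unique he
  rw [this]
  exact htr

/-- Lüroth: if `L(v) ≃ ℂ(x, y)` then `L ≃ ℂ(t)` -/
theorem luroth_cancel (L : Type) [Field L] [Algebra ℂ L] (e : RatFunc L ≃ₐ[ℂ] RF 2) :
    Nonempty (L ≃ₐ[ℂ] RF 1) := by
  have htr : Algebra.trdeg ℂ L = 1 := by
    have h1 := e.trdeg_eq
    rw [trdeg_RF, trdeg_ratFunc] at h1
    have h2 : Algebra.trdeg ℂ L + 1 = 1 + 1 := by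
      rw [h1]; norm_num
    exact Cardinal.add_one_inj.1 h2
  obtain ⟨s, hs⟩ := exists_isTranscendenceBasis ℂ L
  have hcard : Cardinal.mk s = 1 := by rw [hs.cardinalMk_eq_trdeg, htr]
  obtain ⟨hsub, ⟨⟨r, hrs⟩⟩⟩ := Cardinal.eq_one_iff_unique.1 hcard
  have hrange : Set.range ((↑) : s → L) = {r} := by
    rw [Subtype.range_coe]
    ext x
    constructor
    · intro hx
      have := hsub.elim ⟨x, hx⟩ ⟨r, hrs⟩
      exact congrArg Subtype.val this
    · rintro rfl
      exact hrs
  have halg : Algebra.IsAlgebraic (Algebra.adjoin ℂ {r}) L := by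
    have := hs.isAlgebraic
    rw [hrange] at this
    exact this
  have hr : Transcendental ℂ r := by
    have := hs.1.transcendental ⟨r, hrs⟩
    exact this
  obtain ⟨h, hh⟩ := embeds ((e : RatFunc L →ₐ[ℂ] RF 2).comp (CC L)) hr halg
  have hne : h.fieldRange ≠ ⊥ := by
    intro hbot
    have h1 : h r ∈ h.fieldRange := ⟨r, rfl⟩
    rw [hbot, IntermediateField.mem_bot] at h1
    obtain ⟨c, hc⟩ := h1
    rw [← hc] at hh
    exact hh (isAlgebraic_algebraMap c)
  obtain ⟨e1⟩ := RF_one_equiv
  have e2 : L ≃ₐ[ℂ] h.fieldRange := AlgEquiv.ofInjectiveField h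
  exact ⟨(e2.trans (RatFunc.Luroth.algEquiv hne).symm).trans e1⟩

end Pool.Agent.Lib.MP_956d6c_ag
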