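import Mathlib
import Pool.Agent.Lib.MP_956d6c_ag.Luroth

/-!
# Assembly of the classification
-/

set_option autoImplicit false
set_option linter.unusedSectionVars false

namespace Pool.Agent.Lib.MP_956d6c_ag

section Equiv

variable {k : ℕ}

lemma IsProjectiveFlow.exists_hom {φ : Fin k → RF k} (h : IsProjectiveFlow φ) :
    ∃ Φ : RF k →ₐ[ℂ] RF k, ∀ i, Φ (crd i) = φ i := by
  obtain ⟨Φ, T, hΦ, -⟩ := exists_pullback h
  exact ⟨Φ, hΦ⟩

theorem conj_refl {φ : Fin k → RF k} (h : IsProjectiveFlow φ) : IsConjugate φ φ := by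
  obtain ⟨Φ, hΦ⟩ := h.exists_hom
  rw [isConjugate_iff hΦ hΦ]
  exact ⟨AlgEquiv.refl, fun _ _ => rfl, fun _ => rfl⟩

theorem conj_symm {φ ψ : Fin k → RF k} (h : IsProjectiveFlow φ) (h' : IsProjectiveFlow ψ)
    (hc : IsConjugate φ ψ) : IsConjugate ψ φ := by
  obtain ⟨Φ, hΦ⟩ := h.exists_hom
  obtain ⟨Ψ, hΨ⟩ := h'.exists_hom
  rw [isConjugate_iff hΦ hΨ] at hc
  rw [isConjugate_iff hΨ hΦ]
  obtain ⟨Λ, h1, h2⟩ := hc
  refine ⟨Λ.symm, ?_, ?_⟩
  · intro t f
    rw [AlgEquiv.symm_apply_eq, h1, AlgEquiv.apply_symm_apply]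
  · intro f
    rw [AlgEquiv.symm_apply_eq, h2, AlgEquiv.apply_symm_apply]

theorem conj_trans {φ ψ χ : Fin k → RF k} (h : IsProjectiveFlow φ) (h' : IsProjectiveFlow ψ)
    (h'' : IsProjectiveFlow χ) (hc : IsConjugate φ ψ) (hc' : IsConjugate ψ χ) :
    IsConjugate φ χ := by
  obtain ⟨Φ, hΦ⟩ := h.exists_hom
  obtain ⟨Ψ, hΨ⟩ := h'.exists_hom
  obtain ⟨X, hX⟩ := h''.exists_hom
  rw [isConjugate_iff hΦ hΨ] at hc
  rw [isConjugate_iff hΨ hX] at hc'
  rw [isConjugate_iff hΦ hX]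
  obtain ⟨Λ, h1, h2⟩ := hc
  obtain ⟨Λ', h1', h2'⟩ := hc'
  refine ⟨Λ.trans Λ', ?_, ?_⟩
  · intro t f
    rw [AlgEquiv.trans_apply, AlgEquiv.trans_apply, h1, h1']
  · intro f
    rw [AlgEquiv.trans_apply, AlgEquiv.trans_apply, h2, h2']

end Equiv

section Std

variable {m : ℕ}

lemma stdFlow_zero : (fun i => crd i / (1 + yy (m + 1))) = stdFlow m 0 := by
  funext i
  unfold stdFlow
  by_cases hi : i = 0
  · rw [if_pos hi, hi]
    rw [Nat.cast_zero, zero_sub, zpow_neg, zpow_one, div_eq_mul_inv]; rfl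
  · rw [if_neg hi]; rfl

theorem stdFlow_flow (N : ℕ) : IsProjectiveFlow (stdFlow m N) :=
  (isAttached_stdFlow m N).isProjectiveFlow

/-- the classification of flows -/
theorem classify' {φ : Fin (m + 2) → RF (m + 2)} (h : IsProjectiveFlow φ) :
    φ = idFlow (m + 2) ∨ IsConjugate φ (stdFlow m 0) ∨
      ∃ (N : ℕ) (F : Type) (_ : Field F) (_ : Algebra ℂ F) (θ : RatFunc F ≃ₐ[ℂ] RF (m + 1))
        (ψ : Fin (m + 2) → RF (m + 2)), 1 ≤ N ∧ IsAttached N θ ψ ∧ IsConjugate φ ψ := by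
  rcases classify h with h1 | h1 | ⟨N, F, i1, i2, θ, ψ, hN, h2, h3⟩
  · exact Or.inl h1
  · rw [stdFlow_zero] at h1
    exact Or.inr (Or.inl h1)
  · exact Or.inr (Or.inr ⟨N, F, i1, i2, θ, ψ, hN, h2, h3⟩)

/-- conjugacy of the flows `φ_N` -/
theorem stdFlow_conj_iff (N M : ℕ) : IsConjugate (stdFlow m N) (stdFlow m M) ↔ N = M := by
  constructor
  · intro h
    rcases Nat.eq_zero_or_pos N with hN | hN
    · rcases Nat.eq_zero_or_pos M with hM | hM
      · rw [hN, hM]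
      · rw [hN] at h
        exact absurd h (not_isConjugate_zero hM (isAttached_stdFlow m 0)
          (isAttached_stdFlow m M)).1
    · rcases Nat.eq_zero_or_pos M with hM | hM
      · rw [hM] at h
        exact absurd h (not_isConjugate_zero hN (isAttached_stdFlow m 0)
          (isAttached_stdFlow m N)).2
      · exact ((isConjugate_attached_iff hN hM (isAttached_stdFlow m N)
          (isAttached_stdFlow m M)).1 h).1
  · rintro rfl
    exact conj_refl (stdFlow_flow N)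

/-- the explicit list is complete when `F(v) ≃ ℂ(t_0, …, t_m)` implies `F ≃ ℂ(t_1, …, t_m)` -/
theorem explicit_of_cancel
    (hcan : ∀ (F : Type) [Field F] [Algebra ℂ F], Nonempty (RatFunc F ≃ₐ[ℂ] RF (m + 1)) →
      Nonempty (F ≃ₐ[ℂ] RF m)) {φ : Fin (m + 2) → RF (m + 2)} (h : IsProjectiveFlow φ) :
    φ = idFlow (m + 2) ∨ ∃ N, IsConjugate φ (stdFlow m N) := by
  rcases classify' h with h1 | h1 | ⟨N, F, i1, i2, θ, ψ, hN, h2, h3⟩
  · exact Or.inl h1
  · exact Or.inr ⟨0, h1⟩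
  · obtain ⟨e⟩ := hcan F ⟨θ⟩
    right
    refine ⟨N, conj_trans h h2.isProjectiveFlow (stdFlow_flow N) h3 ?_⟩
    rw [isConjugate_attached_iff hN hN h2 (isAttached_stdFlow m N)]
    exact ⟨rfl, ⟨e⟩⟩

theorem cancel_of_explicit
    (hex : ∀ φ : Fin (m + 2) → RF (m + 2), IsProjectiveFlow φ →
      φ = idFlow (m + 2) ∨ ∃ N, IsConjugate φ (stdFlow m N))
    (F : Type) [Field F] [Algebra ℂ F] (θ : RatFunc F ≃ₐ[ℂ] RF (m + 1)) :
    Nonempty (F ≃ₐ[ℂ] RF m) := by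
  obtain ⟨ψ, hψ, -⟩ := existsUnique_isAttached 1 θ
  rcases hex ψ hψ.isProjectiveFlow with h1 | ⟨N, h1⟩
  · exfalso
    apply (not_isConjugate_id hψ).2
    rw [h1]
    exact conj_refl (isProjectiveFlow_id _)
  · rcases Nat.eq_zero_or_pos N with hN | hN
    · rw [hN] at h1
      exact absurd h1 (not_isConjugate_zero one_pos (isAttached_stdFlow m 0) hψ).2
    · exact ((isConjugate_attached_iff one_pos hN hψ (isAttached_stdFlow m N)).1 h1).2

/-- the explicit list in dimension three -/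
theorem dim_three {φ : Fin 3 → RF 3} (h : IsProjectiveFlow φ) :
    φ = idFlow 3 ∨ ∃! N : ℕ, IsConjugate φ (stdFlow 1 N) := by
  rcases explicit_of_cancel (m := 1) (fun F _ _ ⟨e⟩ => luroth_cancel F e) h with h1 | ⟨N, hN⟩
  · exact Or.inl h1
  · right
    refine ⟨N, hN, ?_⟩
    intro M hM
    have hM' : IsConjugate φ (stdFlow 1 M) := hM
    have h2 := conj_trans (stdFlow_flow M) h (stdFlow_flow N)
      (conj_symm h (stdFlow_flow M) hM') hN
    exact (stdFlow_conj_iff M N).1 h2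

/-- the flows `φ_N` in dimension three -/
theorem stdFlow_three (N : ℕ) : stdFlow 1 N = ![crd 0 * (1 + crd 2) ^ ((N : ℤ) - 1),
    crd 1 / (1 + crd 2), crd 2 / (1 + crd 2)] := by
  funext i
  fin_cases i <;> rfl

end Std

end Pool.Agent.Lib.MP_956d6c_ag
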